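import Pool.Agent.KR4.Pairs

/-!
The number of `k`-sets splitting a family of disjoint pairs.
-/

namespace Pool.Agent.KR4

open Finset

variable {ι : Type*} [DecidableEq ι]

/-- The `k`-subsets of `Z` splitting all the pairs `(x, φ x)`, `x ∈ I`. -/
def spl (Z : Finset ι) (k : ℕ) (φ : ι → ι) (I : Finset ι) : Finset (Finset ι) :=
  (Z.powersetCard k).filter (fun A => ∀ x ∈ I, ¬ (x ∈ A ↔ φ x ∈ A))

theorem mem_spl {Z : Finset ι} {k : ℕ} {φ : ι → ι} {I A : Finset ι} :
    A ∈ spl Z k φ I ↔ (A ⊆ Z ∧ A.card = k) ∧ ∀ x ∈ I, ¬ (x ∈ A ↔ φ x ∈ A) := by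
  unfold spl
  rw [mem_filter, mem_powersetCard]

theorem card_spl (φ : ι → ι) (I : Finset ι) : ∀ (Z : Finset ι) (k : ℕ), PairSys Z I φ →
    I.card ≤ k →
    (spl Z k φ I).card = 2 ^ I.card * (Z.card - 2 * I.card).choose (k - I.card) := by
  induction I using Finset.induction_on with
  | empty =>
    intro Z k _ _
    unfold spl
    rw [filter_true_of_mem (fun A _ x hx => absurd hx (notMem_empty x))]
    simp
  | insert x I hx ih =>
    intro Z k hP hk
    rw [card_insert_of_notMem hx] at hk ⊢
    have hxI : x ∈ insert x I := mem_insert_self x I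
    have hxne : φ x ≠ x := hP.dis x hxI x hxI
    have hxZ := hP.sub x hxI
    have hfZ := hP.img x hxI
    set Z' := (Z.erase x).erase (φ x) with hZ'
    have hZc : Z'.card = Z.card - 2 := by
      rw [hZ', card_erase_of_mem (mem_erase.mpr ⟨hxne, hfZ⟩), card_erase_of_mem hxZ]
      omega
    have hP' : PairSys Z' I φ := by
      refine ⟨?_, ?_, ?_, ?_⟩
      · intro z hz
        rw [hZ', mem_erase, mem_erase]
        exact ⟨fun h => hP.dis x hxI z (mem_insert_of_mem hz) h.symm,
          fun h => hx (h ▸ hz), hP.sub z (mem_insert_of_mem hz)⟩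
      · intro z hz
        rw [hZ', mem_erase, mem_erase]
        refine ⟨fun h => ?_, hP.dis z (mem_insert_of_mem hz) x hxI,
          hP.img z (mem_insert_of_mem hz)⟩
        have := hP.inj z (mem_insert_of_mem hz) x hxI h
        exact hx (this ▸ hz)
      · intro z hz z' hz'
        exact hP.inj z (mem_insert_of_mem hz) z' (mem_insert_of_mem hz')
      · intro z hz z' hz'
        exact hP.dis z (mem_insert_of_mem hz) z' (mem_insert_of_mem hz')
    have key : ∀ a b : ι, a ≠ b → ({a, b} : Finset ι) = {x, φ x} →
        ((spl Z k φ (insert x I)).filter (fun A => a ∈ A)).card = (spl Z' (k - 1) φ I).card := by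
      intro a b hab hset
      have ha2 : a ∈ ({x, φ x} : Finset ι) := by rw [← hset]; simp
      have hb2 : b ∈ ({x, φ x} : Finset ι) := by rw [← hset]; simp
      have hx2 : x ∈ ({a, b} : Finset ι) := by rw [hset]; simp
      have hf2 : φ x ∈ ({a, b} : Finset ι) := by rw [hset]; simp
      rw [mem_insert, mem_singleton] at ha2 hb2 hx2 hf2
      have haZ : a ∈ Z := by rcases ha2 with rfl | rfl <;> assumption
      have hmemZ' : ∀ c, c ∈ Z' ↔ c ∈ Z ∧ c ≠ a ∧ c ≠ b := by
        intro c
        rw [hZ', mem_erase, mem_erase]
        constructor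
        · rintro ⟨h1, h2, h3⟩
          refine ⟨h3, ?_, ?_⟩
          · rintro rfl
            rcases ha2 with h | h
            · exact h2 h
            · exact h1 h
          · rintro rfl
            rcases hb2 with h | h
            · exact h2 h
            · exact h1 h
        · rintro ⟨h1, h2, h3⟩
          refine ⟨?_, ?_, h1⟩
          · rintro rfl
            rcases hf2 with h | h
            · exact h2 h
            · exact h3 h
          · rintro rfl
            rcases hx2 with h | h
            · exact h2 h
            · exact h3 h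
      have hI : ∀ z ∈ I, (z ≠ a ∧ z ≠ b) ∧ (φ z ≠ a ∧ φ z ≠ b) := by
        intro z hz
        have h1 := (hmemZ' z).mp (hP'.sub z hz)
        have h2 := (hmemZ' (φ z)).mp (hP'.img z hz)
        exact ⟨h1.2, h2.2⟩
      refine card_bij' (fun A _ => A.erase a) (fun A _ => insert a A) ?_ ?_ ?_ ?_
      · intro A hA
        rw [mem_filter, mem_spl] at hA
        obtain ⟨⟨⟨hAZ, hAc⟩, hsp⟩, haA⟩ := hA
        have hbA : b ∉ A := by
          intro hbA
          apply hsp x hxI
          constructor
          · intro _
            rcases hf2 with h | h <;> rw [h] <;> assumption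
          · intro _
            rcases hx2 with h | h
            · rw [h]; exact haA
            · rw [h]; exact hbA
        rw [mem_spl]
        refine ⟨⟨?_, ?_⟩, ?_⟩
        · intro c hc
          rw [mem_erase] at hc
          rw [hmemZ']
          exact ⟨hAZ hc.2, hc.1, fun h => hbA (h ▸ hc.2)⟩
        · rw [card_erase_of_mem haA, hAc]
        · intro z hz
          rw [mem_erase, mem_erase]
          have h1 := hI z hz
          have h2 := hsp z (mem_insert_of_mem hz)
          tauto
      · intro A hA
        rw [mem_spl] at hA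
        obtain ⟨⟨hAZ, hAc⟩, hsp⟩ := hA
        have haA : a ∉ A := fun h => ((hmemZ' a).mp (hAZ h)).2.1 rfl
        have hbA : b ∉ A := fun h => ((hmemZ' b).mp (hAZ h)).2.2 rfl
        rw [mem_filter, mem_spl]
        refine ⟨⟨⟨?_, ?_⟩, ?_⟩, mem_insert_self a A⟩
        · intro c hc
          rw [mem_insert] at hc
          rcases hc with rfl | hc
          · exact haZ
          · exact ((hmemZ' c).mp (hAZ hc)).1
        · rw [card_insert_of_notMem haA, hAc]
          omega
        · intro z hz
          rw [mem_insert] at hz
          rcases hz with rfl | hz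
          · rw [mem_insert, mem_insert]
            intro hiff
            rcases hx2 with h | h
            · rcases hf2 with h' | h'
              · exact hxne (h'.trans h.symm)
              · have := hiff.mp (Or.inl h)
                rcases this with h3 | h3
                · exact hab (h3.symm.trans h')
                · rw [h'] at h3; exact hbA h3
            · rcases hf2 with h' | h'
              · have := hiff.mpr (Or.inl h')
                rcases this with h3 | h3
                · exact hab (h3.symm.trans h)
                · rw [h] at h3; exact hbA h3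
              · exact hxne (h'.trans h.symm)
          · rw [mem_insert, mem_insert]
            have h1 := hI z hz
            have h2 := hsp z hz
            tauto
      · intro A hA
        rw [mem_filter] at hA
        exact insert_erase hA.2
      · intro A hA
        rw [mem_spl] at hA
        have haA : a ∉ A := fun h => ((hmemZ' a).mp (hA.1.1 h)).2.1 rfl
        exact erase_insert haA
    have k1 := key x (φ x) (Ne.symm hxne) rfl
    have k2 := key (φ x) x hxne (pair_comm _ _)
    have hsplit : (spl Z k φ (insert x I)).card =
        ((spl Z k φ (insert x I)).filter (fun A => x ∈ A)).card +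
        ((spl Z k φ (insert x I)).filter (fun A => φ x ∈ A)).card := by
      rw [← card_filter_add_card_filter_not (s := spl Z k φ (insert x I)) (fun A => x ∈ A)]
      congr 1
      congr 1
      apply filter_congr
      intro A hA
      have h1 := (mem_spl.mp hA).2 x hxI
      tauto
    rw [hsplit, k1, k2, ih Z' (k - 1) hP' (by omega), hZc, pow_succ]
    have e1 : Z.card - 2 - 2 * I.card = Z.card - 2 * (I.card + 1) := by omega
    have e2 : k - 1 - I.card = k - (I.card + 1) := by omega
    rw [e1, e2]
    ring

/-- The double count of split pairs. -/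
theorem sum_choose_sp {Z W : Finset ι} {φ : ι → ι} (hP : PairSys Z W φ) (k i : ℕ) (hik : i ≤ k)
    (hZ : Z.card = 2 * k) :
    ∑ A ∈ Z.powersetCard k, (sp W φ A).card.choose i =
      W.card.choose i * (2 ^ i * (2 * (k - i)).choose (k - i)) := by
  have h1 : ∀ A ∈ Z.powersetCard k, (sp W φ A).card.choose i =
      ((W.powersetCard i).bipartiteAbove (fun A I => I ⊆ sp W φ A) A).card := by
    intro A _
    rw [← card_powersetCard]
    congr 1
    ext I
    unfold bipartiteAbove
    rw [mem_powersetCard, mem_filter, mem_powersetCard]
    constructor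
    · rintro ⟨a, b⟩
      refine ⟨⟨a.trans ?_, b⟩, a⟩
      unfold sp
      exact filter_subset _ _
    · rintro ⟨⟨_, b⟩, a⟩
      exact ⟨a, b⟩
  rw [sum_congr rfl h1, sum_card_bipartiteAbove_eq_sum_card_bipartiteBelow]
  have h2 : ∀ I ∈ W.powersetCard i,
      ((Z.powersetCard k).bipartiteBelow (fun A I => I ⊆ sp W φ A) I).card =
      2 ^ i * (2 * (k - i)).choose (k - i) := by
    intro I hI
    rw [mem_powersetCard] at hI
    have hPI : PairSys Z I φ := ⟨fun x hx => hP.sub x (hI.1 hx), fun x hx => hP.img x (hI.1 hx),
      fun x hx x' hx' => hP.inj x (hI.1 hx) x' (hI.1 hx'),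
      fun x hx x' hx' => hP.dis x (hI.1 hx) x' (hI.1 hx')⟩
    have h3 := card_spl φ I Z k hPI (by omega)
    rw [hI.2, hZ] at h3
    have e1 : 2 * k - 2 * i = 2 * (k - i) := by omega
    rw [e1] at h3
    rw [← h3]
    congr 1
    ext A
    unfold bipartiteBelow
    rw [mem_filter, mem_powersetCard, mem_spl]
    constructor
    · rintro ⟨a, b⟩
      refine ⟨a, fun x hx => ?_⟩
      exact (mem_sp.mp (b hx)).2
    · rintro ⟨a, b⟩
      refine ⟨a, fun x hx => ?_⟩
      exact mem_sp.mpr ⟨hI.1 hx, b x hx⟩
  rw [sum_congr rfl h2, sum_const, card_powersetCard, smul_eq_mul]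

end Pool.Agent.KR4
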