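import Pool.Agent.KR4.Basic
import Pool.Agent.KR4.Count

/-!
Bounds for the number of `k`-subsets `A` of a `2 k`-set `Z` such that neither `A` nor `Z \ A` has
positive sum.
-/

namespace Pool.Agent.KR4

open Finset

variable {ι : Type*} [DecidableEq ι]

/-- The number of halves `A` of `Z` such that neither `A` nor its complement is positive. -/
noncomputable def bad (y : ι → ℝ) (k : ℕ) (Z : Finset ι) : ℕ :=
  ((Z.powersetCard k).filter (fun A => ∑ i ∈ A, y i ≤ 0 ∧ ∑ i ∈ Z \ A, y i ≤ 0)).card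

theorem bad_add_pos (y : ι → ℝ) (k : ℕ) (Z : Finset ι) (hZ : Z.card = 2 * k) :
    (2 * k).choose k ≤ bad y k Z + 2 * pos y k Z := by
  have h1 : ((Z.powersetCard k).filter (fun A => 0 < ∑ i ∈ Z \ A, y i)).card = pos y k Z := by
    unfold pos
    refine card_bij' (fun A _ => Z \ A) (fun A _ => Z \ A) ?_ ?_ ?_ ?_
    · intro A hA
      rw [mem_filter, mem_powersetCard] at hA ⊢
      exact ⟨⟨sdiff_subset, by rw [card_sdiff_of_subset hA.1.1, hZ, hA.1.2]; omega⟩, hA.2⟩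
    · intro A hA
      rw [mem_filter, mem_powersetCard] at hA ⊢
      refine ⟨⟨sdiff_subset, by rw [card_sdiff_of_subset hA.1.1, hZ, hA.1.2]; omega⟩, ?_⟩
      rw [Finset.sdiff_sdiff_eq_self hA.1.1]
      exact hA.2
    · intro A hA
      rw [mem_filter, mem_powersetCard] at hA
      exact Finset.sdiff_sdiff_eq_self hA.1.1
    · intro A hA
      rw [mem_filter, mem_powersetCard] at hA
      exact Finset.sdiff_sdiff_eq_self hA.1.1
  have h2 : Z.powersetCard k ⊆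
      ((Z.powersetCard k).filter (fun A => ∑ i ∈ A, y i ≤ 0 ∧ ∑ i ∈ Z \ A, y i ≤ 0)) ∪
      (((Z.powersetCard k).filter (fun A => 0 < ∑ i ∈ A, y i)) ∪
      ((Z.powersetCard k).filter (fun A => 0 < ∑ i ∈ Z \ A, y i))) := by
    intro A hA
    rw [mem_union, mem_union, mem_filter, mem_filter, mem_filter]
    rcases lt_or_ge 0 (∑ i ∈ A, y i) with h | h
    · exact Or.inr (Or.inl ⟨hA, h⟩)
    · rcases lt_or_ge 0 (∑ i ∈ Z \ A, y i) with h' | h'
      · exact Or.inr (Or.inr ⟨hA, h'⟩)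
      · exact Or.inl ⟨hA, h, h'⟩
  have h3 := card_le_card h2
  rw [card_powersetCard, hZ] at h3
  have h4 := card_union_le
    ((Z.powersetCard k).filter (fun A => ∑ i ∈ A, y i ≤ 0 ∧ ∑ i ∈ Z \ A, y i ≤ 0))
    (((Z.powersetCard k).filter (fun A => 0 < ∑ i ∈ A, y i)) ∪
      ((Z.powersetCard k).filter (fun A => 0 < ∑ i ∈ Z \ A, y i)))
  have h5 := card_union_le ((Z.powersetCard k).filter (fun A => 0 < ∑ i ∈ A, y i))
      ((Z.powersetCard k).filter (fun A => 0 < ∑ i ∈ Z \ A, y i))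
  rw [h1] at h5
  have h6 : ((Z.powersetCard k).filter (fun A => 0 < ∑ i ∈ A, y i)).card = pos y k Z := rfl
  have h7 : ((Z.powersetCard k).filter
    (fun A => ∑ i ∈ A, y i ≤ 0 ∧ ∑ i ∈ Z \ A, y i ≤ 0)).card = bad y k Z := rfl
  omega

theorem bad_zero (y : ι → ℝ) (k : ℕ) (Z : Finset ι) (hZ : 0 < ∑ i ∈ Z, y i) :
    bad y k Z = 0 := by
  unfold bad
  rw [card_eq_zero, filter_eq_empty_iff]
  intro A hA h
  rw [mem_powersetCard] at hA
  have := sum_sdiff (f := y) hA.1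
  linarith [h.1, h.2]

/-- `2 ^ i C(2 (k - i), k - i)`. -/
noncomputable def DD (k i : ℕ) : ℝ := 2 ^ i * (((2 * (k - i)).choose (k - i) : ℕ) : ℝ)

theorem DD_nonneg (k i : ℕ) : 0 ≤ DD k i := by
  unfold DD
  positivity

theorem DD_succ (k i : ℕ) (h : i < k) :
    DD k (i + 1) * (2 * (k : ℝ) - 2 * i - 1) = DD k i * ((k : ℝ) - i) := by
  obtain ⟨m, rfl⟩ : ∃ m, k = i + 1 + m := ⟨k - (i + 1), by omega⟩
  unfold DD
  have e1 : i + 1 + m - (i + 1) = m := by omega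
  have e2 : i + 1 + m - i = m + 1 := by omega
  rw [e1, e2]
  have h1 := Nat.succ_mul_centralBinom_succ m
  rw [Nat.centralBinom_eq_two_mul_choose, Nat.centralBinom_eq_two_mul_choose] at h1
  have h2 : ((m : ℝ) + 1) * (((2 * (m + 1)).choose (m + 1) : ℕ) : ℝ) =
      2 * (2 * m + 1) * (((2 * m).choose m : ℕ) : ℝ) := by exact_mod_cast h1
  push_cast
  have e3 : (i : ℝ) + 1 + m - i = m + 1 := by ring
  have e4 : 2 * ((i : ℝ) + 1 + m) - 2 * i - 1 = 2 * m + 1 := by ring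
  rw [e3, e4, mul_assoc (2 ^ i), mul_comm (((2 * (m + 1)).choose (m + 1) : ℕ) : ℝ), h2, pow_succ]
  ring

/-- Coefficients of `C(r, ⌊r / 2⌋) / 2 ^ r` in the basis `C(r, i)`. -/
noncomputable def cc : ℕ → ℝ
  | 0 => 1
  | 1 => -1 / 2
  | 2 => 1 / 2
  | 3 => -5 / 8
  | 4 => 7 / 8
  | 5 => -21 / 16
  | _ => 0

theorem cc_eq (p r : ℕ) (hp : p ≤ 5) (hr : r ≤ p) :
    ((r.choose (r / 2) : ℕ) : ℝ) / 2 ^ r =
      ∑ i ∈ range (p + 1), cc i * ((r.choose i : ℕ) : ℝ) := by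
  interval_cases p <;> interval_cases r <;>
    simp [Finset.sum_range_succ, cc, Nat.choose] <;> norm_num

theorem exists_pairs (Z B V : Finset ι) (p : ℕ) (hB : B ⊆ Z) (hV : V ⊆ Z) (hd : Disjoint B V)
    (hpB : p ≤ B.card) (hpV : p ≤ V.card) :
    ∃ (W : Finset ι) (φ : ι → ι), W ⊆ B ∧ W.card = p ∧ (∀ x ∈ W, φ x ∈ V) ∧ PairSys Z W φ := by
  obtain ⟨W, hWB, hWc⟩ := exists_subset_card_eq hpB
  obtain ⟨V', hVV, hVc⟩ := exists_subset_card_eq hpV
  let e : {x // x ∈ W} ≃ {x // x ∈ V'} := Finset.equivOfCardEq (hWc.trans hVc.symm)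
  refine ⟨W, fun x => if h : x ∈ W then (e ⟨x, h⟩ : ι) else x, hWB, hWc, ?_, ?_⟩
  · intro x hx
    simp only [dif_pos hx]
    exact hVV (e ⟨x, hx⟩).2
  · refine ⟨fun x hx => hB (hWB hx), ?_, ?_, ?_⟩
    · intro x hx
      simp only [dif_pos hx]
      exact hV (hVV (e ⟨x, hx⟩).2)
    · intro x hx x' hx' h
      simp only [dif_pos hx, dif_pos hx'] at h
      have h1 := e.injective (Subtype.ext h)
      exact congrArg Subtype.val h1
    · intro x hx x' hx' h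
      simp only [dif_pos hx] at h
      have h1 := hVV (e ⟨x, hx⟩).2
      rw [h] at h1
      exact (Finset.disjoint_left.mp hd) (hWB hx') h1

theorem bad_le_sum {Z W : Finset ι} {φ : ι → ι} (hP : PairSys Z W φ) (y : ι → ℝ) (k : ℕ)
    {σ t : ℝ} (hσt : σ ≤ t) (hZ : σ - t ≤ ∑ i ∈ Z, y i) (hW : ∀ x ∈ W, t ≤ y x)
    (hV : ∀ x ∈ W, y (φ x) < σ) :
    (bad y k Z : ℝ) ≤ ∑ A ∈ Z.powersetCard k,
      (((sp W φ A).card.choose ((sp W φ A).card / 2) : ℕ) : ℝ) / 2 ^ (sp W φ A).card := by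
  unfold bad
  apply fiber_bound hP k _ (filter_subset _ _)
  intro A hA B hB hsp hrs hsub
  rw [mem_filter, mem_powersetCard] at hA hB
  by_contra hne
  have hss : A ∩ sp W φ A ⊂ B ∩ sp W φ B := Finset.ssubset_iff_subset_ne.mpr ⟨hsub, hne⟩
  rw [← hsp] at hss hsub
  have hyA : ∑ i ∈ A, y i = ∑ i ∈ rs W φ A, y i + (∑ i ∈ A ∩ sp W φ A, y i +
      ∑ x ∈ sp W φ A \ (A ∩ sp W φ A), y (φ x)) := by
    rw [← sum_mk hP A y inter_subset_right, ← eq_mk hP A]
  have hyB : ∑ i ∈ B, y i = ∑ i ∈ rs W φ A, y i + (∑ i ∈ B ∩ sp W φ A, y i +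
      ∑ x ∈ sp W φ A \ (B ∩ sp W φ A), y (φ x)) := by
    rw [← sum_mk hP A y inter_subset_right, hrs, hsp, ← eq_mk hP B]
  set R := sp W φ A with hR
  set OA := A ∩ R with hOA
  set OB := B ∩ R with hOB
  have hOBR : OB ⊆ R := inter_subset_right
  have d1 : ∑ i ∈ OB, y i = ∑ i ∈ OB \ OA, y i + ∑ i ∈ OA, y i := (sum_sdiff hsub).symm
  have d2 : ∑ x ∈ R \ OA, y (φ x) = ∑ x ∈ OB \ OA, y (φ x) + ∑ x ∈ R \ OB, y (φ x) := by
    rw [← sum_union]
    · congr 1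
      ext x
      rw [mem_union, mem_sdiff, mem_sdiff, mem_sdiff]
      constructor
      · rintro ⟨h1, h2⟩
        by_cases h3 : x ∈ OB
        · exact Or.inl ⟨h3, h2⟩
        · exact Or.inr ⟨h1, h3⟩
      · rintro (⟨h1, h2⟩ | ⟨h1, h2⟩)
        · exact ⟨hOBR h1, h2⟩
        · exact ⟨h1, fun h => h2 (hsub h)⟩
    · rw [Finset.disjoint_left]
      intro x hx hx2
      rw [mem_sdiff] at hx hx2
      exact hx2.2 hx.1
  obtain ⟨x0, hx0⟩ : (OB \ OA).Nonempty := by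
    rw [sdiff_nonempty]
    exact fun h => (Finset.ssubset_iff_subset_ne.mp hss).2 (Subset.antisymm hsub h)
  have d3 : t - σ < ∑ x ∈ OB \ OA, (y x - y (φ x)) := by
    have hWm : ∀ x ∈ OB \ OA, x ∈ W := fun x hx => (mem_sp.mp (hOBR (mem_sdiff.mp hx).1)).1
    have h1 : y x0 - y (φ x0) ≤ ∑ x ∈ OB \ OA, (y x - y (φ x)) := by
      apply single_le_sum (f := fun x => y x - y (φ x)) _ hx0
      intro x hx
      have := hW x (hWm x hx)
      have := hV x (hWm x hx)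
      linarith
    have := hW x0 (hWm x0 hx0)
    have := hV x0 (hWm x0 hx0)
    linarith
  rw [sum_sub_distrib] at d3
  have h4 := sum_sdiff (f := y) hA.1.1
  linarith [hA.2.1, hA.2.2, hB.2.1]

/-- The bound by split pairs. -/
theorem bad_le (y : ι → ℝ) (k : ℕ) (Z : Finset ι) (p : ℕ) {σ t : ℝ} (hp5 : p ≤ 5)
    (hZc : Z.card = 2 * k) (hσt : σ ≤ t) (hZ : σ - t ≤ ∑ i ∈ Z, y i)
    (hB : p ≤ (Z.filter (fun x => t ≤ y x)).card) (hV : p ≤ (Z.filter (fun x => y x < σ)).card) :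
    p ≤ k ∧ (bad y k Z : ℝ) ≤ ∑ i ∈ range (p + 1), cc i * ((p.choose i : ℕ) : ℝ) * DD k i := by
  have hd : Disjoint (Z.filter (fun x => t ≤ y x)) (Z.filter (fun x => y x < σ)) := by
    rw [Finset.disjoint_left]
    intro x hx hx2
    rw [mem_filter] at hx hx2
    linarith [hx.2, hx2.2]
  have hpk : p ≤ k := by
    have h1 := card_union_of_disjoint hd
    have h2 := card_le_card (union_subset (filter_subset (fun x => t ≤ y x) Z)
      (filter_subset (fun x => y x < σ) Z))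
    omega
  refine ⟨hpk, ?_⟩
  obtain ⟨W, φ, hWB, hWc, hφ, hP⟩ := exists_pairs Z _ _ p (filter_subset _ _) (filter_subset _ _)
    hd hB hV
  have h1 := bad_le_sum hP y k hσt hZ (fun x hx => (mem_filter.mp (hWB hx)).2)
    (fun x hx => (mem_filter.mp (hφ x hx)).2)
  refine h1.trans (le_of_eq ?_)
  have h2 : ∀ A ∈ Z.powersetCard k,
      (((sp W φ A).card.choose ((sp W φ A).card / 2) : ℕ) : ℝ) / 2 ^ (sp W φ A).card =
      ∑ i ∈ range (p + 1), cc i * (((sp W φ A).card.choose i : ℕ) : ℝ) := by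
    intro A _
    apply cc_eq p _ hp5
    rw [← hWc]
    exact card_le_card (filter_subset _ _)
  rw [sum_congr rfl h2, sum_comm]
  apply sum_congr rfl
  intro i hi
  rw [mem_range] at hi
  rw [← mul_sum]
  have h3 := sum_choose_sp hP k i (by omega) hZc
  have h4 : ∑ A ∈ Z.powersetCard k, (((sp W φ A).card.choose i : ℕ) : ℝ) =
      ((∑ A ∈ Z.powersetCard k, (sp W φ A).card.choose i : ℕ) : ℝ) := by push_cast; rfl
  rw [h4, h3, hWc]
  unfold DD
  push_cast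
  ring

end Pool.Agent.KR4
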