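import Pool.Agent.KR4.Alpha

/-!
Numerical bounds for the number of halves `A` of `Z` such that neither `A` nor `Z \ A` has
positive sum.
-/

namespace Pool.Agent.KR4

open Finset

variable {ι : Type*} [DecidableEq ι]

/-- The first relations between the numbers `DD k i`. -/
theorem DD_rel (k p : ℕ) (hp : p ≤ k) :
    (0 < p → DD k 1 * (2 * (k : ℝ) - 1) = DD k 0 * (k : ℝ)) ∧
    (1 < p → DD k 2 * (2 * (k : ℝ) - 3) = DD k 1 * ((k : ℝ) - 1)) ∧
    (2 < p → DD k 3 * (2 * (k : ℝ) - 5) = DD k 2 * ((k : ℝ) - 2)) ∧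
    (3 < p → DD k 4 * (2 * (k : ℝ) - 7) = DD k 3 * ((k : ℝ) - 3)) ∧
    (4 < p → DD k 5 * (2 * (k : ℝ) - 9) = DD k 4 * ((k : ℝ) - 4)) := by
  refine ⟨fun h => ?_, fun h => ?_, fun h => ?_, fun h => ?_, fun h => ?_⟩
  · have := DD_succ k 0 (by omega)
    push_cast at this
    linear_combination this
  · have := DD_succ k 1 (by omega)
    push_cast at this
    linear_combination this
  · have := DD_succ k 2 (by omega)
    push_cast at this
    linear_combination this
  · have := DD_succ k 3 (by omega)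
    push_cast at this
    linear_combination this
  · have := DD_succ k 4 (by omega)
    push_cast at this
    linear_combination this

theorem num1 (k : ℕ) :
    ∑ i ∈ range (1 + 1), cc i * ((Nat.choose 1 i : ℕ) : ℝ) * DD k i =
      DD k 0 - DD k 1 / 2 := by
  simp [Finset.sum_range_succ, cc]
  ring

theorem num2 (k : ℕ) (hk : 3 ≤ k) :
    ∑ i ∈ range (2 + 1), cc i * ((Nat.choose 2 i : ℕ) : ℝ) * DD k i ≤ 5 / 8 * DD k 0 := by
  obtain ⟨r1, r2, _⟩ := DD_rel k 2 (by omega)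
  have r1 := r1 (by omega)
  have r2 := r2 (by omega)
  have h0 := DD_nonneg k 0
  obtain ⟨j, rfl⟩ : ∃ j, k = j + 3 := ⟨k - 3, by omega⟩
  have e : ∑ i ∈ range (2 + 1), cc i * ((Nat.choose 2 i : ℕ) : ℝ) * DD (j + 3) i =
      DD (j + 3) 0 - DD (j + 3) 1 + 1 / 2 * DD (j + 3) 2 := by
    simp [Finset.sum_range_succ, cc, Nat.choose]
    ring
  rw [e]
  generalize DD (j + 3) 0 = D0 at *
  generalize DD (j + 3) 1 = D1 at *
  generalize DD (j + 3) 2 = D2 at *
  push_cast at r1 r2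
  have hj : (0 : ℝ) ≤ j := Nat.cast_nonneg j
  generalize (j : ℝ) = x at *
  set u := D0 / ((2 * x + 5) * (2 * x + 3)) with hu
  have hu0 : 0 ≤ u := div_nonneg h0 (by positivity)
  have q0 : D0 = u * ((2 * x + 5) * (2 * x + 3)) := by rw [hu]; field_simp
  have q1 : D1 = u * ((x + 3) * (2 * x + 3)) := by
    apply mul_right_cancel₀ (b := 2 * x + 5) (by positivity)
    linear_combination r1 + (x + 3) * q0
  have q2 : D2 = u * ((x + 3) * (x + 2)) := by
    apply mul_right_cancel₀ (b := 2 * x + 3) (by positivity)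
    linear_combination r2 + (x + 2) * q1
  rw [q0, q1, q2]
  have : 0 ≤ u * (1 / 2 * x + 3 / 8) := by positivity
  nlinarith

theorem num3 (k : ℕ) (hk : 3 ≤ k) :
    ∑ i ∈ range (3 + 1), cc i * ((Nat.choose 3 i : ℕ) : ℝ) * DD k i ≤ 35 / 64 * DD k 0 := by
  obtain ⟨r1, r2, r3, _⟩ := DD_rel k 3 (by omega)
  have r1 := r1 (by omega)
  have r2 := r2 (by omega)
  have r3 := r3 (by omega)
  have h0 := DD_nonneg k 0
  obtain ⟨j, rfl⟩ : ∃ j, k = j + 3 := ⟨k - 3, by omega⟩
  have e : ∑ i ∈ range (3 + 1), cc i * ((Nat.choose 3 i : ℕ) : ℝ) * DD (j + 3) i =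
      DD (j + 3) 0 - 3 / 2 * DD (j + 3) 1 + 3 / 2 * DD (j + 3) 2 - 5 / 8 * DD (j + 3) 3 := by
    simp [Finset.sum_range_succ, cc, Nat.choose]
    ring
  rw [e]
  generalize DD (j + 3) 0 = D0 at *
  generalize DD (j + 3) 1 = D1 at *
  generalize DD (j + 3) 2 = D2 at *
  generalize DD (j + 3) 3 = D3 at *
  push_cast at r1 r2 r3
  have hj : (0 : ℝ) ≤ j := Nat.cast_nonneg j
  generalize (j : ℝ) = x at *
  set u := D0 / ((2 * x + 5) * (2 * x + 3) * (2 * x + 1)) with hu
  have hu0 : 0 ≤ u := div_nonneg h0 (by positivity)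
  have q0 : D0 = u * ((2 * x + 5) * (2 * x + 3) * (2 * x + 1)) := by rw [hu]; field_simp
  have q1 : D1 = u * ((x + 3) * (2 * x + 3) * (2 * x + 1)) := by
    apply mul_right_cancel₀ (b := 2 * x + 5) (by positivity)
    linear_combination r1 + (x + 3) * q0
  have q2 : D2 = u * ((x + 3) * (x + 2) * (2 * x + 1)) := by
    apply mul_right_cancel₀ (b := 2 * x + 3) (by positivity)
    linear_combination r2 + (x + 2) * q1
  have q3 : D3 = u * ((x + 3) * (x + 2) * (x + 1)) := by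
    apply mul_right_cancel₀ (b := 2 * x + 1) (by positivity)
    linear_combination r3 + (x + 1) * q2
  rw [q0, q1, q2, q3]
  have : 0 ≤ u * (93 / 64 + 33 / 32 * x + 15 / 16 * x ^ 2) := by positivity
  nlinarith

theorem num4 (k : ℕ) (hk : 5 ≤ k) :
    ∑ i ∈ range (4 + 1), cc i * ((Nat.choose 4 i : ℕ) : ℝ) * DD k i ≤ 63 / 128 * DD k 0 := by
  obtain ⟨r1, r2, r3, r4, _⟩ := DD_rel k 4 (by omega)
  have r1 := r1 (by omega)
  have r2 := r2 (by omega)
  have r3 := r3 (by omega)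
  have r4 := r4 (by omega)
  have h0 := DD_nonneg k 0
  obtain ⟨j, rfl⟩ : ∃ j, k = j + 5 := ⟨k - 5, by omega⟩
  have e : ∑ i ∈ range (4 + 1), cc i * ((Nat.choose 4 i : ℕ) : ℝ) * DD (j + 5) i =
      DD (j + 5) 0 - 2 * DD (j + 5) 1 + 3 * DD (j + 5) 2 - 5 / 2 * DD (j + 5) 3 +
        7 / 8 * DD (j + 5) 4 := by
    simp [Finset.sum_range_succ, cc, Nat.choose]
    ring
  rw [e]
  generalize DD (j + 5) 0 = D0 at *
  generalize DD (j + 5) 1 = D1 at *
  generalize DD (j + 5) 2 = D2 at *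
  generalize DD (j + 5) 3 = D3 at *
  generalize DD (j + 5) 4 = D4 at *
  push_cast at r1 r2 r3 r4
  have hj : (0 : ℝ) ≤ j := Nat.cast_nonneg j
  generalize (j : ℝ) = x at *
  set u := D0 / ((2 * x + 9) * (2 * x + 7) * (2 * x + 5) * (2 * x + 3)) with hu
  have hu0 : 0 ≤ u := div_nonneg h0 (by positivity)
  have q0 : D0 = u * ((2 * x + 9) * (2 * x + 7) * (2 * x + 5) * (2 * x + 3)) := by
    rw [hu]; field_simp
  have q1 : D1 = u * ((x + 5) * (2 * x + 7) * (2 * x + 5) * (2 * x + 3)) := by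
    apply mul_right_cancel₀ (b := 2 * x + 9) (by positivity)
    linear_combination r1 + (x + 5) * q0
  have q2 : D2 = u * ((x + 5) * (x + 4) * (2 * x + 5) * (2 * x + 3)) := by
    apply mul_right_cancel₀ (b := 2 * x + 7) (by positivity)
    linear_combination r2 + (x + 4) * q1
  have q3 : D3 = u * ((x + 5) * (x + 4) * (x + 3) * (2 * x + 3)) := by
    apply mul_right_cancel₀ (b := 2 * x + 5) (by positivity)
    linear_combination r3 + (x + 3) * q2
  have q4 : D4 = u * ((x + 5) * (x + 4) * (x + 3) * (x + 2)) := by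
    apply mul_right_cancel₀ (b := 2 * x + 3) (by positivity)
    linear_combination r4 + (x + 2) * q3
  rw [q0, q1, q2, q3, q4]
  have : 0 ≤ u * (1935 / 128 + 217 / 8 * x + 183 / 16 * x ^ 2 + 7 / 4 * x ^ 3) := by positivity
  nlinarith

theorem num5 (k : ℕ) (hk : 5 ≤ k) :
    ∑ i ∈ range (5 + 1), cc i * ((Nat.choose 5 i : ℕ) : ℝ) * DD k i ≤ 231 / 512 * DD k 0 := by
  obtain ⟨r1, r2, r3, r4, r5⟩ := DD_rel k 5 (by omega)
  have r1 := r1 (by omega)
  have r2 := r2 (by omega)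
  have r3 := r3 (by omega)
  have r4 := r4 (by omega)
  have r5 := r5 (by omega)
  have h0 := DD_nonneg k 0
  obtain ⟨j, rfl⟩ : ∃ j, k = j + 5 := ⟨k - 5, by omega⟩
  have e : ∑ i ∈ range (5 + 1), cc i * ((Nat.choose 5 i : ℕ) : ℝ) * DD (j + 5) i =
      DD (j + 5) 0 - 5 / 2 * DD (j + 5) 1 + 5 * DD (j + 5) 2 - 25 / 4 * DD (j + 5) 3 +
        35 / 8 * DD (j + 5) 4 - 21 / 16 * DD (j + 5) 5 := by
    simp [Finset.sum_range_succ, cc, Nat.choose]
    ring
  rw [e]
  generalize DD (j + 5) 0 = D0 at *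
  generalize DD (j + 5) 1 = D1 at *
  generalize DD (j + 5) 2 = D2 at *
  generalize DD (j + 5) 3 = D3 at *
  generalize DD (j + 5) 4 = D4 at *
  generalize DD (j + 5) 5 = D5 at *
  push_cast at r1 r2 r3 r4 r5
  have hj : (0 : ℝ) ≤ j := Nat.cast_nonneg j
  generalize (j : ℝ) = x at *
  set u := D0 / ((2 * x + 9) * (2 * x + 7) * (2 * x + 5) * (2 * x + 3) * (2 * x + 1)) with hu
  have hu0 : 0 ≤ u := div_nonneg h0 (by positivity)
  have q0 : D0 = u * ((2 * x + 9) * (2 * x + 7) * (2 * x + 5) * (2 * x + 3) * (2 * x + 1)) := by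
    rw [hu]; field_simp
  have q1 : D1 = u * ((x + 5) * (2 * x + 7) * (2 * x + 5) * (2 * x + 3) * (2 * x + 1)) := by
    apply mul_right_cancel₀ (b := 2 * x + 9) (by positivity)
    linear_combination r1 + (x + 5) * q0
  have q2 : D2 = u * ((x + 5) * (x + 4) * (2 * x + 5) * (2 * x + 3) * (2 * x + 1)) := by
    apply mul_right_cancel₀ (b := 2 * x + 7) (by positivity)
    linear_combination r2 + (x + 4) * q1
  have q3 : D3 = u * ((x + 5) * (x + 4) * (x + 3) * (2 * x + 3) * (2 * x + 1)) := by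
    apply mul_right_cancel₀ (b := 2 * x + 5) (by positivity)
    linear_combination r3 + (x + 3) * q2
  have q4 : D4 = u * ((x + 5) * (x + 4) * (x + 3) * (x + 2) * (2 * x + 1)) := by
    apply mul_right_cancel₀ (b := 2 * x + 3) (by positivity)
    linear_combination r4 + (x + 2) * q3
  have q5 : D5 = u * ((x + 5) * (x + 4) * (x + 3) * (x + 2) * (x + 1)) := by
    apply mul_right_cancel₀ (b := 2 * x + 1) (by positivity)
    linear_combination r5 + (x + 1) * q4
  rw [q0, q1, q2, q3, q4, q5]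
  have : 0 ≤ u * (26295 / 512 + 12975 / 256 * x + 3945 / 64 * x ^ 2 + 735 / 32 * x ^ 3 +
      105 / 32 * x ^ 4) := by positivity
  nlinarith

end Pool.Agent.KR4
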