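import Mathlib

/-!
Numbers of `k`-subsets of positive sum: double counting lemmas and the step from `n` to `n + k`.
-/

namespace Pool.Agent.KR4

open Finset

variable {ι : Type*} [DecidableEq ι]

/-- The number of `k`-subsets of `X` of positive sum. -/
noncomputable def pos (y : ι → ℝ) (k : ℕ) (X : Finset ι) : ℕ :=
  ((X.powersetCard k).filter (fun S => 0 < ∑ i ∈ S, y i)).card

theorem card_super (X B : Finset ι) (m : ℕ) (hB : B ⊆ X) (hm : B.card ≤ m) :
    ((X.powersetCard m).filter (fun U => B ⊆ U)).card =
      (X.card - B.card).choose (m - B.card) := by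
  have h1 : ((X \ B).powersetCard (m - B.card)).card =
      (X.card - B.card).choose (m - B.card) := by
    rw [card_powersetCard, card_sdiff_of_subset hB]
  rw [← h1]
  apply Finset.card_bij' (fun U _ => U \ B) (fun V _ => V ∪ B)
  · intro U hU
    rw [mem_filter, mem_powersetCard] at hU
    rw [mem_powersetCard]
    exact ⟨sdiff_subset_sdiff hU.1.1 (Subset.refl _), by
      rw [card_sdiff_of_subset hU.2, hU.1.2]⟩
  · intro V hV
    rw [mem_powersetCard] at hV
    rw [mem_filter, mem_powersetCard]
    have hd : Disjoint V B := by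
      rw [Finset.disjoint_left]
      intro a ha hb
      exact (mem_sdiff.mp (hV.1 ha)).2 hb
    refine ⟨⟨union_subset (hV.1.trans sdiff_subset) hB, ?_⟩, subset_union_right⟩
    rw [card_union_of_disjoint hd, hV.2]
    omega
  · intro U hU
    rw [mem_filter] at hU
    exact sdiff_union_of_subset hU.2
  · intro V hV
    rw [mem_powersetCard] at hV
    have hd : Disjoint V B := by
      rw [Finset.disjoint_left]
      intro a ha hb
      exact (mem_sdiff.mp (hV.1 ha)).2 hb
    rw [union_sdiff_right]
    exact sdiff_eq_self_of_disjoint hd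

theorem pos_mono (y : ι → ℝ) (k : ℕ) {X Y : Finset ι} (h : X ⊆ Y) : pos y k X ≤ pos y k Y := by
  unfold pos
  apply card_le_card
  intro S hS
  rw [mem_filter, mem_powersetCard] at hS ⊢
  exact ⟨⟨hS.1.1.trans h, hS.1.2⟩, hS.2⟩

/-- Positive `k`-subsets with and without the element `e`. -/
noncomputable def pos1 (y : ι → ℝ) (k : ℕ) (X : Finset ι) (e : ι) : ℕ :=
  ((X.powersetCard k).filter (fun S => (0 < ∑ i ∈ S, y i) ∧ e ∈ S)).card

noncomputable def pos0 (y : ι → ℝ) (k : ℕ) (X : Finset ι) (e : ι) : ℕ :=
  ((X.powersetCard k).filter (fun S => (0 < ∑ i ∈ S, y i) ∧ e ∉ S)).card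

theorem pos_split (y : ι → ℝ) (k : ℕ) (X : Finset ι) (e : ι) :
    pos y k X = pos1 y k X e + pos0 y k X e := by
  unfold pos pos1 pos0
  rw [← filter_filter, ← filter_filter, card_filter_add_card_filter_not]

/-- The step of Manickam and Singhi from `n` to `n + k`. -/
theorem step (n k : ℕ) (hk : 0 < k) (hkn : k ≤ n)
    (ih : ∀ (X : Finset ι) (y : ι → ℝ), X.card = n → 0 < ∑ i ∈ X, y i →
      (n - 1).choose (k - 1) ≤ pos y k X)
    (X : Finset ι) (y : ι → ℝ) (hX : X.card = n + k) (hy : 0 < ∑ i ∈ X, y i) :
    (n + k - 1).choose (k - 1) ≤ pos y k X := by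
  have hne : X.Nonempty := by rw [← card_pos]; omega
  obtain ⟨e, he⟩ := hne
  have hc : 0 < (n - 1).choose (k - 1) := Nat.choose_pos (by omega)
  set L := (X.powersetCard k).filter (fun S => ¬ (0 < ∑ i ∈ S, y i) ∧ e ∈ S) with hL
  set P := (X.powersetCard k).filter (fun S => (0 < ∑ i ∈ S, y i) ∧ e ∉ S) with hP
  have htot : pos1 y k X e + L.card = (n + k - 1).choose (k - 1) := by
    have h1 := card_super X {e} k (singleton_subset_iff.mpr he) (by rw [card_singleton]; omega)
    rw [card_singleton, hX] at h1
    rw [← h1, hL]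
    unfold pos1
    rw [← card_filter_add_card_filter_not (s := (X.powersetCard k).filter (fun U => {e} ⊆ U))
      (fun S => 0 < ∑ i ∈ S, y i), filter_filter, filter_filter]
    congr 2
    · apply filter_congr
      intro S _
      rw [singleton_subset_iff]
      tauto
    · apply filter_congr
      intro S _
      rw [singleton_subset_iff]
      tauto
  have hle : L.card * (n - 1).choose (k - 1) ≤ P.card * (n - 1).choose (k - 1) := by
    apply card_mul_le_card_mul (fun S S' => Disjoint S S')
    · intro S hS
      rw [hL, mem_filter, mem_powersetCard] at hS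
      obtain ⟨⟨hSX, hSc⟩, hS0, heS⟩ := hS
      have h1 : (X \ S).card = n := by rw [card_sdiff_of_subset hSX, hX, hSc]; omega
      have h2 : 0 < ∑ i ∈ X \ S, y i := by
        have := sum_sdiff (f := y) hSX
        linarith
      refine (ih (X \ S) y h1 h2).trans ?_
      unfold pos
      apply card_le_card
      intro S' hS'
      rw [mem_filter, mem_powersetCard] at hS'
      rw [bipartiteAbove, mem_filter, hP, mem_filter, mem_powersetCard]
      have hd : Disjoint S S' := by
        rw [Finset.disjoint_left]
        intro a ha hb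
        exact (mem_sdiff.mp (hS'.1.1 hb)).2 ha
      refine ⟨⟨⟨hS'.1.1.trans sdiff_subset, hS'.1.2⟩, hS'.2, ?_⟩, hd⟩
      exact fun h => (Finset.disjoint_left.mp hd) heS h
    · intro S' hS'
      rw [hP, mem_filter, mem_powersetCard] at hS'
      obtain ⟨⟨hSX, hSc⟩, hS0, heS⟩ := hS'
      have h1 := card_super (X \ S') {e} k
        (singleton_subset_iff.mpr (mem_sdiff.mpr ⟨he, heS⟩)) (by rw [card_singleton]; omega)
      rw [card_singleton, card_sdiff_of_subset hSX, hX, hSc] at h1
      have e1 : n + k - k - 1 = n - 1 := by omega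
      rw [e1] at h1
      rw [← h1]
      apply card_le_card
      intro S hS
      rw [bipartiteBelow, mem_filter, hL, mem_filter, mem_powersetCard] at hS
      rw [mem_filter, mem_powersetCard, singleton_subset_iff]
      refine ⟨⟨?_, hS.1.1.2⟩, hS.1.2.2⟩
      intro a ha
      rw [mem_sdiff]
      exact ⟨hS.1.1.1 ha, fun h => (Finset.disjoint_left.mp hS.2) ha h⟩
  have hle2 : L.card ≤ P.card := Nat.le_of_mul_le_mul_right hle hc
  have h3 := pos_split y k X e
  have h4 : pos0 y k X e = P.card := rfl
  omega

end Pool.Agent.KR4
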