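import Pool.Agent.KR4.Split
import Pool.Agent.KR4.Alpha

/-!
Weights of the `2 k`-sets: lower bounds and the exchange between `2 k`-sets of nonpositive sum and
`2 k`-sets of positive sum.
-/

namespace Pool.Agent.KR4

open Finset

variable {ι : Type*} [DecidableEq ι]

theorem sum_pos_erase (y : ι → ℝ) (k : ℕ) (T : Finset ι) :
    ∑ z ∈ T, pos y k (T.erase z) = (T.card - k) * pos y k T := by
  set P := (T.powersetCard k).filter (fun S => 0 < ∑ i ∈ S, y i) with hP
  have h1 : ∀ z ∈ T, pos y k (T.erase z) = (P.bipartiteAbove (fun z S => z ∉ S) z).card := by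
    intro z _
    unfold pos
    congr 1
    ext S
    unfold bipartiteAbove
    rw [hP, mem_filter, mem_filter, mem_filter, mem_powersetCard, mem_powersetCard]
    constructor
    · rintro ⟨⟨a, b⟩, c⟩
      exact ⟨⟨⟨a.trans (erase_subset _ _), b⟩, c⟩, fun h => (mem_erase.mp (a h)).1 rfl⟩
    · rintro ⟨⟨⟨a, b⟩, c⟩, d⟩
      exact ⟨⟨fun x hx => mem_erase.mpr ⟨fun h => d (h ▸ hx), a hx⟩, b⟩, c⟩
  rw [sum_congr rfl h1, sum_card_bipartiteAbove_eq_sum_card_bipartiteBelow]
  have h2 : ∀ S ∈ P, (T.bipartiteBelow (fun z S => z ∉ S) S).card = T.card - k := by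
    intro S hS
    rw [hP, mem_filter, mem_powersetCard] at hS
    have : T.bipartiteBelow (fun z S => z ∉ S) S = T \ S := by
      ext x
      unfold bipartiteBelow
      rw [mem_filter, mem_sdiff]
    rw [this, card_sdiff_of_subset hS.1.1, hS.1.2]
  rw [sum_congr rfl h2, sum_const, smul_eq_mul, mul_comm]
  rfl

/-- The elements of the complement of `U` which are larger than the sum of the complement. -/
noncomputable def Lam (X : Finset ι) (y : ι → ℝ) (U : Finset ι) : Finset ι :=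
  (X \ U).filter (fun z => ∑ i ∈ X \ U, y i ≤ y z)

/-- The elements of `U` which are larger than the sum of the complement. -/
noncomputable def Big (X : Finset ι) (y : ι → ℝ) (U : Finset ι) : Finset ι :=
  U.filter (fun z => ∑ i ∈ X \ U, y i ≤ y z)

/-- The elements of `S` which are smaller than `σ`. -/
noncomputable def Hv (y : ι → ℝ) (σ : ℝ) (S : Finset ι) : Finset ι :=
  S.filter (fun z => y z < σ)

theorem mem_Hv {y : ι → ℝ} {σ : ℝ} {S : Finset ι} {z : ι} : z ∈ Hv y σ S ↔ z ∈ S ∧ y z < σ := by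
  unfold Hv
  rw [mem_filter]

theorem mem_Lam {X : Finset ι} {y : ι → ℝ} {U : Finset ι} {z : ι} :
    z ∈ Lam X y U ↔ (z ∈ X ∧ z ∉ U) ∧ ∑ i ∈ X \ U, y i ≤ y z := by
  unfold Lam
  rw [mem_filter, mem_sdiff]

theorem mem_Big {X : Finset ι} {y : ι → ℝ} {U : Finset ι} {z : ι} :
    z ∈ Big X y U ↔ z ∈ U ∧ ∑ i ∈ X \ U, y i ≤ y z := by
  unfold Big
  rw [mem_filter]

/-- Lower bound for the weight of a set. -/
theorem Gam_ge (X : Finset ι) (y : ι → ℝ) (k : ℕ) (U : Finset ι) (hUX : U ⊆ X)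
    (hU : U.card = 2 * k) (hX : X.card = 4 * k + 1) :
    2 * (2 * (k : ℝ) + 1) * (pos y k U : ℝ) -
      ∑ z ∈ Lam X y U, (bad y k ((X \ U).erase z) : ℝ) ≤ Gam X y k U := by
  have hT : (X \ U).card = 2 * k + 1 := by rw [card_sdiff_of_subset hUX]; omega
  have h1 := sum_pos_erase y k (X \ U)
  have e1 : (X \ U).card - k = k + 1 := by omega
  rw [e1] at h1
  have h2 : ∀ z ∈ X \ U, ((2 * k).choose k : ℝ) - (bad y k ((X \ U).erase z) : ℝ) ≤
      2 * (pos y k ((X \ U).erase z) : ℝ) := by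
    intro z hz
    have := bad_add_pos y k ((X \ U).erase z) (by rw [card_erase_of_mem hz, hT]; omega)
    have h3 : (((2 * k).choose k : ℕ) : ℝ) ≤ (bad y k ((X \ U).erase z) : ℝ) +
        2 * (pos y k ((X \ U).erase z) : ℝ) := by exact_mod_cast this
    linarith
  have h3 := sum_le_sum h2
  rw [← mul_sum, sum_sub_distrib, sum_const, hT, nsmul_eq_mul] at h3
  have h4 : ∑ z ∈ X \ U, (bad y k ((X \ U).erase z) : ℝ) =
      ∑ z ∈ Lam X y U, (bad y k ((X \ U).erase z) : ℝ) := by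
    symm
    apply sum_subset (filter_subset _ _)
    intro z hz hzL
    have h5 : 0 < ∑ i ∈ (X \ U).erase z, y i := by
      have h6 := add_sum_erase (X \ U) y hz
      have h7 : ¬ (∑ i ∈ X \ U, y i ≤ y z) := by
        intro h
        exact hzL (mem_Lam.mpr ⟨mem_sdiff.mp hz, h⟩)
      push_neg at h7
      linarith
    rw [bad_zero y k _ h5]
    simp
  rw [h4] at h3
  have h5 : (∑ z ∈ X \ U, (pos y k ((X \ U).erase z) : ℝ)) = ((k : ℝ) + 1) * (pos y k (X \ U)) := by
    exact_mod_cast h1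
  rw [h5] at h3
  push_cast at h3
  unfold Gam
  linarith

theorem Gam_good (X : Finset ι) (y : ι → ℝ) (k : ℕ) (U : Finset ι)
    (hU : U.card = 2 * k) (hpos : 0 < ∑ i ∈ U, y i) :
    2 * ((k : ℝ) + 1) * (pos y k (X \ U) : ℝ) ≤ Gam X y k U := by
  have h1 := bad_add_pos y k U hU
  rw [bad_zero y k U hpos, zero_add] at h1
  have h2 : (((2 * k).choose k : ℕ) : ℝ) ≤ 2 * (pos y k U : ℝ) := by exact_mod_cast h1
  unfold Gam
  have hk : (0 : ℝ) ≤ k := Nat.cast_nonneg k
  nlinarith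

/-- Sets of nonpositive sum with few large elements. -/
noncomputable def Poor (X : Finset ι) (y : ι → ℝ) (k : ℕ) (e : ι) : Finset (Finset ι) :=
  (UU X k e).filter (fun U => ∑ i ∈ U, y i ≤ 0 ∧ (Big X y U).card ≤ 4)

/-- Sets of positive sum. -/
noncomputable def Good (X : Finset ι) (y : ι → ℝ) (k : ℕ) (e : ι) : Finset (Finset ι) :=
  (UU X k e).filter (fun U => 0 < ∑ i ∈ U, y i)

theorem comp (X : Finset ι) (y : ι → ℝ) (k : ℕ) (e : ι) (he : e ∈ X)
    (hmax : ∀ x ∈ X, y x ≤ y e) {σ : ℝ} (hσ : ∑ i ∈ X, y i = σ) :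
    ∑ U ∈ Poor X y k e, ∑ z ∈ Lam X y U,
      ((Hv y σ U).card : ℝ) * ((pos y k ((X \ U).erase z) : ℝ) /
        (((Hv y σ (X \ U)).card : ℝ) + 1)) ≤
    4 * ∑ U ∈ Good X y k e, (pos y k (X \ U) : ℝ) := by
  classical
  set T1 : Finset (Finset ι × ι × ι) := (Poor X y k e ×ˢ (X ×ˢ X)).filter
    (fun t => t.2.1 ∈ Lam X y t.1 ∧ t.2.2 ∈ Hv y σ t.1) with hT1
  set T3 : Finset (Finset ι × ι) := (Good X y k e ×ˢ X).filter
    (fun q => q.2 ∈ Hv y σ (X \ q.1)) with hT3
  set g : Finset ι × ι → ℝ := fun q => (pos y k ((X \ q.1).erase q.2) : ℝ) /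
    ((Hv y σ (X \ q.1)).card : ℝ) with hg
  set ψ : Finset ι × ι × ι → Finset ι × ι := fun t => (insert t.2.1 (t.1.erase t.2.2), t.2.2)
    with hψ
  -- facts about the exchange
  have hex : ∀ t ∈ T1, ((t.1 ⊆ X ∧ t.1.card = 2 * k ∧ e ∈ t.1) ∧ (∑ i ∈ t.1, y i ≤ 0) ∧
      (Big X y t.1).card ≤ 4) ∧ ((t.2.1 ∈ X ∧ t.2.1 ∉ t.1) ∧ ∑ i ∈ X \ t.1, y i ≤ y t.2.1) ∧
      (t.2.2 ∈ t.1 ∧ y t.2.2 < σ) := by
    rintro ⟨U, z, v⟩ ht
    rw [hT1, mem_filter, mem_product] at ht
    simp only at ht ⊢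
    obtain ⟨⟨hU, _⟩, hz, hv⟩ := ht
    unfold Poor at hU
    rw [mem_filter, mem_UU] at hU
    exact ⟨⟨⟨hU.1.1.1, hU.1.1.2, hU.1.2⟩, hU.2.1, hU.2.2⟩, mem_Lam.mp hz, mem_Hv.mp hv⟩
  have hsumT : ∀ U : Finset ι, U ⊆ X → ∑ i ∈ X \ U, y i = σ - ∑ i ∈ U, y i := by
    intro U hU
    have := sum_sdiff (f := y) hU
    linarith
  have hcompl : ∀ t ∈ T1, (X \ (ψ t).1).erase (ψ t).2 = (X \ t.1).erase t.2.1 := by
    rintro ⟨U, z, v⟩ ht
    obtain ⟨⟨⟨hUX, hUc, heU⟩, _⟩, ⟨⟨hzX, hzU⟩, hz⟩, ⟨hvU, hv⟩⟩ := hex _ ht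
    simp only [hψ] at *
    ext x
    simp only [mem_erase, mem_sdiff, mem_insert, not_or, not_and]
    constructor
    · rintro ⟨h1, h2, h3, h4⟩
      exact ⟨h3, h2, fun h => h4 h1 h⟩
    · rintro ⟨h1, h2, h3⟩
      exact ⟨fun h => h3 (h ▸ hvU), h2, h1, fun _ => h3⟩
  have hHv : ∀ t ∈ T1, (Hv y σ (X \ (ψ t).1)).card = (Hv y σ (X \ t.1)).card + 1 := by
    rintro ⟨U, z, v⟩ ht
    obtain ⟨⟨⟨hUX, hUc, heU⟩, hU0, _⟩, ⟨⟨hzX, hzU⟩, hz⟩, ⟨hvU, hv⟩⟩ := hex _ ht
    simp only [hψ] at *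
    have h1 : Hv y σ (X \ insert z (U.erase v)) = insert v (Hv y σ (X \ U)) := by
      ext x
      simp only [mem_Hv, mem_erase, mem_sdiff, mem_insert, not_or, not_and]
      constructor
      · rintro ⟨⟨h1, h2, h3⟩, h4⟩
        by_cases hx : x = v
        · exact Or.inl hx
        · exact Or.inr ⟨⟨h1, h3 hx⟩, h4⟩
      · rintro (rfl | ⟨⟨h1, h2⟩, h3⟩)
        · exact ⟨⟨hUX hvU, fun h => hzU (h ▸ hvU), fun h => absurd rfl h⟩, hv⟩
        · refine ⟨⟨h1, ?_, fun _ => h2⟩, h3⟩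
          rintro rfl
          rw [hsumT U hUX] at hz
          linarith
    rw [h1, card_insert_of_notMem]
    rw [mem_Hv, mem_sdiff]
    exact fun h => h.1.2 hvU
  have hsumψ : ∀ t ∈ T1, ∑ i ∈ (ψ t).1, y i = ∑ i ∈ t.1, y i - y t.2.2 + y t.2.1 := by
    rintro ⟨U, z, v⟩ ht
    obtain ⟨⟨⟨hUX, hUc, heU⟩, hU0, _⟩, ⟨⟨hzX, hzU⟩, hz⟩, ⟨hvU, hv⟩⟩ := hex _ ht
    simp only [hψ] at *
    rw [sum_insert (fun h => hzU (mem_of_mem_erase h))]
    have := add_sum_erase U y hvU
    linarith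
  have hmaps : ∀ t ∈ T1, ψ t ∈ T3 := by
    rintro ⟨U, z, v⟩ ht
    have hs := hsumψ _ ht
    obtain ⟨⟨⟨hUX, hUc, heU⟩, hU0, _⟩, ⟨⟨hzX, hzU⟩, hz⟩, ⟨hvU, hv⟩⟩ := hex _ ht
    simp only [hψ] at *
    rw [hT3, mem_filter, mem_product]
    simp only
    rw [hsumT U hUX] at hz
    have hzlt : σ ≤ y z := by linarith
    have hne : v ≠ e := by
      rintro rfl
      have := hmax z hzX
      linarith
    refine ⟨⟨?_, hUX hvU⟩, ?_⟩
    · unfold Good
      rw [mem_filter, mem_UU]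
      refine ⟨⟨⟨?_, ?_⟩, ?_⟩, ?_⟩
      · exact insert_subset hzX ((erase_subset _ _).trans hUX)
      · rw [card_insert_of_notMem (fun h => hzU (mem_of_mem_erase h)),
          card_erase_of_mem hvU, hUc]
        have : 0 < U.card := card_pos.mpr ⟨e, heU⟩
        omega
      · exact mem_insert_of_mem (mem_erase.mpr ⟨fun h => hne h.symm, heU⟩)
      · rw [hs]
        linarith
    · rw [mem_Hv, mem_sdiff, mem_insert, mem_erase]
      refine ⟨⟨hUX hvU, ?_⟩, hv⟩
      rintro (h | h)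
      · exact hzU (h ▸ hvU)
      · exact h.1 rfl
  -- the left side as a sum over triples
  have hL : ∑ U ∈ Poor X y k e, ∑ z ∈ Lam X y U,
      ((Hv y σ U).card : ℝ) * ((pos y k ((X \ U).erase z) : ℝ) /
        (((Hv y σ (X \ U)).card : ℝ) + 1)) = ∑ t ∈ T1, g (ψ t) := by
    have h1 : ∑ t ∈ T1, g (ψ t) = ∑ t ∈ T1, ((pos y k ((X \ t.1).erase t.2.1) : ℝ) /
        (((Hv y σ (X \ t.1)).card : ℝ) + 1)) := by
      apply sum_congr rfl
      intro t ht
      rw [hg]
      simp only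
      rw [hcompl t ht, hHv t ht]
      push_cast
      rfl
    rw [h1, hT1, sum_filter, sum_product]
    apply sum_congr rfl
    intro U hU
    have hUX : U ⊆ X := by
      unfold Poor at hU
      rw [mem_filter, mem_UU] at hU
      exact hU.1.1.1
    simp only
    rw [← sum_filter, filter_product, sum_product]
    have e1 : X.filter (fun z => z ∈ Lam X y U) = Lam X y U := by
      ext z
      rw [mem_filter]
      exact ⟨fun h => h.2, fun h => ⟨(mem_Lam.mp h).1.1, h⟩⟩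
    have e2 : X.filter (fun v => v ∈ Hv y σ U) = Hv y σ U := by
      ext z
      rw [mem_filter]
      exact ⟨fun h => h.2, fun h => ⟨hUX (mem_Hv.mp h).1, h⟩⟩
    rw [e1, e2]
    apply sum_congr rfl
    intro z _
    simp only
    rw [sum_const, nsmul_eq_mul]
  rw [hL, ← sum_fiberwise_of_maps_to hmaps]
  have hfib : ∀ q ∈ T3, ∑ t ∈ T1.filter (fun t => ψ t = q), g (ψ t) ≤ 4 * g q := by
    intro q _
    have h1 : ∑ t ∈ T1.filter (fun t => ψ t = q), g (ψ t) =
        ((T1.filter (fun t => ψ t = q)).card : ℝ) * g q := by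
      rw [← nsmul_eq_mul, ← sum_const]
      apply sum_congr rfl
      intro t ht
      rw [(mem_filter.mp ht).2]
    rw [h1]
    have hg0 : 0 ≤ g q := by
      rw [hg]
      positivity
    apply mul_le_mul_of_nonneg_right _ hg0
    set F := T1.filter (fun t => ψ t = q) with hF
    have hinj : Set.InjOn (fun t : Finset ι × ι × ι => t.2.1) (F : Set (Finset ι × ι × ι)) := by
      rintro ⟨U, z, v⟩ ht ⟨U', z', v'⟩ ht' h
      rw [mem_coe, hF, mem_filter] at ht ht'
      simp only at h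
      subst h
      have hq := ht.2.trans ht'.2.symm
      simp only [hψ, Prod.mk.injEq] at hq
      obtain ⟨hq1, rfl⟩ := hq
      obtain ⟨_, ⟨⟨_, hzU⟩, _⟩, ⟨hvU, _⟩⟩ := hex _ ht.1
      obtain ⟨_, ⟨⟨_, hzU'⟩, _⟩, ⟨hvU', _⟩⟩ := hex _ ht'.1
      simp only at hzU hvU hzU' hvU'
      have h2 : U.erase v = U'.erase v := by
        have := congrArg (fun S => S.erase z) hq1
        rwa [erase_insert (fun h => hzU (mem_of_mem_erase h)),
          erase_insert (fun h => hzU' (mem_of_mem_erase h))] at this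
      have h3 : U = U' := by
        rw [← insert_erase hvU, ← insert_erase hvU', h2]
      rw [h3]
    rcases F.eq_empty_or_nonempty with hFe | hFne
    · rw [hFe]; simp
    · obtain ⟨t0, ht0, hmin⟩ := exists_min_image F (fun t => y t.2.1) hFne
      have ht0' := ht0
      rw [hF, mem_filter] at ht0'
      obtain ⟨⟨⟨hUX, hUc, heU⟩, hU0, hbig⟩, ⟨⟨hzX, hzU⟩, hz⟩, ⟨hvU, hv⟩⟩ := hex _ ht0'.1
      have hsub : (F.image (fun t : Finset ι × ι × ι => t.2.1)).card ≤ 4 := by
        have h2 : insert e ((F.image (fun t : Finset ι × ι × ι => t.2.1)).erase t0.2.1) ⊆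
            Big X y t0.1 := by
          intro x hx
          rw [mem_insert] at hx
          rcases hx with rfl | hx
          · rw [mem_Big]
            exact ⟨heU, hz.trans (hmax _ hzX)⟩
          · rw [mem_erase, mem_image] at hx
            obtain ⟨hx1, t, ht, rfl⟩ := hx
            rw [mem_Big]
            refine ⟨?_, hz.trans (hmin t ht)⟩
            have ht' := ht
            rw [hF, mem_filter] at ht'
            have hq := ht'.2.trans ht0'.2.symm
            simp only [hψ, Prod.mk.injEq] at hq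
            have h3 : t.2.1 ∈ insert t0.2.1 (t0.1.erase t0.2.2) := by
              rw [← hq.1]
              exact mem_insert_self _ _
            rw [mem_insert] at h3
            rcases h3 with h3 | h3
            · exact absurd h3 hx1
            · exact mem_of_mem_erase h3
        have h3 := card_le_card h2
        have h4 : e ∉ (F.image (fun t : Finset ι × ι × ι => t.2.1)).erase t0.2.1 := by
          intro h
          rw [mem_erase, mem_image] at h
          obtain ⟨_, t, ht, hte⟩ := h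
          have ht' := ht
          rw [hF, mem_filter] at ht'
          obtain ⟨⟨⟨_, _, heU'⟩, _⟩, ⟨⟨_, hzU'⟩, _⟩, _⟩ := hex _ ht'.1
          rw [hte] at hzU'
          exact hzU' heU'
        rw [card_insert_of_notMem h4, card_erase_of_mem (mem_image_of_mem _ ht0)] at h3
        have h5 : 0 < (F.image (fun t : Finset ι × ι × ι => t.2.1)).card :=
          card_pos.mpr ⟨_, mem_image_of_mem _ ht0⟩
        omega
      rw [card_image_of_injOn hinj] at hsub
      exact_mod_cast hsub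
  refine (sum_le_sum hfib).trans ?_
  rw [← mul_sum]
  apply mul_le_mul_of_nonneg_left _ (by norm_num)
  rw [hT3, sum_filter, sum_product]
  apply sum_le_sum
  intro U hU
  simp only
  rw [← sum_filter]
  have e1 : X.filter (fun v => v ∈ Hv y σ (X \ U)) = Hv y σ (X \ U) := by
    ext z
    rw [mem_filter]
    exact ⟨fun h => h.2, fun h => ⟨(mem_sdiff.mp (mem_Hv.mp h).1).1, h⟩⟩
  rw [e1, hg]
  simp only
  rw [← sum_div]
  rcases Nat.eq_zero_or_pos (Hv y σ (X \ U)).card with h0 | h0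
  · rw [h0]
    simp
  · rw [div_le_iff₀ (by exact_mod_cast h0)]
    calc _ ≤ ∑ _v ∈ Hv y σ (X \ U), (pos y k (X \ U) : ℝ) := by
          apply sum_le_sum
          intro v _
          exact_mod_cast pos_mono y k (erase_subset _ _)
      _ = _ := by rw [sum_const, nsmul_eq_mul, mul_comm]

end Pool.Agent.KR4
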