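import Pool.Agent.KR4.AlphaNum
import Pool.Agent.KR4.Comp

/-!
Few heavy elements, and the combined bound.
-/

namespace Pool.Agent.KR4

open Finset

variable {ι : Type*} [DecidableEq ι]

theorem light_pos (y : ι → ℝ) {σ : ℝ} (hσ : 0 < σ) (A : Finset ι) (hA : A.Nonempty)
    (h : ∀ x ∈ A, σ ≤ y x) : 0 < ∑ i ∈ A, y i := by
  apply sum_pos _ hA
  intro x hx
  exact lt_of_lt_of_le hσ (h x hx)

theorem bad_has (y : ι → ℝ) (k : ℕ) (hk : 0 < k) (Z : Finset ι) {σ : ℝ} (hσ : 0 < σ)
    (hZ : Z.card = 2 * k) (A : Finset ι)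
    (hA : A ∈ (Z.powersetCard k).filter (fun A => ∑ i ∈ A, y i ≤ 0 ∧ ∑ i ∈ Z \ A, y i ≤ 0)) :
    (∃ x ∈ A, x ∈ Hv y σ Z) ∧ (∃ x ∈ Z \ A, x ∈ Hv y σ Z) := by
  rw [mem_filter, mem_powersetCard] at hA
  obtain ⟨⟨hAZ, hAc⟩, h1, h2⟩ := hA
  constructor
  · by_contra hcon
    push_neg at hcon
    have : 0 < ∑ i ∈ A, y i := by
      apply light_pos y hσ
      · rw [← card_pos]; omega
      · intro x hx
        have h3 := hcon x hx
        rw [mem_Hv] at h3
        by_contra h4
        push_neg at h4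
        exact h3 ⟨hAZ hx, h4⟩
    linarith
  · by_contra hcon
    push_neg at hcon
    have : 0 < ∑ i ∈ Z \ A, y i := by
      apply light_pos y hσ
      · rw [← card_pos, card_sdiff_of_subset hAZ]; omega
      · intro x hx
        have h3 := hcon x hx
        rw [mem_Hv] at h3
        by_contra h4
        push_neg at h4
        exact h3 ⟨(mem_sdiff.mp hx).1, h4⟩
    linarith

theorem bad_few (y : ι → ℝ) (k : ℕ) (hk : 0 < k) (Z : Finset ι) {σ : ℝ} (hσ : 0 < σ)
    (hZ : Z.card = 2 * k) (hH : (Hv y σ Z).card ≤ 1) : bad y k Z = 0 := by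
  unfold bad
  rw [card_eq_zero]
  by_contra hne
  obtain ⟨A, hA⟩ := nonempty_iff_ne_empty.mpr hne
  obtain ⟨⟨x, hx, hxH⟩, ⟨x', hx', hxH'⟩⟩ := bad_has y k hk Z hσ hZ A hA
  have := card_le_one.mp hH x hxH x' hxH'
  rw [← this] at hx'
  exact (mem_sdiff.mp hx').2 hx

theorem bad_two (y : ι → ℝ) (k : ℕ) (hk : 0 < k) (Z : Finset ι) {σ : ℝ} (hσ : 0 < σ)
    (hZ : Z.card = 2 * k) (hH : (Hv y σ Z).card = 2) : (bad y k Z : ℝ) ≤ DD k 1 := by
  obtain ⟨a, b, hab, hab2⟩ := card_eq_two.mp hH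
  have haH : a ∈ Hv y σ Z := by rw [hab2]; simp
  have hbH : b ∈ Hv y σ Z := by rw [hab2]; simp
  have hP : PairSys Z {a} (fun _ => b) := by
    refine ⟨?_, ?_, ?_, ?_⟩
    · intro x hx
      rw [mem_singleton] at hx
      rw [hx]
      exact (mem_Hv.mp haH).1
    · intro x _
      exact (mem_Hv.mp hbH).1
    · intro x hx x' hx' _
      rw [mem_singleton] at hx hx'
      rw [hx, hx']
    · intro x _ x' hx'
      rw [mem_singleton] at hx'
      rw [hx']
      exact hab.symm
  have h1 := card_spl (fun _ => b) {a} Z k hP (by rw [card_singleton]; omega)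
  rw [card_singleton, hZ] at h1
  have h2 : bad y k Z ≤ (spl Z k (fun _ => b) {a}).card := by
    unfold bad
    apply card_le_card
    intro A hA
    obtain ⟨⟨x, hx, hxH⟩, ⟨x', hx', hxH'⟩⟩ := bad_has y k hk Z hσ hZ A hA
    rw [mem_filter, mem_powersetCard] at hA
    rw [mem_spl]
    refine ⟨hA.1, ?_⟩
    intro z hz
    rw [mem_singleton] at hz
    subst hz
    rw [hab2, mem_insert, mem_singleton] at hxH hxH'
    have hx2 := (mem_sdiff.mp hx').2
    rcases hxH with rfl | rfl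
    · rcases hxH' with rfl | rfl
      · exact absurd hx hx2
      · exact fun h => hx2 (h.mp hx)
    · rcases hxH' with rfl | rfl
      · exact fun h => hx2 (h.mpr hx)
      · exact absurd hx hx2
  have h3 : DD k 1 = (((2 ^ 1 * (2 * k - 2 * 1).choose (k - 1) : ℕ)) : ℝ) := by
    unfold DD
    have : 2 * (k - 1) = 2 * k - 2 * 1 := by omega
    rw [this]
    push_cast
    ring
  rw [h3, ← h1]
  exact_mod_cast h2

/-- The bounds for `m` pairs. -/
noncomputable def AA (k : ℕ) : ℕ → ℝ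
  | 0 => 1
  | 1 => 3 / 4
  | 2 => 5 / 8
  | 3 => 35 / 64
  | 4 => if k ≤ 4 then 35 / 64 else 63 / 128
  | _ => if k ≤ 4 then 35 / 64 else 231 / 512

theorem AA_anti (k : ℕ) : Antitone (AA k) := by
  apply antitone_nat_of_succ_le
  intro n
  match n with
  | 0 => simp [AA]; norm_num
  | 1 => simp [AA]; norm_num
  | 2 => simp [AA]; norm_num
  | 3 => simp only [AA]; split_ifs <;> norm_num
  | 4 => simp only [AA]; split_ifs <;> norm_num
  | (m + 5) => simp [AA]

/-- The combined bound, as a function of the numbers of heavy and of large elements. -/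
noncomputable def gg (k h m : ℕ) : ℝ :=
  if h ≤ 1 then 0 else if h = 2 then (k : ℝ) / (2 * k - 1) else AA k (min m h)

theorem gg_anti (k h : ℕ) : Antitone (gg k h) := by
  intro m m' hm
  unfold gg
  split_ifs
  · exact le_rfl
  · exact le_rfl
  · exact AA_anti k (min_le_min_right h hm)

theorem DD_one (k : ℕ) (hk : 0 < k) : DD k 1 = (k : ℝ) / (2 * k - 1) * DD k 0 := by
  have h1 := (DD_rel k 1 (by omega)).1 (by omega)
  have h2 : (1 : ℝ) ≤ k := by exact_mod_cast hk
  have h3 : (2 * (k : ℝ) - 1) ≠ 0 := by linarith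
  rw [div_mul_eq_mul_div, eq_div_iff h3, h1, mul_comm]

theorem bad_AA (y : ι → ℝ) (k : ℕ) (hk : 3 ≤ k) (Z : Finset ι) {σ t : ℝ}
    (hZc : Z.card = 2 * k) (hσt : σ ≤ t) (hZ : σ - t ≤ ∑ i ∈ Z, y i) (m : ℕ)
    (hm : m ≤ (Z.filter (fun x => t ≤ y x)).card) (hV : m ≤ (Hv y σ Z).card) :
    (bad y k Z : ℝ) ≤ AA k m * DD k 0 := by
  have h0 := DD_nonneg k 0
  have key : ∀ p, p ≤ 5 → p ≤ m → p ≤ k ∧ (bad y k Z : ℝ) ≤
      ∑ i ∈ range (p + 1), cc i * ((p.choose i : ℕ) : ℝ) * DD k i := by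
    intro p hp hpm
    exact bad_le y k Z p hp hZc hσt hZ (hpm.trans hm) (hpm.trans hV)
  have k0 : (bad y k Z : ℝ) ≤ DD k 0 := by
    have := (key 0 (by omega) (by omega)).2
    simpa [cc] using this
  have k1 : 1 ≤ m → (bad y k Z : ℝ) ≤ 3 / 4 * DD k 0 := by
    intro h
    have h1 := (key 1 (by omega) h).2
    rw [num1] at h1
    have h2 := (DD_rel k 1 (by omega)).1 (by omega)
    have h3 : (3 : ℝ) ≤ k := by exact_mod_cast hk
    have h4 : DD k 0 / 2 ≤ DD k 1 := by
      by_contra hcon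
      push_neg at hcon
      nlinarith
    linarith
  have k2 : 2 ≤ m → (bad y k Z : ℝ) ≤ 5 / 8 * DD k 0 := by
    intro h
    exact (key 2 (by omega) h).2.trans (num2 k hk)
  have k3 : 3 ≤ m → (bad y k Z : ℝ) ≤ 35 / 64 * DD k 0 := by
    intro h
    exact (key 3 (by omega) h).2.trans (num3 k hk)
  match m with
  | 0 => simpa [AA] using k0
  | 1 => simpa [AA] using k1 le_rfl
  | 2 => simpa [AA] using k2 le_rfl
  | 3 => simpa [AA] using k3 le_rfl
  | 4 =>
    simp only [AA]
    split_ifs with h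
    · exact k3 (by omega)
    · exact (key 4 (by omega) le_rfl).2.trans (num4 k (by omega))
  | (m + 5) =>
    simp only [AA]
    split_ifs with h
    · exact k3 (by omega)
    · exact (key 5 (by omega) (by omega)).2.trans (num5 k (by omega))

/-- The combined bound. -/
theorem bad_gg (y : ι → ℝ) (k : ℕ) (hk : 3 ≤ k) (Z : Finset ι) {σ t : ℝ} (hσ : 0 < σ)
    (hZc : Z.card = 2 * k) (hσt : σ ≤ t) (hZ : σ - t ≤ ∑ i ∈ Z, y i) (m : ℕ)
    (hm : m ≤ (Z.filter (fun x => t ≤ y x)).card) :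
    (bad y k Z : ℝ) ≤ gg k (Hv y σ Z).card m * DD k 0 := by
  unfold gg
  split_ifs with h1 h2
  · rw [bad_few y k (by omega) Z hσ hZc h1]
    simp
  · rw [← DD_one k (by omega)]
    exact bad_two y k (by omega) Z hσ hZc h2
  · exact bad_AA y k hk Z hZc hσt hZ _ ((min_le_left _ _).trans hm) (min_le_right _ _)

/-- The exact bound for one pair. -/
theorem bad_one (y : ι → ℝ) (k : ℕ) (Z : Finset ι) {σ t : ℝ}
    (hZc : Z.card = 2 * k) (hσt : σ ≤ t) (hZ : σ - t ≤ ∑ i ∈ Z, y i)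
    (hm : 1 ≤ (Z.filter (fun x => t ≤ y x)).card) (hV : 1 ≤ (Hv y σ Z).card) :
    (bad y k Z : ℝ) ≤ DD k 0 - DD k 1 / 2 := by
  have := (bad_le y k Z 1 (by omega) hZc hσt hZ hm hV).2
  rwa [num1] at this

/-- Sums over ranks. -/
theorem rank_sum (y : ι → ℝ) (g : ℕ → ℝ) (hg : Antitone g) : ∀ (n : ℕ) (S : Finset ι),
    S.card = n →
    ∑ z ∈ S, g (((S.erase z).filter (fun x => y z ≤ y x)).card) ≤ ∑ j ∈ range n, g j := by
  intro n
  induction n with
  | zero =>
    intro S hS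
    rw [card_eq_zero] at hS
    rw [hS]
    simp
  | succ n ih =>
    intro S hS
    have hne : S.Nonempty := by rw [← card_pos]; omega
    obtain ⟨z0, hz0, hmin⟩ := exists_min_image S y hne
    rw [← add_sum_erase S _ hz0, sum_range_succ, add_comm]
    apply add_le_add
    · refine le_trans ?_ (ih (S.erase z0) (by rw [card_erase_of_mem hz0]; omega))
      apply sum_le_sum
      intro z _
      apply hg
      apply card_le_card
      apply filter_subset_filter
      exact erase_subset_erase z (erase_subset _ _)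
    · apply le_of_eq
      congr 1
      rw [filter_true_of_mem (fun x hx => hmin x (mem_of_mem_erase hx)), card_erase_of_mem hz0]
      omega

end Pool.Agent.KR4
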