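import Pool.Agent.KR4.NumTwo

/-!
At least eight elements smaller than the total sum.
-/

namespace Pool.Agent.KR4

open Finset

variable {ι : Type*} [DecidableEq ι]

theorem DD_zero (k : ℕ) : DD k 0 = (((2 * k).choose k : ℕ) : ℝ) := by
  unfold DD
  simp

section one

variable {X : Finset ι} {y : ι → ℝ} {k : ℕ} {e : ι} {σ : ℝ} {U : Finset ι}

theorem sum_compl (hσ : ∑ i ∈ X, y i = σ) (hUX : U ⊆ X) :
    ∑ i ∈ X \ U, y i = σ - ∑ i ∈ U, y i := by
  have := sum_sdiff (f := y) hUX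
  linarith

theorem card_Lam_add (hσ : ∑ i ∈ X, y i = σ) (hUX : U ⊆ X) (hU0 : ∑ i ∈ U, y i ≤ 0)
    (hU : U.card = 2 * k) (hX : X.card = 4 * k + 1) :
    (Lam X y U).card + (Hv y σ (X \ U)).card ≤ 2 * k + 1 := by
  have h1 := sum_compl hσ hUX
  have hd : Disjoint (Lam X y U) (Hv y σ (X \ U)) := by
    rw [Finset.disjoint_left]
    intro z hz hz2
    have := (mem_Lam.mp hz).2
    have := (mem_Hv.mp hz2).2
    linarith
  rw [← card_union_of_disjoint hd]
  have h2 : Lam X y U ∪ Hv y σ (X \ U) ⊆ X \ U := by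
    apply union_subset (filter_subset _ _) (filter_subset _ _)
  have h3 := card_le_card h2
  rw [card_sdiff_of_subset hUX] at h3
  omega

theorem card_Big_add (hσ : ∑ i ∈ X, y i = σ) (hUX : U ⊆ X) (hU0 : ∑ i ∈ U, y i ≤ 0)
    (hU : U.card = 2 * k) : (Big X y U).card + (Hv y σ U).card ≤ 2 * k := by
  have h1 := sum_compl hσ hUX
  have hd : Disjoint (Big X y U) (Hv y σ U) := by
    rw [Finset.disjoint_left]
    intro z hz hz2
    have := (mem_Big.mp hz).2
    have := (mem_Hv.mp hz2).2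
    linarith
  rw [← card_union_of_disjoint hd, ← hU]
  exact card_le_card (union_subset (filter_subset _ _) (filter_subset _ _))

theorem card_Hv_add (hUX : U ⊆ X) :
    (Hv y σ U).card + (Hv y σ (X \ U)).card = (Hv y σ X).card := by
  have hd : Disjoint (Hv y σ U) (Hv y σ (X \ U)) := by
    rw [Finset.disjoint_left]
    intro z hz hz2
    exact (mem_sdiff.mp (mem_Hv.mp hz2).1).2 (mem_Hv.mp hz).1
  rw [← card_union_of_disjoint hd]
  congr 1
  ext z
  rw [mem_union, mem_Hv, mem_Hv, mem_Hv, mem_sdiff]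
  constructor
  · rintro (⟨h1, h2⟩ | ⟨⟨h1, _⟩, h2⟩)
    · exact ⟨hUX h1, h2⟩
    · exact ⟨h1, h2⟩
  · rintro ⟨h1, h2⟩
    by_cases h3 : z ∈ U
    · exact Or.inl ⟨h3, h2⟩
    · exact Or.inr ⟨⟨h1, h3⟩, h2⟩

theorem sum_bad_le (hk : 3 ≤ k) (hσ : ∑ i ∈ X, y i = σ) (hσ0 : 0 < σ) (hUX : U ⊆ X)
    (hU0 : ∑ i ∈ U, y i ≤ 0) (hU : U.card = 2 * k) (hX : X.card = 4 * k + 1) :
    ∑ z ∈ Lam X y U, (bad y k ((X \ U).erase z) : ℝ) ≤
      DD k 0 * ∑ j ∈ range (Lam X y U).card, gg k (Hv y σ (X \ U)).card j := by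
  have hT := sum_compl hσ hUX
  have h1 : ∀ z ∈ Lam X y U, (bad y k ((X \ U).erase z) : ℝ) ≤
      DD k 0 * gg k (Hv y σ (X \ U)).card
        ((((Lam X y U).erase z).filter (fun x => y z ≤ y x)).card) := by
    intro z hz
    obtain ⟨⟨hzX, hzU⟩, hzy⟩ := mem_Lam.mp hz
    have hzT : z ∈ X \ U := mem_sdiff.mpr ⟨hzX, hzU⟩
    have hc : ((X \ U).erase z).card = 2 * k := by
      rw [card_erase_of_mem hzT, card_sdiff_of_subset hUX]
      omega
    have hHv : Hv y σ ((X \ U).erase z) = Hv y σ (X \ U) := by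
      ext x
      rw [mem_Hv, mem_Hv, mem_erase]
      constructor
      · rintro ⟨⟨_, h1⟩, h2⟩
        exact ⟨h1, h2⟩
      · rintro ⟨h1, h2⟩
        refine ⟨⟨?_, h1⟩, h2⟩
        rintro rfl
        linarith
    have hs : ∑ i ∈ (X \ U).erase z, y i = ∑ i ∈ X \ U, y i - y z := by
      have := add_sum_erase (X \ U) y hzT
      linarith
    have h2 := bad_gg y k hk ((X \ U).erase z) (σ := σ) (t := y z) hσ0 hc (by linarith)
      (by rw [hs]; linarith) ((((Lam X y U).erase z).filter (fun x => y z ≤ y x)).card)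
      (by
        apply card_le_card
        apply filter_subset_filter
        exact erase_subset_erase z (filter_subset _ _))
    rw [hHv] at h2
    linarith
  refine (sum_le_sum h1).trans ?_
  rw [← mul_sum]
  apply mul_le_mul_of_nonneg_left _ (DD_nonneg k 0)
  exact rank_sum y _ (gg_anti k _) _ _ rfl

/-- Sets with many large elements or with few heavy elements. -/
theorem rich (hk : 3 ≤ k) (hσ : ∑ i ∈ X, y i = σ) (hσ0 : 0 < σ) (hUX : U ⊆ X)
    (hU0 : ∑ i ∈ U, y i ≤ 0) (hU : U.card = 2 * k) (hX : X.card = 4 * k + 1)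
    (hb : 8 ≤ (Hv y σ X).card) (hcase : (Hv y σ U).card ≤ 2 ∨ 5 ≤ (Big X y U).card) :
    0 ≤ Gam X y k U := by
  have h1 := Gam_ge X y k U hUX hU hX
  have h2 := sum_bad_le hk hσ hσ0 hUX hU0 hU hX
  have hT := sum_compl hσ hUX
  have h3 := card_Lam_add hσ hUX hU0 hU hX
  have h4 := card_Big_add hσ hUX hU0 hU
  have h5 := card_Hv_add (y := y) (σ := σ) hUX
  have h6 := N2 k (Hv y σ U).card (Hv y σ (X \ U)).card (Lam X y U).card hk (by omega) h3
    (by omega)
  have h7 := bad_add_pos y k U hU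
  have h8 : DD k 0 ≤ (bad y k U : ℝ) + 2 * (pos y k U : ℝ) := by
    rw [DD_zero]
    exact_mod_cast h7
  have h9 : (bad y k U : ℝ) ≤ gg k (Hv y σ U).card 5 * DD k 0 := by
    have key := fun m hm => bad_gg y k hk U (σ := σ) (t := ∑ i ∈ X \ U, y i) hσ0 hU
      (by linarith) (by linarith) m hm
    rcases hcase with hc | hc
    · have h10 := key 0 (Nat.zero_le _)
      have e1 : gg k (Hv y σ U).card 0 = gg k (Hv y σ U).card 5 := by
        unfold gg
        split_ifs
        · rfl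
        · rfl
        · omega
      rwa [e1] at h10
    · exact key 5 hc
  have hD := DD_nonneg k 0
  have hk0 : (0 : ℝ) ≤ k := Nat.cast_nonneg k
  have h10 : DD k 0 * ∑ j ∈ range (Lam X y U).card, gg k (Hv y σ (X \ U)).card j ≤
      DD k 0 * ((2 * (k : ℝ) + 1) * (1 - gg k (Hv y σ U).card 5)) :=
    mul_le_mul_of_nonneg_left h6 hD
  have h11 : (2 * (k : ℝ) + 1) * (DD k 0 * (1 - gg k (Hv y σ U).card 5)) ≤
      (2 * (k : ℝ) + 1) * (2 * (pos y k U : ℝ)) := by
    apply mul_le_mul_of_nonneg_left _ (by linarith)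
    linarith
  linarith

/-- Sets with few large elements, with compensation. -/
theorem poor (hk : 3 ≤ k) (hσ : ∑ i ∈ X, y i = σ) (hσ0 : 0 < σ) (hUX : U ⊆ X)
    (hU0 : ∑ i ∈ U, y i ≤ 0) (hU : U.card = 2 * k) (hX : X.card = 4 * k + 1)
    (heU : e ∈ U) (hmax : ∀ x ∈ X, y x ≤ y e)
    (hb : 8 ≤ (Hv y σ X).card) :
    0 ≤ Gam X y k U + ((k : ℝ) + 1) / 2 * ∑ z ∈ Lam X y U,
      ((Hv y σ U).card : ℝ) * ((pos y k ((X \ U).erase z) : ℝ) /
        (((Hv y σ (X \ U)).card : ℝ) + 1)) := by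
  have hcomp : 0 ≤ ((k : ℝ) + 1) / 2 * ∑ z ∈ Lam X y U,
      ((Hv y σ U).card : ℝ) * ((pos y k ((X \ U).erase z) : ℝ) /
        (((Hv y σ (X \ U)).card : ℝ) + 1)) := by
    apply mul_nonneg (by positivity)
    apply sum_nonneg
    intro z _
    positivity
  rcases (Lam X y U).eq_empty_or_nonempty with hL | ⟨z0, hz0⟩
  · have h1 := Gam_ge X y k U hUX hU hX
    rw [hL, sum_empty, sub_zero] at h1
    have : (0 : ℝ) ≤ 2 * (2 * (k : ℝ) + 1) * (pos y k U : ℝ) := by positivity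
    linarith
  rcases Nat.lt_or_ge (Hv y σ U).card 3 with hh | hh
  · have := rich hk hσ hσ0 hUX hU0 hU hX hb (Or.inl (by omega))
    linarith
  have hT := sum_compl hσ hUX
  have hz0' := mem_Lam.mp hz0
  have hye : ∑ i ∈ X \ U, y i ≤ y e := hz0'.2.trans (hmax z0 hz0'.1.1)
  have h1 := Gam_ge X y k U hUX hU hX
  have h2 := sum_bad_le hk hσ hσ0 hUX hU0 hU hX
  have h3 := card_Lam_add hσ hUX hU0 hU hX
  have h4 := card_Big_add hσ hUX hU0 hU
  have h5 := card_Hv_add (y := y) (σ := σ) hUX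
  have hbig : 1 ≤ (Big X y U).card := card_pos.mpr ⟨e, mem_Big.mpr ⟨heU, hye⟩⟩
  have h6 := N1 k (Hv y σ U).card (Hv y σ (X \ U)).card (Lam X y U).card hk hh (by omega)
    (by omega) h3
  have h7 := bad_add_pos y k U hU
  have h8 : DD k 0 ≤ (bad y k U : ℝ) + 2 * (pos y k U : ℝ) := by
    rw [DD_zero]
    exact_mod_cast h7
  have h9 := bad_one y k U (σ := σ) (t := ∑ i ∈ X \ U, y i) hU (by linarith) (by linarith)
    hbig (by omega)
  have hD := DD_nonneg k 0
  have hk3 : (3 : ℝ) ≤ k := by exact_mod_cast hk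
  have h10 : ((k : ℝ) + 1) / 2 * DD k 0 ≤ (2 * (k : ℝ) + 1) * (2 * (pos y k U : ℝ)) := by
    have h11 : DD k 1 / 2 ≤ 2 * (pos y k U : ℝ) := by linarith
    have h12 := (DD_rel k 1 (by omega)).1 (by omega)
    have h13 : ((k : ℝ) + 1) / 2 * DD k 0 ≤ (2 * (k : ℝ) + 1) * (DD k 1 / 2) := by
      have h14 : 0 ≤ (2 * (k : ℝ) - 1) * ((2 * (k : ℝ) + 1) * (DD k 1 / 2) -
          ((k : ℝ) + 1) / 2 * DD k 0) := by
        have : (2 * (k : ℝ) - 1) * ((2 * (k : ℝ) + 1) * (DD k 1 / 2) -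
          ((k : ℝ) + 1) / 2 * DD k 0) = DD k 0 / 2 := by
          linear_combination ((2 * (k : ℝ) + 1) / 2) * h12
        rw [this]
        linarith
      by_contra hcon
      push_neg at hcon
      have : (2 * (k : ℝ) - 1) * ((2 * (k : ℝ) + 1) * (DD k 1 / 2) -
          ((k : ℝ) + 1) / 2 * DD k 0) < 0 :=
        mul_neg_of_pos_of_neg (by linarith) (by linarith)
      linarith
    exact h13.trans (mul_le_mul_of_nonneg_left h11 (by linarith))
  -- the compensation
  set c : ℝ := ((Hv y σ U).card : ℝ) * ((k : ℝ) + 1) /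
    (4 * (((Hv y σ (X \ U)).card : ℝ) + 1)) with hc
  have hc0 : 0 ≤ c := by rw [hc]; positivity
  have h11 : c * (DD k 0 * (Lam X y U).card - ∑ z ∈ Lam X y U,
      (bad y k ((X \ U).erase z) : ℝ)) ≤ ((k : ℝ) + 1) / 2 * ∑ z ∈ Lam X y U,
      ((Hv y σ U).card : ℝ) * ((pos y k ((X \ U).erase z) : ℝ) /
        (((Hv y σ (X \ U)).card : ℝ) + 1)) := by
    have e1 : DD k 0 * (Lam X y U).card - ∑ z ∈ Lam X y U,
      (bad y k ((X \ U).erase z) : ℝ) = ∑ z ∈ Lam X y U,
        (DD k 0 - (bad y k ((X \ U).erase z) : ℝ)) := by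
      rw [sum_sub_distrib, sum_const, nsmul_eq_mul, mul_comm]
    rw [e1, mul_sum, mul_sum]
    apply sum_le_sum
    intro z hz
    obtain ⟨⟨hzX, hzU⟩, _⟩ := mem_Lam.mp hz
    have hzT : z ∈ X \ U := mem_sdiff.mpr ⟨hzX, hzU⟩
    have hcz : ((X \ U).erase z).card = 2 * k := by
      rw [card_erase_of_mem hzT, card_sdiff_of_subset hUX]
      omega
    have h12 := bad_add_pos y k _ hcz
    have h13 : DD k 0 ≤ (bad y k ((X \ U).erase z) : ℝ) +
        2 * (pos y k ((X \ U).erase z) : ℝ) := by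
      rw [DD_zero]
      exact_mod_cast h12
    have h14 : ((k : ℝ) + 1) / 2 * (((Hv y σ U).card : ℝ) *
        ((pos y k ((X \ U).erase z) : ℝ) / (((Hv y σ (X \ U)).card : ℝ) + 1))) =
        c * (2 * (pos y k ((X \ U).erase z) : ℝ)) := by
      rw [hc]
      field_simp
      ring
    rw [h14]
    apply mul_le_mul_of_nonneg_left _ hc0
    linarith
  have h15 : (1 + c) * ∑ z ∈ Lam X y U, (bad y k ((X \ U).erase z) : ℝ) -
      c * (DD k 0 * (Lam X y U).card) ≤ DD k 0 * (((k : ℝ) + 1) / 2) := by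
    have h16 := mul_le_mul_of_nonneg_left h2 (by linarith : 0 ≤ 1 + c)
    have h17 := mul_le_mul_of_nonneg_left h6 hD
    nlinarith
  nlinarith

end one

theorem main_many (X : Finset ι) (y : ι → ℝ) (k : ℕ) (hk : 2 ≤ k) (hX : X.card = 4 * k + 1)
    {σ : ℝ} (hσ : ∑ i ∈ X, y i = σ) (hσ0 : 0 < σ) (hb : 8 ≤ (Hv y σ X).card) :
    (4 * k).choose (k - 1) ≤ pos y k X := by
  have hne : X.Nonempty := by rw [← card_pos]; omega
  obtain ⟨e, he, hmax⟩ := exists_max_image X y hne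
  apply of_Gam X y k e (by omega) he hX
  rcases Nat.lt_or_ge k 3 with hk3 | hk3
  · -- k = 2
    have hk2 : k = 2 := by omega
    subst hk2
    apply sum_nonneg
    intro U hU
    rw [mem_UU] at hU
    obtain ⟨⟨hUX, hUc⟩, heU⟩ := hU
    rcases lt_or_ge 0 (∑ i ∈ U, y i) with hp | hp
    · refine le_trans ?_ (Gam_good X y 2 U hUc hp)
      positivity
    · have h1 := Gam_ge X y 2 U hUX hUc hX
      have hL : Lam X y U = ∅ := by
        by_contra hne2
        obtain ⟨z, hz⟩ := nonempty_iff_ne_empty.mpr hne2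
        obtain ⟨⟨hzX, hzU⟩, hzy⟩ := mem_Lam.mp hz
        have hT := sum_compl hσ hUX
        have hez : e ≠ z := fun h => hzU (h ▸ heU)
        have hsub : Hv y σ X ⊆ (X.erase z).erase e := by
          intro x hx
          obtain ⟨hx1, hx2⟩ := mem_Hv.mp hx
          rw [mem_erase, mem_erase]
          refine ⟨?_, ?_, hx1⟩
          · rintro rfl
            have := hmax z hzX
            linarith
          · rintro rfl
            linarith
        have h2 := card_le_card hsub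
        rw [card_erase_of_mem (mem_erase.mpr ⟨hez, he⟩), card_erase_of_mem hzX, hX] at h2
        omega
      rw [hL, sum_empty, sub_zero] at h1
      refine le_trans ?_ h1
      positivity
  · have hsplit : ∑ U ∈ UU X k e, Gam X y k U =
        ∑ U ∈ Good X y k e, Gam X y k U + (∑ U ∈ Poor X y k e, Gam X y k U +
        ∑ U ∈ (UU X k e).filter (fun U => ¬ (0 < ∑ i ∈ U, y i) ∧
          ¬ (Big X y U).card ≤ 4), Gam X y k U) := by
      rw [← sum_filter_add_sum_filter_not (UU X k e) (fun U => 0 < ∑ i ∈ U, y i)]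
      congr 1
      rw [← sum_filter_add_sum_filter_not ((UU X k e).filter (fun U => ¬ 0 < ∑ i ∈ U, y i))
        (fun U => (Big X y U).card ≤ 4), filter_filter, filter_filter]
      congr 1
      unfold Poor
      congr 1
      apply filter_congr
      intro U _
      rw [not_lt]
    rw [hsplit]
    have g1 : ∑ U ∈ Good X y k e, (2 * ((k : ℝ) + 1) * (pos y k (X \ U) : ℝ)) ≤
        ∑ U ∈ Good X y k e, Gam X y k U := by
      apply sum_le_sum
      intro U hU
      unfold Good at hU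
      rw [mem_filter, mem_UU] at hU
      exact Gam_good X y k U hU.1.1.2 hU.2
    have g2 : 0 ≤ ∑ U ∈ (UU X k e).filter (fun U => ¬ (0 < ∑ i ∈ U, y i) ∧
          ¬ (Big X y U).card ≤ 4), Gam X y k U := by
      apply sum_nonneg
      intro U hU
      rw [mem_filter, mem_UU] at hU
      obtain ⟨⟨⟨hUX, hUc⟩, heU⟩, h1, h2⟩ := hU
      push_neg at h1 h2
      exact rich hk3 hσ hσ0 hUX h1 hUc hX hb (Or.inr (by omega))
    have g3 : 0 ≤ ∑ U ∈ Poor X y k e, (Gam X y k U + ((k : ℝ) + 1) / 2 * ∑ z ∈ Lam X y U,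
      ((Hv y σ U).card : ℝ) * ((pos y k ((X \ U).erase z) : ℝ) /
        (((Hv y σ (X \ U)).card : ℝ) + 1))) := by
      apply sum_nonneg
      intro U hU
      unfold Poor at hU
      rw [mem_filter, mem_UU] at hU
      obtain ⟨⟨⟨hUX, hUc⟩, heU⟩, h1, h2⟩ := hU
      exact poor hk3 hσ hσ0 hUX h1 hUc hX heU hmax hb
    rw [sum_add_distrib, ← mul_sum] at g3
    rw [← mul_sum] at g1
    have g4 := comp X y k e he hmax hσ
    have hk0 : (0 : ℝ) ≤ ((k : ℝ) + 1) / 2 := by positivity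
    have g5 := mul_le_mul_of_nonneg_left g4 hk0
    linarith

end Pool.Agent.KR4
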