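import Pool.Agent.KR4.SmallTwo

/-!
A set of `s k + 1` real numbers of positive sum, `s ≥ 4`, has at least `C(s k, k - 1)` subsets of
size `k` of positive sum.
-/

namespace Pool.Agent.KR4

open Finset Pool.Agent.KR3

variable {ι : Type*} [DecidableEq ι]

theorem main_few (X : Finset ι) (y : ι → ℝ) (k : ℕ) (hk : 0 < k) (hX : X.card = 4 * k + 1)
    {σ : ℝ} (hσ : ∑ i ∈ X, y i = σ) (hσ0 : 0 < σ) (hb : (Hv y σ X).card ≤ 7) :
    (4 * k).choose (k - 1) ≤ pos y k X := by
  have hk0 : (0 : ℝ) < k := by exact_mod_cast hk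
  have hHX : Hv y σ X ⊆ X := filter_subset _ _
  have hlight : ∀ i ∈ X \ Hv y σ X, σ ≤ y i := by
    intro i hi
    rw [mem_sdiff, mem_Hv] at hi
    by_contra hcon
    push_neg at hcon
    exact hi.2 ⟨hi.1, hcon⟩
  have hcs : (X \ Hv y σ X).card = 4 * k + 1 - (Hv y σ X).card := by
    rw [card_sdiff_of_subset hHX, hX]
  have hcle := card_le_card hHX
  rw [hX] at hcle
  rcases Nat.lt_or_ge (Hv y σ X).card 5 with hb4 | hb5
  · -- at most four heavy elements
    have h1 : (X \ Hv y σ X).powersetCard k ⊆
        (X.powersetCard k).filter (fun S => 0 < ∑ i ∈ S, y i) := by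
      intro V hV
      rw [mem_powersetCard] at hV
      rw [mem_filter, mem_powersetCard]
      refine ⟨⟨hV.1.trans sdiff_subset, hV.2⟩, ?_⟩
      apply light_pos y hσ0
      · rw [← card_pos]; omega
      · exact fun x hx => hlight x (hV.1 hx)
    have h2 := card_le_card h1
    rw [card_powersetCard] at h2
    have h3 : ((X.powersetCard k).filter (fun S => 0 < ∑ i ∈ S, y i)).card = pos y k X := rfl
    rw [h3] at h2
    refine (small4 k hk).trans (le_trans (Nat.choose_le_choose k ?_) h2)
    omega
  · -- five, six or seven heavy elements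
    obtain ⟨r, hr, hsum, htr, hr0⟩ := types4 X (Hv y σ X) hHX (fun i => 1 / (k : ℝ) - y i) k hk
      (by
        intro i hi
        have h1 := (mem_Hv.mp hi).2
        rw [sum_sub_distrib, sum_const, hX, hσ, nsmul_eq_mul]
        push_cast
        have h2 : (4 * (k : ℝ) + 1) * (1 / k) = 4 + 1 / k := by field_simp
        rw [h2]
        linarith) hX
    have hr0 := hr0 (fun i hi => by
      have := hlight i hi
      linarith)
    rw [← pos_eq_NL y k hk X] at hsum
    have hgoal : (((4 * k).choose (k - 1) : ℕ) : ℝ) ≤ (pos y k X : ℝ) := by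
      rw [hsum, hcs]
      rw [hcs] at hr0
      generalize (Hv y σ X).card = b at *
      have hterm : ∀ j ∈ range (k + 1), 0 ≤ ((b.choose j : ℕ) : ℝ) *
        (((4 * k + 1 - b).choose (k - j) : ℕ) : ℝ) * r j := by
        intro j _
        exact mul_nonneg (mul_nonneg (Nat.cast_nonneg _) (Nat.cast_nonneg _)) (hr j)
      have hsub1 : ∑ j ∈ range 2, ((b.choose j : ℕ) : ℝ) *
        (((4 * k + 1 - b).choose (k - j) : ℕ) : ℝ) * r j ≤ ∑ j ∈ range (k + 1),
        ((b.choose j : ℕ) : ℝ) * (((4 * k + 1 - b).choose (k - j) : ℕ) : ℝ) * r j := by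
        apply sum_le_sum_of_subset_of_nonneg
        · intro j hj
          rw [mem_range] at hj ⊢
          omega
        · exact fun j hj _ => hterm j hj
      have hsub2 : 2 ≤ k → ∑ j ∈ range 3, ((b.choose j : ℕ) : ℝ) *
        (((4 * k + 1 - b).choose (k - j) : ℕ) : ℝ) * r j ≤ ∑ j ∈ range (k + 1),
        ((b.choose j : ℕ) : ℝ) * (((4 * k + 1 - b).choose (k - j) : ℕ) : ℝ) * r j := by
        intro hk2
        apply sum_le_sum_of_subset_of_nonneg
        · intro j hj
          rw [mem_range] at hj ⊢
          omega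
        · exact fun j hj _ => hterm j hj
      obtain rfl | rfl | rfl : b = 5 ∨ b = 6 ∨ b = 7 := by omega
      · refine le_trans ?_ hsub1
        rw [sum_range_succ, sum_range_succ, sum_range_zero]
        have h1 := htr 1 1 1 1 (by norm_num) hk hk hk hk
        obtain ⟨t, rfl⟩ : ∃ t, k = t + 1 := ⟨k - 1, by omega⟩
        have h2 := small5 t
        have e1 : 4 * (t + 1) + 1 - 5 = 4 * t := by omega
        have e2 : 4 * (t + 1) = 4 * t + 4 := by omega
        have e3 : t + 1 - 1 = t := by omega
        have e4 : t + 1 - 0 = t + 1 := by omega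
        rw [e1] at hr0 ⊢
        rw [e2, e3, e4]
        have h3 : (0 : ℝ) ≤ (((4 * t).choose t : ℕ) : ℝ) := Nat.cast_nonneg _
        have h4 : (1 : ℝ) / 4 ≤ r 1 := by linarith
        have h5 := mul_le_mul_of_nonneg_left h4 h3
        rw [Nat.choose_zero_right, Nat.choose_one_right]
        push_cast
        linarith
      · have hk2 : 2 ≤ k := by omega
        refine le_trans ?_ (hsub2 hk2)
        rw [sum_range_succ, sum_range_succ, sum_range_succ, sum_range_zero]
        have h1 := htr 2 1 1 1 (by norm_num) hk2 hk hk hk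
        obtain ⟨s, rfl⟩ : ∃ s, k = s + 2 := ⟨k - 2, by omega⟩
        have h2 := small6 s
        have e1 : 4 * (s + 2) + 1 - 6 = 4 * s + 3 := by omega
        have e2 : 4 * (s + 2) = 4 * s + 8 := by omega
        have e3 : s + 2 - 1 = s + 1 := by omega
        have e4 : s + 2 - 0 = s + 2 := by omega
        have e5 : s + 2 - 2 = s := by omega
        rw [e1] at hr0 ⊢
        rw [e2, e3, e4, e5]
        have c1 := ch_col (4 * s + 3) s (by omega)
        have h3 : (0 : ℝ) ≤ (((4 * s + 3).choose s : ℕ) : ℝ) := Nat.cast_nonneg _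
        have hs0 : (0 : ℝ) ≤ s := Nat.cast_nonneg s
        have c2 : (((4 * s + 3).choose (s + 1) : ℕ) : ℝ) =
            3 * (((4 * s + 3).choose s : ℕ) : ℝ) := by
          have : (0 : ℝ) < (s : ℝ) + 1 := by positivity
          apply mul_right_cancel₀ this.ne'
          push_cast at c1
          linear_combination c1
        rw [c2] at h2 ⊢
        have n1 := hr 1
        have n2 := hr 2
        have ch2 : ((Nat.choose 6 2 : ℕ) : ℝ) = 15 := by norm_num [Nat.choose]
        rw [Nat.choose_zero_right, Nat.choose_one_right, ch2]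
        generalize (((4 * s + 3).choose s : ℕ) : ℝ) = a at *
        have h4 : a * 1 ≤ a * (r 2 + 3 * r 1) := mul_le_mul_of_nonneg_left (by linarith) h3
        have h5 := mul_nonneg h3 n2
        push_cast
        linarith
      · have hk2 : 2 ≤ k := by omega
        refine le_trans ?_ (hsub2 hk2)
        rw [sum_range_succ, sum_range_succ, sum_range_succ, sum_range_zero]
        have h1 := htr 2 2 1 1 (by norm_num) hk2 hk2 hk hk
        obtain ⟨s, rfl⟩ : ∃ s, k = s + 2 := ⟨k - 2, by omega⟩
        have h2 := small7 s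
        have e1 : 4 * (s + 2) + 1 - 7 = 4 * s + 2 := by omega
        have e2 : 4 * (s + 2) = 4 * s + 8 := by omega
        have e3 : s + 2 - 1 = s + 1 := by omega
        have e4 : s + 2 - 0 = s + 2 := by omega
        have e5 : s + 2 - 2 = s := by omega
        rw [e1] at hr0 ⊢
        rw [e2, e3, e4, e5]
        have c1 := ch_col (4 * s + 2) s (by omega)
        have h3 : (0 : ℝ) ≤ (((4 * s + 2).choose (s + 1) : ℕ) : ℝ) := Nat.cast_nonneg _
        have h3' : (0 : ℝ) ≤ (((4 * s + 2).choose s : ℕ) : ℝ) := Nat.cast_nonneg _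
        have hs0 : (0 : ℝ) ≤ s := Nat.cast_nonneg s
        have c2 : (((4 * s + 2).choose (s + 1) : ℕ) : ℝ) ≤
            3 * (((4 * s + 2).choose s : ℕ) : ℝ) := by
          have : (0 : ℝ) < (s : ℝ) + 1 := by positivity
          apply le_of_mul_le_mul_right _ this
          push_cast at c1
          nlinarith
        have n1 := hr 1
        have n2 := hr 2
        have ch2 : ((Nat.choose 7 2 : ℕ) : ℝ) = 21 := by norm_num [Nat.choose]
        rw [Nat.choose_zero_right, Nat.choose_one_right, ch2]
        generalize (((4 * s + 2).choose s : ℕ) : ℝ) = a' at *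
        generalize (((4 * s + 2).choose (s + 1) : ℕ) : ℝ) = a at *
        have h4 : a * (1 / 2) ≤ a * (r 2 + r 1) := mul_le_mul_of_nonneg_left (by linarith) h3
        have h5 : a * r 2 ≤ (3 * a') * r 2 := mul_le_mul_of_nonneg_right c2 n2
        push_cast
        linarith
    exact_mod_cast hgoal

/-- The base case. -/
theorem base (X : Finset ι) (y : ι → ℝ) (k : ℕ) (hk : 0 < k) (hX : X.card = 4 * k + 1)
    (hy : 0 < ∑ i ∈ X, y i) : (4 * k).choose (k - 1) ≤ pos y k X := by
  rcases Nat.lt_or_ge (Hv y (∑ i ∈ X, y i) X).card 8 with h | h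
  · exact main_few X y k hk hX rfl hy (by omega)
  · have h1 : (Hv y (∑ i ∈ X, y i) X).card ≤ X.card := card_le_card (filter_subset _ _)
    exact main_many X y k (by omega) hX rfl hy h

/-- The general case. -/
theorem mms (k : ℕ) (hk : 0 < k) : ∀ (s : ℕ), 4 ≤ s → ∀ (X : Finset ι) (y : ι → ℝ),
    X.card = s * k + 1 → 0 < ∑ i ∈ X, y i → (s * k).choose (k - 1) ≤ pos y k X := by
  intro s hs
  induction s, hs using Nat.le_induction with
  | base => exact fun X y hX hy => base X y k hk hX hy
  | succ s hs ih =>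
    intro X y hX hy
    have h1 := step (ι := ι) (s * k + 1) k hk (by nlinarith)
      (fun X y hX hy => by
        rw [Nat.add_sub_cancel]
        exact ih X y hX hy) X y (by rw [hX]; ring) hy
    have e : s * k + 1 + k - 1 = (s + 1) * k := by
      rw [Nat.add_mul, one_mul]
      omega
    rwa [e] at h1

end Pool.Agent.KR4
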