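import Pool.Agent.KR4.Red

/-!
The form of the problem.
-/

namespace Pool.Agent.KR4

open Finset Pool.Agent.KR3

theorem near_unit (n k s : ℕ) (h : ℝ) (hs1 : 1 ≤ s) (hs3 : s ≤ 3) (hk0 : 0 < k)
    (h1 : (s : ℝ) ≤ h) (h2 : h * k < s * k + 1) (x : Fin n → ℝ) (hx : ∀ i, 0 ≤ x i)
    (hsum : ∑ i, x i = h) (hn : s * k < n) :
    Set.ncard {V : Finset (Fin n) | V.card = k ∧ (1 : ℝ) ≤ ∑ i ∈ V, x i} ≤
      Set.ncard {V : Finset (Fin n) | V.card = k ∧ (1 : ℝ) ≤ ∑ i ∈ V,
        (if i.val < min n ⌊h * ((1 : ℕ) : ℝ)⌋₊ then (1 : ℝ) / ((1 : ℕ) : ℝ) else 0)} := by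
  have e1 := ncard_add_NL k x
  have hk1 : (1 : ℝ) ≤ k := by exact_mod_cast hk0
  have hmain := le_three s hs1 hs3 n univ x k (by rw [card_univ, Fintype.card_fin])
    (fun i _ => hx i) (by rw [hsum, mul_comm]; exact h2) hn
  have e : ⌊h * ((1 : ℕ) : ℝ)⌋₊ = s := by
    rw [Nat.cast_one, mul_one, Nat.floor_eq_iff (by
      have : (0 : ℝ) ≤ s := Nat.cast_nonneg s
      linarith)]
    refine ⟨h1, ?_⟩
    by_contra hcon
    push_neg at hcon
    nlinarith
  have hsn : s ≤ n := by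
    have : s * 1 ≤ s * k := Nat.mul_le_mul_left s hk0
    omega
  rw [e, min_eq_right hsn]
  have e2 := ncard_add_NL k
    (fun i : Fin n => if i.val < s then (1 : ℝ) / ((1 : ℕ) : ℝ) else 0)
  have e3 := NL_unit_le (n := n) (s := s) hsn k
  omega

theorem near_all (n k s : ℕ) (h : ℝ) (hk0 : 0 < k) (h1 : (s : ℝ) ≤ h) (x : Fin n → ℝ)
    (hn : n ≤ s * k) :
    Set.ncard {V : Finset (Fin n) | V.card = k ∧ (1 : ℝ) ≤ ∑ i ∈ V, x i} ≤
      Set.ncard {V : Finset (Fin n) | V.card = k ∧ (1 : ℝ) ≤ ∑ i ∈ V,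
        (if i.val < min n ⌊h * (k : ℝ)⌋₊ then (1 : ℝ) / (k : ℝ) else 0)} := by
  apply Set.ncard_le_ncard _ (Set.toFinite _)
  rintro V ⟨hV, _⟩
  refine ⟨hV, ?_⟩
  have hk1 : (0 : ℝ) < k := by exact_mod_cast hk0
  have e : n ≤ ⌊h * (k : ℝ)⌋₊ := by
    apply Nat.le_floor
    have h3 : (n : ℝ) ≤ s * k := by exact_mod_cast hn
    nlinarith
  rw [min_eq_left e]
  have h1 : ∀ i ∈ V, (if i.val < n then (1 : ℝ) / (k : ℝ) else 0) = 1 / (k : ℝ) := by
    intro i _
    rw [if_pos i.isLt]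
  rw [Finset.sum_congr rfl h1, Finset.sum_const, hV, nsmul_eq_mul, mul_one_div,
    div_self hk1.ne']

theorem near_k (n k s : ℕ) (h : ℝ) (hs4 : 4 ≤ s) (hk0 : 0 < k) (h1 : (s : ℝ) ≤ h)
    (h2 : h * k < s * k + 1) (x : Fin n → ℝ) (hsum : ∑ i, x i = h) (hn : n ≤ s * k + 1) :
    Set.ncard {V : Finset (Fin n) | V.card = k ∧ (1 : ℝ) ≤ ∑ i ∈ V, x i} ≤
      Set.ncard {V : Finset (Fin n) | V.card = k ∧ (1 : ℝ) ≤ ∑ i ∈ V,
        (if i.val < min n ⌊h * (k : ℝ)⌋₊ then (1 : ℝ) / (k : ℝ) else 0)} := by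
  rcases Nat.lt_or_ge (s * k) n with hlt | hge
  · have hneq : n = s * k + 1 := by omega
    subst hneq
    have hk1 : (0 : ℝ) < k := by exact_mod_cast hk0
    -- the given distribution
    have e1 := ncard_add_NL k x
    have hpos : 0 < ∑ i : Fin (s * k + 1), (1 / (k : ℝ) - x i) := by
      rw [sum_sub_distrib, hsum, sum_const, card_univ, Fintype.card_fin, nsmul_eq_mul]
      push_cast
      rw [mul_one_div, sub_pos, lt_div_iff₀ hk1]
      exact h2
    have hmain := mms k hk0 s hs4 univ (fun i => 1 / (k : ℝ) - x i)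
      (by rw [card_univ, Fintype.card_fin]) hpos
    rw [pos_eq_NL _ k hk0] at hmain
    simp only [sub_sub_cancel] at hmain
    have hmain2 : (s * k).choose (k - 1) ≤ NL univ x k := hmain
    -- the comparison distribution
    have e : ⌊h * (k : ℝ)⌋₊ = s * k := by
      rw [Nat.floor_eq_iff (by
        have : (0 : ℝ) ≤ s := Nat.cast_nonneg s
        nlinarith)]
      push_cast
      refine ⟨?_, h2⟩
      exact mul_le_mul_of_nonneg_right h1 hk1.le
    rw [e, min_eq_right (Nat.le_succ _)]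
    have e2 := ncard_add_NL k
      (fun i : Fin (s * k + 1) => if i.val < s * k then (1 : ℝ) / (k : ℝ) else 0)
    have e3 : NL univ (fun i : Fin (s * k + 1) => if i.val < s * k then (1 : ℝ) / (k : ℝ)
        else 0) k ≤ (s * k).choose (k - 1) := by
      have h3 := card_super (univ : Finset (Fin (s * k + 1))) {Fin.last (s * k)} k
        (subset_univ _) (by rw [card_singleton]; omega)
      rw [card_singleton, card_univ, Fintype.card_fin, Nat.add_sub_cancel] at h3
      rw [← h3]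
      unfold NL
      apply card_le_card
      intro V hV
      rw [mem_filter, mem_powersetCard] at hV ⊢
      refine ⟨hV.1, ?_⟩
      rw [singleton_subset_iff]
      by_contra hcon
      have h4 : ∀ i ∈ V, (if i.val < s * k then (1 : ℝ) / (k : ℝ) else 0) = 1 / (k : ℝ) := by
        intro i hi
        rw [if_pos]
        have h5 : i ≠ Fin.last (s * k) := fun h => hcon (h ▸ hi)
        exact Fin.val_lt_last h5
      rw [Finset.sum_congr rfl h4, Finset.sum_const, hV.1.2, nsmul_eq_mul, mul_one_div,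
        div_self hk1.ne'] at hV
      exact lt_irrefl _ hV.2
    omega
  · exact near_all n k s h hk0 h1 x hge

end Pool.Agent.KR4
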