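import Pool.Agent.KR4.Few

/-!
The numerical inequalities.
-/

namespace Pool.Agent.KR4

open Finset

theorem AA_nonneg (k m : ℕ) : 0 ≤ AA k m := by
  match m with
  | 0 => simp [AA]
  | 1 => simp [AA]; norm_num
  | 2 => simp [AA]; norm_num
  | 3 => simp [AA]; norm_num
  | 4 => simp only [AA]; split_ifs <;> norm_num
  | (m + 5) => simp only [AA]; split_ifs <;> norm_num

theorem ratio_le (k : ℕ) (hk : 3 ≤ k) : (k : ℝ) / (2 * k - 1) ≤ 3 / 5 := by
  have h3 : (3 : ℝ) ≤ k := by exact_mod_cast hk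
  rw [div_le_iff₀ (by linarith)]
  linarith

theorem ratio_nonneg (k : ℕ) (hk : 3 ≤ k) : 0 ≤ (k : ℝ) / (2 * k - 1) := by
  have h3 : (3 : ℝ) ≤ k := by exact_mod_cast hk
  exact div_nonneg (by linarith) (by linarith)

theorem gg_le_one (k h j : ℕ) (hk : 3 ≤ k) : gg k h j ≤ 1 := by
  unfold gg
  have := ratio_le k hk
  split_ifs
  · norm_num
  · linarith
  · exact AA_anti k (Nat.zero_le _)

theorem gg_one (k h j : ℕ) (hk : 3 ≤ k) (hj : 1 ≤ j) : gg k h j ≤ 3 / 4 := by
  unfold gg
  have := ratio_le k hk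
  split_ifs
  · norm_num
  · linarith
  · exact AA_anti k (by omega : 1 ≤ min j h)

theorem gg_two (k h j : ℕ) (hk : 3 ≤ k) (hj : 2 ≤ j) : gg k h j ≤ 5 / 8 := by
  unfold gg
  have := ratio_le k hk
  split_ifs
  · norm_num
  · linarith
  · exact AA_anti k (by omega : 2 ≤ min j h)

theorem gg_three (k h j : ℕ) (hj : 3 ≤ j) (hh : 3 ≤ h) : gg k h j ≤ 35 / 64 := by
  unfold gg
  rw [if_neg (by omega), if_neg (by omega)]
  exact AA_anti k (by omega : 3 ≤ min j h)

theorem gg_four (k h j : ℕ) (hk : 5 ≤ k) (hj : 4 ≤ j) (hh : 4 ≤ h) : gg k h j ≤ 63 / 128 := by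
  unfold gg
  rw [if_neg (by omega), if_neg (by omega)]
  have : AA k 4 = 63 / 128 := by
    simp only [AA]
    rw [if_neg (by omega)]
  rw [← this]
  exact AA_anti k (by omega : 4 ≤ min j h)

theorem gg_five (k h j : ℕ) (hk : 5 ≤ k) (hj : 5 ≤ j) (hh : 5 ≤ h) : gg k h j ≤ 231 / 512 := by
  unfold gg
  rw [if_neg (by omega), if_neg (by omega)]
  have : AA k 5 = 231 / 512 := by
    simp only [AA]
    rw [if_neg (by omega)]
  rw [← this]
  exact AA_anti k (by omega : 5 ≤ min j h)

theorem sum_le_tail (g : ℕ → ℝ) (J : ℕ) (c C : ℝ) (hC : ∑ j ∈ range J, g j ≤ C)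
    (hc : ∀ j, J ≤ j → g j ≤ c) (m : ℕ) : ∑ j ∈ range (m + J), g j ≤ C + m * c := by
  induction m with
  | zero => simpa using hC
  | succ m ih =>
    rw [show m + 1 + J = m + J + 1 by omega, sum_range_succ]
    have := hc (m + J) (by omega)
    push_cast
    linarith

theorem sum_le_card (g : ℕ → ℝ) (hg : ∀ j, g j ≤ 1) (m : ℕ) : ∑ j ∈ range m, g j ≤ m := by
  have := sum_le_tail g 0 1 0 (by simp) (fun j _ => hg j) m
  simpa using this

theorem s2 (k h m : ℕ) (hk : 3 ≤ k) :
    ∑ j ∈ range (m + 2), gg k h j ≤ 7 / 4 + m * (5 / 8) := by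
  apply sum_le_tail
  · rw [sum_range_succ, sum_range_succ, sum_range_zero]
    have h0 := gg_le_one k h 0 hk
    have h1 := gg_one k h 1 hk le_rfl
    linarith
  · exact fun j hj => gg_two k h j hk hj

theorem s3 (k h m : ℕ) (hk : 3 ≤ k) (hh : 3 ≤ h) :
    ∑ j ∈ range (m + 3), gg k h j ≤ 19 / 8 + m * (35 / 64) := by
  apply sum_le_tail
  · rw [sum_range_succ, sum_range_succ, sum_range_succ, sum_range_zero]
    have h0 := gg_le_one k h 0 hk
    have h1 := gg_one k h 1 hk le_rfl
    have h2 := gg_two k h 2 hk le_rfl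
    linarith
  · exact fun j hj => gg_three k h j hj hh

theorem s4 (k h m : ℕ) (hk : 5 ≤ k) (hh : 4 ≤ h) :
    ∑ j ∈ range (m + 4), gg k h j ≤ 187 / 64 + m * (63 / 128) := by
  apply sum_le_tail
  · rw [sum_range_succ, sum_range_succ, sum_range_succ, sum_range_succ, sum_range_zero]
    have h0 := gg_le_one k h 0 (by omega)
    have h1 := gg_one k h 1 (by omega) le_rfl
    have h2 := gg_two k h 2 (by omega) le_rfl
    have h3 := gg_three k h 3 le_rfl (by omega)
    linarith
  · exact fun j hj => gg_four k h j hk hj hh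

theorem s5 (k h m : ℕ) (hk : 5 ≤ k) (hh : 5 ≤ h) :
    ∑ j ∈ range (m + 5), gg k h j ≤ 437 / 128 + m * (231 / 512) := by
  apply sum_le_tail
  · rw [sum_range_succ, sum_range_succ, sum_range_succ, sum_range_succ, sum_range_succ,
      sum_range_zero]
    have h0 := gg_le_one k h 0 (by omega)
    have h1 := gg_one k h 1 (by omega) le_rfl
    have h2 := gg_two k h 2 (by omega) le_rfl
    have h3 := gg_three k h 3 le_rfl (by omega)
    have h4 := gg_four k h 4 hk le_rfl (by omega)
    linarith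
  · exact fun j hj => gg_five k h j hk hj hh

/-- The inequality for sets with few large elements. -/
theorem N1 (k h h' l : ℕ) (hk : 3 ≤ k) (hh : 3 ≤ h) (hh2 : h + 1 ≤ 2 * k) (hb : 8 ≤ h + h')
    (hl : l + h' ≤ 2 * k + 1) :
    (1 + (h : ℝ) * (k + 1) / (4 * (h' + 1))) * ∑ j ∈ range l, gg k h' j -
      (h : ℝ) * (k + 1) / (4 * (h' + 1)) * l ≤ ((k : ℝ) + 1) / 2 := by
  have hk3 : (3 : ℝ) ≤ k := by exact_mod_cast hk
  have hx0 : (0 : ℝ) < (h' : ℝ) + 1 := by positivity
  set c : ℝ := (h : ℝ) * (k + 1) / (4 * (h' + 1)) with hc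
  have hc0 : 0 ≤ c := by rw [hc]; positivity
  have hc4 : c * (4 * ((h' : ℝ) + 1)) = (h : ℝ) * (k + 1) := by
    rw [hc]; field_simp
  rcases Nat.lt_or_ge l 2 with hl2 | hl2
  · interval_cases l
    · simp; linarith
    · have := gg_le_one k h' 0 hk
      rw [sum_range_one]
      push_cast
      nlinarith
  · obtain ⟨m, rfl⟩ : ∃ m, l = m + 2 := ⟨l - 2, by omega⟩
    have h1 := s2 k h' m hk
    have h2 := mul_le_mul_of_nonneg_left h1 (by linarith : 0 ≤ 1 + c)
    have hm0 : (0 : ℝ) ≤ m := Nat.cast_nonneg m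
    have hm : (m : ℝ) ≤ 2 * k - (h' + 1) := by
      have : m + (h' + 1) ≤ 2 * k := by omega
      have : ((m + (h' + 1) : ℕ) : ℝ) ≤ ((2 * k : ℕ) : ℝ) := by exact_mod_cast this
      push_cast at this
      linarith
    have goal : 7 / 4 - c / 4 + m * (5 / 8 - 3 * c / 8) ≤ ((k : ℝ) + 1) / 2 := by
      rcases le_or_gt (5 / 3) c with h53 | h53
      · have : (m : ℝ) * (5 / 8 - 3 * c / 8) ≤ 0 :=
          mul_nonpos_of_nonneg_of_nonpos hm0 (by linarith)
        linarith
      · have hpos : 0 ≤ 5 / 8 - 3 * c / 8 := by linarith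
        have h3 := mul_le_mul_of_nonneg_right hm hpos
        have h4 : 7 / 4 - c / 4 + (2 * (k : ℝ) - (h' + 1)) * (5 / 8 - 3 * c / 8) ≤
            ((k : ℝ) + 1) / 2 := by
          rcases Nat.lt_or_ge k 5 with hk5 | hk5
          · have hh'7 : h' ≤ 7 := by omega
            have hh7 : h ≤ 7 := by omega
            clear h1 h2 h3 hpos h53 hm hc
            interval_cases k
            · interval_cases h <;> interval_cases h' <;> first
                | (exfalso; omega)
                | (push_cast at hc4 ⊢; norm_num at hc4 ⊢; linarith)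
            · interval_cases h <;> interval_cases h' <;> first
                | (exfalso; omega)
                | (push_cast at hc4 ⊢; norm_num at hc4 ⊢; linarith)
          · have hk5r : (5 : ℝ) ≤ k := by exact_mod_cast hk5
            have hhr : (3 : ℝ) ≤ h := by exact_mod_cast hh
            set x : ℝ := (h' : ℝ) + 1 with hx
            have hxk : 0 ≤ 2 * (k : ℝ) - x := by linarith
            have hcx : 3 * ((k : ℝ) + 1) ≤ 4 * (c * x) := by nlinarith
            have h5 : 0 ≤ 20 * x ^ 2 - x * (33 * k + 49) + (k + 1) * (18 * k + 6) := by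
              nlinarith [sq_nonneg (40 * x - (33 * k + 49)), mul_nonneg (by linarith : (0:ℝ) ≤ k - 5)
                (by linarith : (0 : ℝ) ≤ (k : ℝ))]
            have h6 : x * (7 / 4 - c / 4 + (2 * (k : ℝ) - x) * (5 / 8 - 3 * c / 8)) ≤
                x * (((k : ℝ) + 1) / 2) := by
              have h7 : (2 * (k : ℝ) - x) * (3 * ((k : ℝ) + 1)) ≤
                  (2 * (k : ℝ) - x) * (4 * (c * x)) := mul_le_mul_of_nonneg_left hcx hxk
              nlinarith
            exact le_of_mul_le_mul_left h6 hx0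
        linarith
    push_cast
    nlinarith

end Pool.Agent.KR4
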