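import Pool.Agent.KR4.Num

/-!
The numerical inequality without compensation.
-/

namespace Pool.Agent.KR4

open Finset

theorem l_cast {l h' k : ℕ} (hl : l + h' ≤ 2 * k + 1) : (l : ℝ) + h' ≤ 2 * k + 1 := by
  have : ((l + h' : ℕ) : ℝ) ≤ ((2 * k + 1 : ℕ) : ℝ) := by exact_mod_cast hl
  push_cast at this
  exact this

/-- The inequality without compensation. -/
theorem N2 (k h h' l : ℕ) (hk : 3 ≤ k) (hb : 8 ≤ h + h')
    (hl : l + h' ≤ 2 * k + 1) (hcase : h ≤ 2 ∨ 5 + h ≤ 2 * k) :
    ∑ j ∈ range l, gg k h' j ≤ (2 * (k : ℝ) + 1) * (1 - gg k h 5) := by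
  have hk3 : (3 : ℝ) ≤ k := by exact_mod_cast hk
  have hlr := l_cast hl
  have hh'0 : (0 : ℝ) ≤ h' := Nat.cast_nonneg h'
  have hcard := sum_le_card (gg k h') (fun j => gg_le_one k h' j hk) l
  rcases Nat.lt_or_ge h 2 with h1 | h1
  · -- h at most 1
    have e : gg k h 5 = 0 := by
      unfold gg
      rw [if_pos (by omega)]
    rw [e]
    linarith
  rcases Nat.lt_or_ge h 3 with h2 | h2
  · -- h = 2
    have hh : h = 2 := by omega
    subst hh
    have e : gg k 2 5 = (k : ℝ) / (2 * k - 1) := by
      unfold gg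
      rw [if_neg (by omega), if_pos rfl]
    have e2 : (k : ℝ) - 1 / 5 ≤ (2 * (k : ℝ) + 1) * (1 - gg k 2 5) := by
      rw [e, one_sub_div (by linarith : (2 * (k : ℝ) - 1) ≠ 0), mul_div_assoc',
        le_div_iff₀ (by linarith)]
      nlinarith
    refine le_trans ?_ e2
    rcases Nat.lt_or_ge k 5 with h5 | h5
    · have hl3 : l ≤ 2 * k - 5 := by omega
      have : (l : ℝ) + 5 ≤ 2 * k := by
        have : ((l + 5 : ℕ) : ℝ) ≤ ((2 * k : ℕ) : ℝ) := by exact_mod_cast (by omega : l + 5 ≤ 2 * k)
        push_cast at this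
        exact this
      have hk4 : (k : ℝ) ≤ 4 := by exact_mod_cast (by omega : k ≤ 4)
      linarith
    · have hk5 : (5 : ℝ) ≤ k := by exact_mod_cast h5
      rcases Nat.lt_or_ge l 4 with hl4 | hl4
      · have : (l : ℝ) ≤ 3 := by exact_mod_cast (by omega : l ≤ 3)
        linarith
      · obtain ⟨m, rfl⟩ : ∃ m, l = m + 4 := ⟨l - 4, by omega⟩
        have h3 := s4 k h' m h5 (by omega)
        have : (m : ℝ) + 9 ≤ 2 * k := by
          have : ((m + 9 : ℕ) : ℝ) ≤ ((2 * k : ℕ) : ℝ) := by
            exact_mod_cast (by omega : m + 9 ≤ 2 * k)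
          push_cast at this
          exact this
        linarith
  rcases Nat.lt_or_ge h 4 with h3 | h3
  · -- h = 3
    have hh : h = 3 := by omega
    subst hh
    have hk4 : 4 ≤ k := by omega
    have e : gg k 3 5 = 35 / 64 := by
      unfold gg
      rw [if_neg (by omega), if_neg (by omega)]
      simp [AA]
    rw [e]
    have hk4r : (4 : ℝ) ≤ k := by exact_mod_cast hk4
    rcases Nat.lt_or_ge l 5 with hl4 | hl4
    · have : (l : ℝ) ≤ 4 := by exact_mod_cast (by omega : l ≤ 4)
      linarith
    · have h5 : 5 ≤ k := by omega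
      obtain ⟨m, rfl⟩ : ∃ m, l = m + 5 := ⟨l - 5, by omega⟩
      have h3 := s5 k h' m h5 (by omega)
      have : (m : ℝ) + 9 ≤ 2 * k := by
        have : ((m + 9 : ℕ) : ℝ) ≤ ((2 * k : ℕ) : ℝ) := by
          exact_mod_cast (by omega : m + 9 ≤ 2 * k)
        push_cast at this
        exact this
      linarith
  have h5 : 5 ≤ k := by omega
  have hk5 : (5 : ℝ) ≤ k := by exact_mod_cast h5
  rcases Nat.lt_or_ge h 5 with h4 | h4
  · -- h = 4
    have hh : h = 4 := by omega
    subst hh
    have e : gg k 4 5 = 63 / 128 := by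
      unfold gg
      rw [if_neg (by omega), if_neg (by omega)]
      simp only [AA, min_def]
      norm_num
      omega
    rw [e]
    rcases Nat.lt_or_ge l 4 with hl4 | hl4
    · have : (l : ℝ) ≤ 3 := by exact_mod_cast (by omega : l ≤ 3)
      linarith
    · obtain ⟨m, rfl⟩ : ∃ m, l = m + 4 := ⟨l - 4, by omega⟩
      have h3 := s4 k h' m h5 (by omega)
      have : (m : ℝ) + 7 ≤ 2 * k := by
        have : ((m + 7 : ℕ) : ℝ) ≤ ((2 * k : ℕ) : ℝ) := by
          exact_mod_cast (by omega : m + 7 ≤ 2 * k)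
        push_cast at this
        exact this
      linarith
  · -- h at least 5
    have e : gg k h 5 = 231 / 512 := by
      unfold gg
      rw [if_neg (by omega), if_neg (by omega), min_eq_left h4]
      simp only [AA]
      rw [if_neg (by omega)]
    rw [e]
    rcases Nat.lt_or_ge h' 2 with g1 | g1
    · have e0 : ∑ j ∈ range l, gg k h' j = 0 := by
        apply sum_eq_zero
        intro j _
        unfold gg
        rw [if_pos (by omega)]
      rw [e0]
      linarith
    rcases Nat.lt_or_ge h' 3 with g2 | g2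
    · have hh : h' = 2 := by omega
      subst hh
      have e0 : ∑ j ∈ range l, gg k 2 j = l * ((k : ℝ) / (2 * k - 1)) := by
        have : ∀ j ∈ range l, gg k 2 j = (k : ℝ) / (2 * k - 1) := by
          intro j _
          unfold gg
          rw [if_neg (by omega), if_pos rfl]
        rw [sum_congr rfl this, sum_const, card_range, nsmul_eq_mul]
      rw [e0]
      have h3 : (l : ℝ) * ((k : ℝ) / (2 * k - 1)) ≤ k := by
        rw [mul_div_assoc', div_le_iff₀ (by linarith)]
        push_cast at hlr
        nlinarith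
      linarith
    rcases Nat.lt_or_ge h' 4 with g3 | g3
    · have hh : h' = 3 := by omega
      subst hh
      rcases Nat.lt_or_ge l 3 with hl4 | hl4
      · have : (l : ℝ) ≤ 2 := by exact_mod_cast (by omega : l ≤ 2)
        linarith
      · obtain ⟨m, rfl⟩ : ∃ m, l = m + 3 := ⟨l - 3, by omega⟩
        have h3 := s3 k 3 m hk le_rfl
        have : (m : ℝ) + 5 ≤ 2 * k := by
          have : ((m + 5 : ℕ) : ℝ) ≤ ((2 * k : ℕ) : ℝ) := by
            exact_mod_cast (by omega : m + 5 ≤ 2 * k)
          push_cast at this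
          exact this
        linarith
    · rcases Nat.lt_or_ge l 4 with hl4 | hl4
      · have : (l : ℝ) ≤ 3 := by exact_mod_cast (by omega : l ≤ 3)
        linarith
      · obtain ⟨m, rfl⟩ : ∃ m, l = m + 4 := ⟨l - 4, by omega⟩
        have h3 := s4 k h' m h5 (by omega)
        have : (m : ℝ) + 7 ≤ 2 * k := by
          have : ((m + 7 : ℕ) : ℝ) ≤ ((2 * k : ℕ) : ℝ) := by
            exact_mod_cast (by omega : m + 7 ≤ 2 * k)
          push_cast at this
          exact this
        linarith

end Pool.Agent.KR4
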