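import Mathlib

/-!
Families of `k`-sets which are antichains with respect to the exchange of the elements of
disjoint pairs.
-/

namespace Pool.Agent.KR4

open Finset

variable {ι : Type*} [DecidableEq ι]

theorem sperner_sub (R : Finset ι) (𝒪 : Finset (Finset ι)) (hsub : ∀ s ∈ 𝒪, s ⊆ R)
    (hanti : ∀ s ∈ 𝒪, ∀ t ∈ 𝒪, s ⊆ t → s = t) : 𝒪.card ≤ R.card.choose (R.card / 2) := by
  classical
  set 𝒜 : Finset (Finset {x // x ∈ R}) := 𝒪.image (fun s => s.subtype (fun x => x ∈ R)) with h𝒜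
  have hinj : Set.InjOn (fun s : Finset ι => s.subtype (fun x => x ∈ R)) (𝒪 : Set (Finset ι)) := by
    intro s hs t ht hst
    have h1 := congrArg (fun u => u.map (Function.Embedding.subtype _)) hst
    simp only [subtype_map] at h1
    rwa [filter_true_of_mem (fun x hx => hsub s hs hx),
      filter_true_of_mem (fun x hx => hsub t ht hx)] at h1
  have hcard : 𝒜.card = 𝒪.card := card_image_of_injOn hinj
  have hA : IsAntichain (· ⊆ ·) (𝒜 : Set (Finset {x // x ∈ R})) := by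
    intro a ha b hb hne hab
    rw [mem_coe, h𝒜, mem_image] at ha hb
    obtain ⟨s, hs, rfl⟩ := ha
    obtain ⟨t, ht, rfl⟩ := hb
    apply hne
    have hst : s ⊆ t := by
      intro x hx
      have h1 : (⟨x, hsub s hs hx⟩ : {x // x ∈ R}) ∈ s.subtype (fun x => x ∈ R) := by
        rw [mem_subtype]; exact hx
      have h2 := hab h1
      rw [mem_subtype] at h2
      exact h2
    rw [hanti s hs t ht hst]
  have := hA.sperner
  rw [hcard, Fintype.card_coe] at this
  exact this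

/-- The set of split pairs. -/
def sp (W : Finset ι) (φ : ι → ι) (A : Finset ι) : Finset ι :=
  W.filter (fun x => ¬ (x ∈ A ↔ φ x ∈ A))

/-- The part of `A` outside of the split pairs. -/
def rs (W : Finset ι) (φ : ι → ι) (A : Finset ι) : Finset ι :=
  A \ (sp W φ A ∪ (sp W φ A).image φ)

/-- The set with given split pairs, outside part and choice. -/
def mk (φ : ι → ι) (R S O : Finset ι) : Finset ι :=
  S ∪ (O ∪ (R \ O).image φ)

theorem mem_sp {W : Finset ι} {φ : ι → ι} {A : Finset ι} {x : ι} :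
    x ∈ sp W φ A ↔ x ∈ W ∧ ¬ (x ∈ A ↔ φ x ∈ A) := by
  unfold sp
  rw [mem_filter]

theorem mem_rs {W : Finset ι} {φ : ι → ι} {A : Finset ι} {a : ι} :
    a ∈ rs W φ A ↔ a ∈ A ∧ a ∉ sp W φ A ∧ ∀ x ∈ sp W φ A, φ x ≠ a := by
  unfold rs
  rw [mem_sdiff, mem_union, mem_image]
  push_neg
  rfl

theorem mem_mk {φ : ι → ι} {R S O : Finset ι} {a : ι} :
    a ∈ mk φ R S O ↔ a ∈ S ∨ a ∈ O ∨ ∃ x, (x ∈ R ∧ x ∉ O) ∧ φ x = a := by
  unfold mk
  rw [mem_union, mem_union, mem_image]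
  simp only [mem_sdiff]

/-- Disjoint pairs `(x, φ x)`, `x ∈ W`, inside `Z`. -/
structure PairSys (Z W : Finset ι) (φ : ι → ι) : Prop where
  sub : ∀ x ∈ W, x ∈ Z
  img : ∀ x ∈ W, φ x ∈ Z
  inj : ∀ x ∈ W, ∀ x' ∈ W, φ x = φ x' → x = x'
  dis : ∀ x ∈ W, ∀ x' ∈ W, φ x ≠ x'

theorem eq_mk {Z W : Finset ι} {φ : ι → ι} (hP : PairSys Z W φ) (A : Finset ι) :
    A = mk φ (sp W φ A) (rs W φ A) (A ∩ sp W φ A) := by
  ext a
  rw [mem_mk, mem_rs, mem_inter]
  constructor
  · intro ha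
    by_cases h1 : a ∈ sp W φ A
    · exact Or.inr (Or.inl ⟨ha, h1⟩)
    · by_cases h2 : ∃ x ∈ sp W φ A, φ x = a
      · obtain ⟨x, hx, hxa⟩ := h2
        refine Or.inr (Or.inr ⟨x, ⟨hx, ?_⟩, hxa⟩)
        rw [mem_inter]
        rintro ⟨hxA, _⟩
        rw [mem_sp] at hx
        apply hx.2
        rw [hxa]
        exact ⟨fun _ => ha, fun _ => hxA⟩
      · push_neg at h2
        exact Or.inl ⟨ha, h1, h2⟩
  · rintro (⟨h, _⟩ | ⟨h, _⟩ | ⟨x, ⟨hx, hx2⟩, rfl⟩)
    · exact h
    · exact h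
    · rw [mem_inter] at hx2
      have hxA : x ∉ A := fun h => hx2 ⟨h, hx⟩
      rw [mem_sp] at hx
      by_contra hcon
      exact hx.2 ⟨fun h => absurd h hxA, fun h => absurd h hcon⟩

section fiber

variable {Z W : Finset ι} {φ : ι → ι} (hP : PairSys Z W φ) (A0 : Finset ι)

include hP

theorem sp_mk {O : Finset ι} (hO : O ⊆ sp W φ A0) :
    sp W φ (mk φ (sp W φ A0) (rs W φ A0) O) = sp W φ A0 := by
  ext x
  rw [mem_sp]
  constructor
  · rintro ⟨hxW, hx⟩
    by_contra hcon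
    apply hx
    have h1 : x ∉ O := fun h => hcon (hO h)
    have h2 : ∀ z ∈ sp W φ A0, φ z ≠ x := fun z hz => hP.dis z (mem_sp.mp hz).1 x hxW
    have h3 : φ x ∉ sp W φ A0 := fun h => hP.dis x hxW _ (mem_sp.mp h).1 rfl
    have h4 : ∀ z ∈ sp W φ A0, φ z ≠ φ x := by
      intro z hz h
      have := hP.inj z (mem_sp.mp hz).1 x hxW h
      rw [this] at hz
      exact hcon hz
    have e1 : x ∈ mk φ (sp W φ A0) (rs W φ A0) O ↔ x ∈ A0 := by
      rw [mem_mk, mem_rs]
      constructor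
      · rintro (h | h | ⟨z, hz, hzx⟩)
        · exact h.1
        · exact absurd h h1
        · exact absurd hzx (h2 z hz.1)
      · intro h
        exact Or.inl ⟨h, hcon, h2⟩
    have e2 : φ x ∈ mk φ (sp W φ A0) (rs W φ A0) O ↔ φ x ∈ A0 := by
      rw [mem_mk, mem_rs]
      constructor
      · rintro (h | h | ⟨z, hz, hzx⟩)
        · exact h.1
        · exact absurd (hO h) h3
        · exact absurd hzx (h4 z hz.1)
      · intro h
        exact Or.inl ⟨h, h3, h4⟩
    rw [e1, e2]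
    rw [mem_sp] at hcon
    push_neg at hcon
    by_contra h
    rcases not_iff.mp h with h5
    have h6 := hcon hxW
    exact h h6
  · intro hx
    have hxW := (mem_sp.mp hx).1
    refine ⟨hxW, ?_⟩
    have e1 : x ∈ mk φ (sp W φ A0) (rs W φ A0) O ↔ x ∈ O := by
      rw [mem_mk, mem_rs]
      constructor
      · rintro (h | h | ⟨z, hz, hzx⟩)
        · exact absurd hx h.2.1
        · exact h
        · exact absurd hzx (hP.dis z (mem_sp.mp hz.1).1 x hxW)
      · intro h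
        exact Or.inr (Or.inl h)
    have e2 : φ x ∈ mk φ (sp W φ A0) (rs W φ A0) O ↔ x ∉ O := by
      rw [mem_mk, mem_rs]
      constructor
      · rintro (h | h | ⟨z, hz, hzx⟩)
        · exact absurd rfl (h.2.2 x hx)
        · exact absurd rfl (hP.dis x hxW _ (mem_sp.mp (hO h)).1)
        · have := hP.inj z (mem_sp.mp hz.1).1 x hxW hzx
          rw [← this]
          exact hz.2
      · intro h
        exact Or.inr (Or.inr ⟨x, ⟨hx, h⟩, rfl⟩)
    rw [e1, e2]
    tauto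

theorem rs_mk {O : Finset ι} (hO : O ⊆ sp W φ A0) :
    rs W φ (mk φ (sp W φ A0) (rs W φ A0) O) = rs W φ A0 := by
  ext a
  rw [mem_rs, sp_mk hP A0 hO, mem_mk]
  constructor
  · rintro ⟨h | h | ⟨z, hz, hzx⟩, h1, h2⟩
    · exact h
    · exact absurd (hO h) h1
    · exact absurd hzx (h2 z hz.1)
  · intro h
    exact ⟨Or.inl h, (mem_rs.mp h).2⟩

theorem mk_inter {O : Finset ι} (hO : O ⊆ sp W φ A0) :
    mk φ (sp W φ A0) (rs W φ A0) O ∩ sp W φ A0 = O := by
  ext a
  rw [mem_inter, mem_mk]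
  constructor
  · rintro ⟨h | h | ⟨z, hz, hzx⟩, h1⟩
    · exact absurd h1 (mem_rs.mp h).2.1
    · exact h
    · exact absurd hzx (hP.dis z (mem_sp.mp hz.1).1 a (mem_sp.mp h1).1)
  · intro h
    exact ⟨Or.inr (Or.inl h), hO h⟩

theorem sum_mk (y : ι → ℝ) {O : Finset ι} (hO : O ⊆ sp W φ A0) :
    ∑ i ∈ mk φ (sp W φ A0) (rs W φ A0) O, y i =
      ∑ i ∈ rs W φ A0, y i + (∑ i ∈ O, y i + ∑ x ∈ sp W φ A0 \ O, y (φ x)) := by
  have d1 : Disjoint O ((sp W φ A0 \ O).image φ) := by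
    rw [Finset.disjoint_left]
    intro a ha hb
    rw [mem_image] at hb
    obtain ⟨z, hz, hza⟩ := hb
    rw [mem_sdiff] at hz
    exact hP.dis z (mem_sp.mp hz.1).1 a (mem_sp.mp (hO ha)).1 hza
  have d2 : Disjoint (rs W φ A0) (O ∪ (sp W φ A0 \ O).image φ) := by
    rw [Finset.disjoint_left]
    intro a ha hb
    rw [mem_union, mem_image] at hb
    rw [mem_rs] at ha
    rcases hb with h | ⟨z, hz, hza⟩
    · exact ha.2.1 (hO h)
    · exact ha.2.2 z (mem_sdiff.mp hz).1 hza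
  unfold mk
  rw [sum_union d2, sum_union d1, sum_image]
  intro x hx x' hx' h
  have hx2 := (mem_sdiff.mp (mem_coe.mp hx)).1
  have hx2' := (mem_sdiff.mp (mem_coe.mp hx')).1
  exact hP.inj x (mem_sp.mp hx2).1 x' (mem_sp.mp hx2').1 h

theorem card_mk {O : Finset ι} (hO : O ⊆ sp W φ A0) :
    (mk φ (sp W φ A0) (rs W φ A0) O).card = (rs W φ A0).card + (sp W φ A0).card := by
  have h1 := sum_mk hP A0 (fun _ => (1 : ℝ)) hO
  simp only [sum_const, nsmul_eq_mul, mul_one] at h1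
  have h2 : (mk φ (sp W φ A0) (rs W φ A0) O).card =
      (rs W φ A0).card + (O.card + (sp W φ A0 \ O).card) := by exact_mod_cast h1
  rw [h2, card_sdiff_of_subset hO]
  have := card_le_card hO
  omega

theorem class_ge (k : ℕ) (hA : A0 ∈ Z.powersetCard k) :
    2 ^ (sp W φ A0).card ≤ ((Z.powersetCard k).filter
      (fun A => (sp W φ A, rs W φ A) = (sp W φ A0, rs W φ A0))).card := by
  rw [← card_powerset]
  apply card_le_card_of_injOn (fun O => mk φ (sp W φ A0) (rs W φ A0) O)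
  · intro O hO
    rw [mem_coe, mem_powerset] at hO
    rw [mem_powersetCard] at hA
    rw [mem_coe, mem_filter, mem_powersetCard]
    refine ⟨⟨?_, ?_⟩, ?_⟩
    · intro a ha
      rw [mem_mk] at ha
      rcases ha with h | h | ⟨z, hz, rfl⟩
      · exact hA.1 (mem_rs.mp h).1
      · exact hP.sub _ (mem_sp.mp (hO h)).1
      · exact hP.img _ (mem_sp.mp hz.1).1
    · rw [card_mk hP A0 hO]
      have h1 : A0.card = (mk φ (sp W φ A0) (rs W φ A0) (A0 ∩ sp W φ A0)).card := by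
        rw [← eq_mk hP A0]
      rw [card_mk hP A0 inter_subset_right] at h1
      rw [← h1]
      exact hA.2
    · rw [sp_mk hP A0 hO, rs_mk hP A0 hO]
  · intro O hO O' hO' h
    rw [mem_coe, mem_powerset] at hO hO'
    have h1 : mk φ (sp W φ A0) (rs W φ A0) O ∩ sp W φ A0 =
        mk φ (sp W φ A0) (rs W φ A0) O' ∩ sp W φ A0 := by
      simp only at h
      rw [h]
    rw [mk_inter hP A0 hO, mk_inter hP A0 hO'] at h1
    exact h1

theorem class_le (J : Finset (Finset ι))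
    (hJ : ∀ A ∈ J, ∀ B ∈ J, sp W φ A = sp W φ B → rs W φ A = rs W φ B →
      A ∩ sp W φ A ⊆ B ∩ sp W φ B → A ∩ sp W φ A = B ∩ sp W φ B) :
    (J.filter (fun A => (sp W φ A, rs W φ A) = (sp W φ A0, rs W φ A0))).card ≤
      (sp W φ A0).card.choose ((sp W φ A0).card / 2) := by
  set C := J.filter (fun A => (sp W φ A, rs W φ A) = (sp W φ A0, rs W φ A0)) with hC
  have hmem : ∀ A ∈ C, A ∈ J ∧ sp W φ A = sp W φ A0 ∧ rs W φ A = rs W φ A0 := by
    intro A hA
    rw [hC, mem_filter] at hA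
    exact ⟨hA.1, (Prod.mk.injEq _ _ _ _).mp hA.2⟩
  have hinj : Set.InjOn (fun A : Finset ι => A ∩ sp W φ A0) (C : Set (Finset ι)) := by
    intro A hA B hB h
    obtain ⟨_, a1, a2⟩ := hmem A hA
    obtain ⟨_, b1, b2⟩ := hmem B hB
    simp only at h
    rw [eq_mk hP A, eq_mk hP B, a1, a2, b1, b2, h]
  rw [← card_image_of_injOn hinj]
  apply sperner_sub
  · intro s hs
    rw [mem_image] at hs
    obtain ⟨A, _, rfl⟩ := hs
    exact inter_subset_right
  · intro s hs t ht hst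
    rw [mem_image] at hs ht
    obtain ⟨A, hA, rfl⟩ := hs
    obtain ⟨B, hB, rfl⟩ := ht
    obtain ⟨a0, a1, a2⟩ := hmem A hA
    obtain ⟨b0, b1, b2⟩ := hmem B hB
    have := hJ A a0 B b0 (a1.trans b1.symm) (a2.trans b2.symm)
    rw [a1, b1] at this
    exact this hst

/-- The bound for families which are antichains for the exchanges. -/
theorem fiber_bound (k : ℕ) (J : Finset (Finset ι)) (hJk : J ⊆ Z.powersetCard k)
    (hJ : ∀ A ∈ J, ∀ B ∈ J, sp W φ A = sp W φ B → rs W φ A = rs W φ B →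
      A ∩ sp W φ A ⊆ B ∩ sp W φ B → A ∩ sp W φ A = B ∩ sp W φ B) :
    (J.card : ℝ) ≤ ∑ A ∈ Z.powersetCard k,
      (((sp W φ A).card.choose ((sp W φ A).card / 2) : ℕ) : ℝ) / 2 ^ (sp W φ A).card := by
  classical
  set κ : Finset ι → Finset ι × Finset ι := fun A => (sp W φ A, rs W φ A) with hκ
  set K := (Z.powersetCard k).image κ with hK
  have h1 : J.card = ∑ c ∈ K, (J.filter (fun A => κ A = c)).card := by
    apply card_eq_sum_card_fiberwise
    intro A hA
    exact mem_image_of_mem κ (hJk hA)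
  have h2 : ∑ A ∈ Z.powersetCard k,
      (((sp W φ A).card.choose ((sp W φ A).card / 2) : ℕ) : ℝ) / 2 ^ (sp W φ A).card =
      ∑ c ∈ K, ∑ A ∈ (Z.powersetCard k).filter (fun A => κ A = c),
      (((sp W φ A).card.choose ((sp W φ A).card / 2) : ℕ) : ℝ) / 2 ^ (sp W φ A).card := by
    symm
    apply sum_fiberwise_of_maps_to
    intro A hA
    exact mem_image_of_mem κ hA
  rw [h1, h2]
  push_cast
  apply sum_le_sum
  intro c hc
  rw [hK, mem_image] at hc
  obtain ⟨A0, hA0, rfl⟩ := hc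
  have h3 : ∑ A ∈ (Z.powersetCard k).filter (fun A => κ A = κ A0),
      (((sp W φ A).card.choose ((sp W φ A).card / 2) : ℕ) : ℝ) / 2 ^ (sp W φ A).card =
      (((Z.powersetCard k).filter (fun A => κ A = κ A0)).card : ℝ) *
      ((((sp W φ A0).card.choose ((sp W φ A0).card / 2) : ℕ) : ℝ) / 2 ^ (sp W φ A0).card) := by
    rw [← nsmul_eq_mul, ← sum_const]
    apply sum_congr rfl
    intro A hA
    rw [mem_filter] at hA
    have : sp W φ A = sp W φ A0 := congrArg Prod.fst hA.2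
    rw [this]
  rw [h3]
  have h4 : (((J.filter (fun A => κ A = κ A0)).card : ℕ) : ℝ) ≤
      (((sp W φ A0).card.choose ((sp W φ A0).card / 2) : ℕ) : ℝ) := by
    exact_mod_cast class_le hP A0 J hJ
  have h5 : (2 : ℝ) ^ (sp W φ A0).card ≤
      (((Z.powersetCard k).filter (fun A => κ A = κ A0)).card : ℝ) := by
    exact_mod_cast class_ge hP A0 k hA0
  have hpos : (0 : ℝ) < 2 ^ (sp W φ A0).card := by positivity
  calc _ ≤ (((sp W φ A0).card.choose ((sp W φ A0).card / 2) : ℕ) : ℝ) := h4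
    _ = 2 ^ (sp W φ A0).card *
      ((((sp W φ A0).card.choose ((sp W φ A0).card / 2) : ℕ) : ℝ) /
        2 ^ (sp W φ A0).card) := by field_simp
    _ ≤ _ := mul_le_mul_of_nonneg_right h5 (by positivity)

end fiber

end Pool.Agent.KR4
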