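import Pool.Agent.KR3.Top
import Pool.Agent.KR4.Main

/-!
Two classes of elements and four blocks; at most seven elements smaller than the total sum.
-/

namespace Pool.Agent.KR4

open Finset Pool.Agent.KR3

/-- Four blocks and one remaining element of the first class. -/
theorem quad {b p k : ℕ} (u : Fin b → ℝ) (v : Fin p → ℝ)
    (ht : ∀ a, ∑ a, u a + ∑ c, v c - u a < 4) {i j l m : ℕ} (hb : i + j + l + m + 1 = b)
    (hi : i ≤ k) (hj : j ≤ k) (hl : l ≤ k) (hm : m ≤ k) (hp : b + p = 4 * k + 1) :
    1 ≤ rr u v i (k - i) + rr u v j (k - j) + rr u v l (k - l) + rr u v m (k - m) := by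
  have key : ∀ (σ : Equiv.Perm (Fin b)) (τ : Equiv.Perm (Fin p)),
      1 ≤ ib u v ((win b 0 i).map σ.toEmbedding) ((win p 0 (k - i)).map τ.toEmbedding) +
        ib u v ((win b i (i + j)).map σ.toEmbedding)
          ((win p (k - i) (k - i + (k - j))).map τ.toEmbedding) +
        ib u v ((win b (i + j) (i + j + l)).map σ.toEmbedding)
          ((win p (k - i + (k - j)) (k - i + (k - j) + (k - l))).map τ.toEmbedding) +
        ib u v ((win b (i + j + l) (i + j + l + m)).map σ.toEmbedding)
          ((win p (k - i + (k - j) + (k - l)) p).map τ.toEmbedding) := by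
    intro σ τ
    by_contra hcon
    push_neg at hcon
    have e1 := ib_nonneg u v ((win b 0 i).map σ.toEmbedding)
      ((win p 0 (k - i)).map τ.toEmbedding)
    have e2 := ib_nonneg u v ((win b i (i + j)).map σ.toEmbedding)
      ((win p (k - i) (k - i + (k - j))).map τ.toEmbedding)
    have e3 := ib_nonneg u v ((win b (i + j) (i + j + l)).map σ.toEmbedding)
      ((win p (k - i + (k - j)) (k - i + (k - j) + (k - l))).map τ.toEmbedding)
    have e4 := ib_nonneg u v ((win b (i + j + l) (i + j + l + m)).map σ.toEmbedding)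
      ((win p (k - i + (k - j) + (k - l)) p).map τ.toEmbedding)
    have g : ∀ (I : Finset (Fin b)) (J : Finset (Fin p)), ib u v I J < 1 →
        1 ≤ ∑ a ∈ I, u a + ∑ c ∈ J, v c := by
      intro I J h
      by_contra h2
      push_neg at h2
      unfold ib at h
      rw [if_pos h2] at h
      exact lt_irrefl _ h
    have f1 := g _ _ (by linarith : ib u v ((win b 0 i).map σ.toEmbedding)
      ((win p 0 (k - i)).map τ.toEmbedding) < 1)
    have f2 := g _ _ (by linarith : ib u v ((win b i (i + j)).map σ.toEmbedding)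
      ((win p (k - i) (k - i + (k - j))).map τ.toEmbedding) < 1)
    have f3 := g _ _ (by linarith : ib u v ((win b (i + j) (i + j + l)).map σ.toEmbedding)
      ((win p (k - i + (k - j)) (k - i + (k - j) + (k - l))).map τ.toEmbedding) < 1)
    have f4 := g _ _ (by linarith : ib u v ((win b (i + j + l) (i + j + l + m)).map σ.toEmbedding)
      ((win p (k - i + (k - j) + (k - l)) p).map τ.toEmbedding) < 1)
    rw [sum_win u σ (by omega), sum_win v τ (by omega)] at f1 f2 f3 f4
    have hlast : ∑ a, u a + ∑ c, v c - (pre u σ b - pre u σ (i + j + l + m)) < 4 := by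
      rw [← sum_win u σ (by omega : i + j + l + m ≤ b)]
      have hc : ((win b (i + j + l + m) b).map σ.toEmbedding).card = 1 := by
        rw [Finset.card_map, card_win le_rfl]; omega
      obtain ⟨a, ha⟩ := Finset.card_eq_one.mp hc
      rw [ha, Finset.sum_singleton]
      exact ht a
    rw [pre_full] at hlast
    rw [pre_full] at f4
    rw [pre_zero, pre_zero] at f1
    linarith
  have hsum : (∑ _σ : Equiv.Perm (Fin b), ∑ _τ : Equiv.Perm (Fin p), (1 : ℝ)) ≤
      ∑ σ : Equiv.Perm (Fin b), ∑ τ : Equiv.Perm (Fin p),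
      (ib u v ((win b 0 i).map σ.toEmbedding) ((win p 0 (k - i)).map τ.toEmbedding) +
        ib u v ((win b i (i + j)).map σ.toEmbedding)
          ((win p (k - i) (k - i + (k - j))).map τ.toEmbedding) +
        ib u v ((win b (i + j) (i + j + l)).map σ.toEmbedding)
          ((win p (k - i + (k - j)) (k - i + (k - j) + (k - l))).map τ.toEmbedding) +
        ib u v ((win b (i + j + l) (i + j + l + m)).map σ.toEmbedding)
          ((win p (k - i + (k - j) + (k - l)) p).map τ.toEmbedding)) := by
    apply Finset.sum_le_sum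
    intro σ _
    apply Finset.sum_le_sum
    intro τ _
    exact key σ τ
  simp only [Finset.sum_add_distrib] at hsum
  rw [avg_rr, avg_rr, avg_rr, avg_rr, card_win (by omega), card_win (by omega),
    card_win (by omega), card_win (by omega), card_win (by omega), card_win (by omega),
    card_win (by omega), card_win (by omega)] at hsum
  simp only [Finset.sum_const, Finset.card_univ, Fintype.card_perm, Fintype.card_fin,
    nsmul_eq_mul, mul_one] at hsum
  have i1 : i - 0 = i := by omega
  have i2 : k - i - 0 = k - i := by omega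
  have i3 : i + j - i = j := by omega
  have i4 : k - i + (k - j) - (k - i) = k - j := by omega
  have i5 : i + j + l - (i + j) = l := by omega
  have i6 : k - i + (k - j) + (k - l) - (k - i + (k - j)) = k - l := by omega
  have i7 : i + j + l + m - (i + j + l) = m := by omega
  have i8 : p - (k - i + (k - j) + (k - l)) = k - m := by omega
  rw [i1, i2, i3, i4, i5, i6, i7, i8] at hsum
  have hb0 : (0 : ℝ) < (b.factorial : ℝ) := by exact_mod_cast Nat.factorial_pos b
  have hp0 : (0 : ℝ) < (p.factorial : ℝ) := by exact_mod_cast Nat.factorial_pos p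
  have hbp : 0 < (b.factorial : ℝ) * (p.factorial : ℝ) := mul_pos hb0 hp0
  by_contra hcon
  push_neg at hcon
  have := mul_lt_mul_of_pos_left hcon hbp
  nlinarith

variable {ι : Type*} [DecidableEq ι]

theorem pos_eq_NL (y : ι → ℝ) (k : ℕ) (hk : 0 < k) (s : Finset ι) :
    pos y k s = NL s (fun i => 1 / (k : ℝ) - y i) k := by
  have hk0 : (0 : ℝ) < k := by exact_mod_cast hk
  unfold pos NL
  congr 1
  apply Finset.filter_congr
  intro V hV
  rw [mem_powersetCard] at hV
  rw [Finset.sum_sub_distrib, Finset.sum_const, hV.2, nsmul_eq_mul, mul_one_div,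
    div_self hk0.ne']
  constructor <;> intro h <;> linarith

theorem types4 (s H : Finset ι) (hHs : H ⊆ s) (h : ι → ℝ) (k : ℕ) (hk : 0 < k)
    (hH : ∀ i ∈ H, ∑ a ∈ s, h a - h i < 4) (hc : s.card = 4 * k + 1) :
    ∃ r : ℕ → ℝ, (∀ j, 0 ≤ r j) ∧
      (NL s h k : ℝ) = ∑ j ∈ range (k + 1), ((H.card.choose j : ℕ) : ℝ) *
        (((s \ H).card.choose (k - j) : ℕ) : ℝ) * r j ∧
      (∀ i j l m : ℕ, i + j + l + m + 1 = H.card → i ≤ k → j ≤ k → l ≤ k → m ≤ k →
        1 ≤ r i + r j + r l + r m) ∧
      ((∀ i ∈ s \ H, h i < 1 / (k : ℝ)) →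
        (((s \ H).card.choose k : ℕ) : ℝ) * r 0 = (((s \ H).card.choose k : ℕ) : ℝ)) := by
  have hk0 : (0 : ℝ) < k := by exact_mod_cast hk
  obtain ⟨φ, hφ⟩ := exists_enum H
  obtain ⟨ψ, hψ⟩ := exists_enum (s \ H)
  have hd : Disjoint H (s \ H) := Finset.disjoint_sdiff
  have hu : H ∪ (s \ H) = s := Finset.union_sdiff_of_subset hHs
  have hcard : H.card + (s \ H).card = 4 * k + 1 := by
    rw [← hc, ← hu, Finset.card_union_of_disjoint hd, hu]
  have hsum : ∑ a, h (φ a) + ∑ c, h (ψ c) = ∑ i ∈ s, h i := by
    have h1 := Finset.sum_map univ φ h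
    have h2 := Finset.sum_map univ ψ h
    rw [hφ] at h1
    rw [hψ] at h2
    rw [← h1, ← h2, ← Finset.sum_union hd, hu]
  have hmem : ∀ a, φ a ∈ H := by
    intro a
    have h1 : φ a ∈ univ.map φ := mem_map_of_mem _ (mem_univ _)
    exact hφ.subset h1
  have hmem2 : ∀ c, ψ c ∈ s \ H := by
    intro c
    have h1 : ψ c ∈ univ.map ψ := mem_map_of_mem _ (mem_univ _)
    exact hψ.subset h1
  refine ⟨fun j => rr (fun a => h (φ a)) (fun c => h (ψ c)) j (k - j),
    fun j => rr_nonneg _ _ _ _, ?_, ?_, ?_⟩
  · have h1 : NL s h k = ∑ j ∈ range (k + 1), EE (fun a => h (φ a)) (fun c => h (ψ c)) j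
        (k - j) := by
      have h2 := split_count2 H (s \ H) hd h k
      rw [hu] at h2
      rw [h2]
      apply Finset.sum_congr rfl
      intro j _
      exact EE_map H (s \ H) φ ψ hφ hψ h j (k - j)
    rw [h1]
    push_cast
    apply Finset.sum_congr rfl
    intro j _
    exact EE_eq _ _ _ _
  · intro i j l m hb hi hj hl hm
    apply quad (fun a => h (φ a)) (fun c => h (ψ c)) _ hb hi hj hl hm hcard
    intro a
    rw [hsum]
    exact hH _ (hmem a)
  · intro hL
    have h1 : EE (fun a => h (φ a)) (fun c => h (ψ c)) 0 k = (s \ H).card.choose k := by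
      unfold EE
      rw [Finset.powersetCard_zero, Finset.sum_singleton]
      rw [Finset.filter_true_of_mem, Finset.card_powersetCard, Finset.card_univ,
        Fintype.card_fin]
      intro T hT
      rw [mem_powersetCard] at hT
      rw [Finset.sum_empty, zero_add]
      have hne : T.Nonempty := by
        rw [← Finset.card_pos, hT.2]; exact hk
      calc ∑ c ∈ T, h (ψ c) < ∑ c ∈ T, 1 / (k : ℝ) :=
            Finset.sum_lt_sum_of_nonempty hne (fun c _ => hL _ (hmem2 c))
        _ = 1 := by rw [Finset.sum_const, hT.2, nsmul_eq_mul]; field_simp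
    have h2 := EE_eq (fun a => h (φ a)) (fun c => h (ψ c)) 0 k
    rw [h1, Nat.choose_zero_right, Nat.cast_one, one_mul] at h2
    exact h2.symm

end Pool.Agent.KR4
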