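import Pool.Agent.KR4.Mms
import Pool.Agent.KR3.TopFin

/-!
Total dose less than `s + 1 / k`: from finite sets to the form of the problem.
-/

namespace Pool.Agent.KR4

open Finset Pool.Agent.KR3

variable {ι : Type*} [DecidableEq ι]

/-- From the critical number `s k + 1` of elements to all larger numbers. -/
theorem reduce (s : ℕ) (hs1 : 1 ≤ s)
    (crit : ∀ (X : Finset ι) (h : ι → ℝ) (k : ℕ), 0 < k → (∀ i ∈ X, 0 ≤ h i) →
      (k : ℝ) * ∑ i ∈ X, h i < s * k + 1 → X.card = s * k + 1 →
      (s * k + 1 - s).choose k ≤ NL X h k) :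
    ∀ (n : ℕ) (X : Finset ι) (h : ι → ℝ) (k : ℕ), X.card = n →
    (∀ i ∈ X, 0 ≤ h i) → (k : ℝ) * ∑ i ∈ X, h i < s * k + 1 → s * k < n →
    (n - s).choose k ≤ NL X h k := by
  intro n
  induction n with
  | zero => intro X h k _ _ _ hk; omega
  | succ n ih =>
    intro X h k hcard hn hs hk
    rcases Nat.eq_zero_or_pos k with rfl | hkpos
    · rw [NL_zero, Nat.choose_zero_right]
    have hk0 : (0 : ℝ) < k := by exact_mod_cast hkpos
    have hs0 : (1 : ℝ) ≤ s := by exact_mod_cast hs1
    by_cases hcrit : n = s * k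
    · have h1 := crit X h k hkpos hn hs (by omega)
      rw [hcrit]
      exact h1
    · -- there is room: subtract the minimum and remove a zero
      have hne : X.Nonempty := by rw [← Finset.card_pos]; omega
      obtain ⟨e, hes, hmin⟩ := Finset.exists_min_image X h hne
      set c := h e with hc
      have hc0 : 0 ≤ c := hn e hes
      have hnc : (X.card : ℝ) * c ≤ ∑ i ∈ X, h i := by
        have := Finset.card_nsmul_le_sum X h c (fun i hi => hmin i hi)
        simpa using this
      have hkn : (s : ℝ) * (k : ℝ) + 1 ≤ (X.card : ℝ) := by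
        rw [hcard]; exact_mod_cast hk
      have hkc : 0 < 1 - (k : ℝ) * c := by
        rcases hc0.lt_or_eq with hpos | hz
        · have h1 : ((s : ℝ) * (k : ℝ) + 1) * c ≤ (X.card : ℝ) * c :=
            mul_le_mul_of_nonneg_right hkn hc0
          have h2 : (k : ℝ) * (((s : ℝ) * (k : ℝ) + 1) * c) < s * k + 1 :=
            lt_of_le_of_lt (mul_le_mul_of_nonneg_left (h1.trans hnc) hk0.le) hs
          by_contra hcon
          push_neg at hcon
          have h3 : 0 < (s : ℝ) * (k : ℝ) + 1 := by positivity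
          nlinarith
        · rw [← hz]; norm_num
      set D := 1 - (k : ℝ) * c with hD
      set h' : ι → ℝ := fun i => (h i - c) / D with hh'
      have hn' : ∀ i ∈ X, 0 ≤ h' i := by
        intro i hi
        exact div_nonneg (by linarith [hmin i hi]) hkc.le
      have hs' : (k : ℝ) * ∑ i ∈ X, h' i < s * k + 1 := by
        have e1 : ∑ i ∈ X, h' i = (∑ i ∈ X, h i - (X.card : ℝ) * c) / D := by
          rw [hh', ← Finset.sum_div, Finset.sum_sub_distrib, Finset.sum_const, nsmul_eq_mul]
        rw [e1, mul_div_assoc', div_lt_iff₀ hkc, hD]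
        have h1 : ((s : ℝ) * (k : ℝ) + 1) * c ≤ (X.card : ℝ) * c :=
          mul_le_mul_of_nonneg_right hkn hc0
        have h2 := mul_le_mul_of_nonneg_left h1 hk0.le
        nlinarith
      have he0 : h' e = 0 := by simp [hh', hc]
      have hNL : NL X h k = NL X h' k := by
        unfold NL
        congr 1
        apply Finset.filter_congr
        intro V hV
        rw [mem_powersetCard] at hV
        have : ∑ i ∈ V, h' i = (∑ i ∈ V, h i - (k : ℝ) * c) / D := by
          rw [hh', ← Finset.sum_div, Finset.sum_sub_distrib, Finset.sum_const, nsmul_eq_mul,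
            hV.2]
        rw [this, div_lt_one hkc, hD]
        constructor
        · intro h1; linarith
        · intro h1; linarith
      rw [hNL]
      obtain ⟨l, rfl⟩ : ∃ l, k = l + 1 := ⟨k - 1, by omega⟩
      have hse : X = insert e (X.erase e) := (Finset.insert_erase hes).symm
      have hce : (X.erase e).card = n := by rw [Finset.card_erase_of_mem hes, hcard]; omega
      have hle : ∑ i ∈ X.erase e, h' i ≤ ∑ i ∈ X, h' i :=
        Finset.sum_le_sum_of_subset_of_nonneg (Finset.erase_subset e X) (fun i hi _ => hn' i hi)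
      have hnn : 0 ≤ ∑ i ∈ X.erase e, h' i :=
        Finset.sum_nonneg (fun i hi => hn' i (Finset.mem_of_mem_erase hi))
      have hsum1 : ((l + 1 : ℕ) : ℝ) * ∑ i ∈ X.erase e, h' i < s * ((l + 1 : ℕ) : ℝ) + 1 :=
        lt_of_le_of_lt (mul_le_mul_of_nonneg_left hle hk0.le) hs'
      have hsum2 : (l : ℝ) * ∑ i ∈ X.erase e, h' i < s * (l : ℝ) + 1 := by
        push_cast at hsum1
        have hl0 : (0 : ℝ) ≤ l := Nat.cast_nonneg l
        by_contra hcon
        push_neg at hcon
        have h4 : ∑ i ∈ X.erase e, h' i < s := by nlinarith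
        nlinarith
      have hn'' : ∀ i ∈ X.erase e, 0 ≤ h' i := fun i hi => hn' i (Finset.mem_of_mem_erase hi)
      rw [hse, NL_insert (X.erase e) h' (Finset.notMem_erase e X) he0 l]
      have hk2 : s * (l + 1) < n := by omega
      have hk3 : s * l < n := lt_of_le_of_lt (Nat.mul_le_mul_left s (Nat.le_succ l)) hk2
      have hsn : s ≤ n := by
        have : s * 1 ≤ s * (l + 1) := Nat.mul_le_mul_left s (by omega)
        omega
      have i1 := ih (X.erase e) h' (l + 1) hce hn'' hsum1 hk2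
      have i2 := ih (X.erase e) h' l hce hn'' hsum2 hk3
      have e1 : n + 1 - s = (n - s) + 1 := by omega
      rw [e1, Nat.choose_succ_succ' (n - s) l]
      omega

theorem NL_mono {X Y : Finset ι} (hXY : X ⊆ Y) (h : ι → ℝ) (k : ℕ) : NL X h k ≤ NL Y h k := by
  unfold NL
  apply card_le_card
  intro S hS
  rw [mem_filter, mem_powersetCard] at hS ⊢
  exact ⟨⟨hS.1.1.trans hXY, hS.1.2⟩, hS.2⟩

/-- All `k`-subsets have dose less than 1 if all doses are less than `1 / k`. -/
theorem NL_light (X : Finset ι) (h : ι → ℝ) (k : ℕ) (hk : 0 < k)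
    (hl : ∀ i ∈ X, h i < 1 / (k : ℝ)) : NL X h k = X.card.choose k := by
  have hk0 : (0 : ℝ) < k := by exact_mod_cast hk
  unfold NL
  rw [filter_true_of_mem, card_powersetCard]
  intro V hV
  rw [mem_powersetCard] at hV
  have hne : V.Nonempty := by rw [← Finset.card_pos, hV.2]; exact hk
  calc ∑ i ∈ V, h i < ∑ i ∈ V, 1 / (k : ℝ) :=
        Finset.sum_lt_sum_of_nonempty hne (fun i hi => hl i (hV.1 hi))
    _ = 1 := by rw [Finset.sum_const, hV.2, nsmul_eq_mul]; field_simp

theorem heavy_or (X : Finset ι) (h : ι → ℝ) (k : ℕ) (hk : 0 < k) (s : ℕ)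
    (hs : (k : ℝ) * ∑ i ∈ X, h i < s * k + 1) (hX : X.card = s * k + 1) :
    NL X h k = (s * k + 1).choose k ∨ ∃ z ∈ X, (X.erase z).card = s * k ∧
      ∑ i ∈ X.erase z, h i < s := by
  have hk0 : (0 : ℝ) < k := by exact_mod_cast hk
  by_cases hl : ∀ i ∈ X, h i < 1 / (k : ℝ)
  · left
    rw [NL_light X h k hk hl, hX]
  · right
    push_neg at hl
    obtain ⟨z, hz, hzk⟩ := hl
    refine ⟨z, hz, by rw [card_erase_of_mem hz, hX]; omega, ?_⟩
    have h1 := add_sum_erase X h hz
    have h2 : (1 : ℝ) ≤ k * h z := by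
      have := mul_le_mul_of_nonneg_left hzk hk0.le
      rwa [mul_one_div, div_self hk0.ne'] at this
    have h3 : (k : ℝ) * ∑ i ∈ X.erase z, h i < s * k := by
      have : (k : ℝ) * ∑ i ∈ X, h i = k * h z + k * ∑ i ∈ X.erase z, h i := by
        rw [← h1]; ring
      linarith
    by_contra hcon
    push_neg at hcon
    nlinarith

theorem crit_one (X : Finset ι) (h : ι → ℝ) (k : ℕ) (hk : 0 < k)
    (hs : (k : ℝ) * ∑ i ∈ X, h i < ((1 : ℕ) : ℝ) * k + 1) (hX : X.card = 1 * k + 1) :
    (1 * k + 1 - 1).choose k ≤ NL X h k := by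
  rcases heavy_or X h k hk 1 hs hX with h1 | ⟨z, hz, hc, hlt⟩
  · rw [h1]
    exact Nat.choose_le_choose k (by omega)
  · refine le_trans ?_ (NL_mono (erase_subset z X) h k)
    have e1 : 1 * k + 1 - 1 = k := by omega
    rw [e1, Nat.choose_self]
    unfold NL
    rw [Nat.succ_le_iff, card_pos]
    refine ⟨X.erase z, ?_⟩
    rw [mem_filter, mem_powersetCard]
    refine ⟨⟨Subset.refl _, by omega⟩, ?_⟩
    simpa using hlt

theorem crit_two (X : Finset ι) (h : ι → ℝ) (k : ℕ) (hk : 0 < k)
    (hs : (k : ℝ) * ∑ i ∈ X, h i < ((2 : ℕ) : ℝ) * k + 1) (hX : X.card = 2 * k + 1) :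
    (2 * k + 1 - 2).choose k ≤ NL X h k := by
  have hk0 : (0 : ℝ) < k := by exact_mod_cast hk
  rcases heavy_or X h k hk 2 hs hX with h1 | ⟨z, hz, hc, hlt⟩
  · rw [h1]
    exact Nat.choose_le_choose k (by omega)
  · refine le_trans ?_ (NL_mono (erase_subset z X) h k)
    rw [show NL (X.erase z) h k = pos (fun i => 1 / (k : ℝ) - h i) k (X.erase z) by
      rw [pos_eq_NL _ k hk]
      simp]
    have h2 := bad_add_pos (fun i => 1 / (k : ℝ) - h i) k (X.erase z) hc
    rw [bad_zero (fun i => 1 / (k : ℝ) - h i) k (X.erase z) (by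
      rw [sum_sub_distrib, sum_const, hc, nsmul_eq_mul]
      push_cast at hlt ⊢
      have : 2 * (k : ℝ) * (1 / k) = 2 := by field_simp
      linarith)] at h2
    obtain ⟨l, rfl⟩ : ∃ l, k = l + 1 := ⟨k - 1, by omega⟩
    have e1 : 2 * (l + 1) + 1 - 2 = 2 * l + 1 := by omega
    have e2 : 2 * (l + 1) = 2 * l + 1 + 1 := by omega
    rw [e1]
    rw [e2, Nat.choose_succ_succ' (2 * l + 1) l] at h2
    have e3 : (2 * l + 1).choose l = (2 * l + 1).choose (l + 1) := by
      rw [← Nat.choose_symm (by omega : l ≤ 2 * l + 1)]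
      congr 1
      omega
    omega

/-- At most three units of dose. -/
theorem le_three (s : ℕ) (hs1 : 1 ≤ s) (hs3 : s ≤ 3) (n : ℕ) (X : Finset ι) (h : ι → ℝ) (k : ℕ)
    (hX : X.card = n) (hn : ∀ i ∈ X, 0 ≤ h i) (hs : (k : ℝ) * ∑ i ∈ X, h i < s * k + 1)
    (hk : s * k < n) : (n - s).choose k ≤ NL X h k := by
  obtain rfl | rfl | rfl : s = 1 ∨ s = 2 ∨ s = 3 := by omega
  · exact reduce 1 le_rfl (fun X h k hk _ hs hX => crit_one X h k hk hs hX) n X h k hX hn hs hk
  · exact reduce 2 (by norm_num) (fun X h k hk _ hs hX => crit_two X h k hk hs hX) n X h k hX hn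
      hs hk
  · exact top_aux n X h k hX hn (by exact_mod_cast hs) hk

end Pool.Agent.KR4
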