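import Pool.Agent.KR4.Quad

/-!
At most seven elements smaller than the total sum: the binomial inequalities.
-/

namespace Pool.Agent.KR4

open Finset Pool.Agent.KR3

/-- The relation between neighbouring binomial coefficients in a row direction. -/
theorem ch_rel (n r : ℕ) (h : r ≤ n) :
    ((n.choose r : ℕ) : ℝ) * ((n : ℝ) + 1) = (((n + 1).choose r : ℕ) : ℝ) * ((n : ℝ) + 1 - r) := by
  have h1 := Nat.choose_mul_succ_eq n r
  have h2 : (((n.choose r) * (n + 1) : ℕ) : ℝ) =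
      (((n + 1).choose r * (n + 1 - r) : ℕ) : ℝ) := by rw [h1]
  rw [Nat.cast_mul, Nat.cast_mul, Nat.cast_sub (by omega)] at h2
  push_cast at h2
  exact h2

theorem ch_col (n r : ℕ) (h : r ≤ n) :
    ((n.choose (r + 1) : ℕ) : ℝ) * ((r : ℝ) + 1) = ((n.choose r : ℕ) : ℝ) * ((n : ℝ) - r) := by
  have h1 := Nat.choose_succ_right_eq n r
  have h2 : (((n.choose (r + 1)) * (r + 1) : ℕ) : ℝ) =
      ((n.choose r * (n - r) : ℕ) : ℝ) := by rw [h1]
  rw [Nat.cast_mul, Nat.cast_mul, Nat.cast_sub h] at h2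
  push_cast at h2
  exact h2

/-- Four heavy elements. -/
theorem small4 (k : ℕ) (hk : 0 < k) : (4 * k).choose (k - 1) ≤ (4 * k - 3).choose k := by
  obtain ⟨t, rfl⟩ : ∃ t, k = t + 1 := ⟨k - 1, by omega⟩
  have e1 : 4 * (t + 1) - 3 = 4 * t + 1 := by omega
  have e2 : 4 * (t + 1) = 4 * t + 1 + 1 + 1 + 1 := by omega
  have e3 : t + 1 - 1 = t := by omega
  rw [e1, e2, e3]
  have r1 := ch_rel (4 * t + 1) t (by omega)
  have r2 := ch_rel (4 * t + 1 + 1) t (by omega)
  have r3 := ch_rel (4 * t + 1 + 1 + 1) t (by omega)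
  have c1 := ch_col (4 * t + 1) t (by omega)
  have ht : (0 : ℝ) ≤ t := Nat.cast_nonneg t
  have hg : (((4 * t + 1 + 1 + 1 + 1).choose t : ℕ) : ℝ) ≤
      (((4 * t + 1).choose (t + 1) : ℕ) : ℝ) := by
    have h0 : (0 : ℝ) ≤ (((4 * t + 1).choose t : ℕ) : ℝ) := Nat.cast_nonneg _
    generalize (((4 * t + 1 + 1 + 1 + 1).choose t : ℕ) : ℝ) = a4 at *
    generalize (((4 * t + 1 + 1 + 1).choose t : ℕ) : ℝ) = a3 at *
    generalize (((4 * t + 1 + 1).choose t : ℕ) : ℝ) = a2 at *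
    generalize (((4 * t + 1).choose t : ℕ) : ℝ) = a1 at *
    generalize (((4 * t + 1).choose (t + 1) : ℕ) : ℝ) = q at *
    push_cast at r1 r2 r3 c1
    generalize (t : ℝ) = x at *
    have hpos : (0 : ℝ) < (x + 1) * ((3 * x + 4) * (3 * x + 3) * (3 * x + 2)) := by positivity
    have k1 : a4 * ((3 * x + 4) * (3 * x + 3) * (3 * x + 2)) =
        a1 * ((4 * x + 4) * (4 * x + 3) * (4 * x + 2)) := by
      linear_combination -((3 * x + 3) * (3 * x + 2)) * r3 -
        ((4 * x + 4) * (3 * x + 2)) * r2 - ((4 * x + 4) * (4 * x + 3)) * r1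
    have k2 : q * (x + 1) = a1 * (3 * x + 1) := by linear_combination c1
    have k3 : 0 ≤ a1 * (17 * x ^ 3 + 45 * x ^ 2 + 22 * x) := by positivity
    have k4 : ((x + 1) * ((3 * x + 4) * (3 * x + 3) * (3 * x + 2))) * a4 ≤
        ((x + 1) * ((3 * x + 4) * (3 * x + 3) * (3 * x + 2))) * q := by
      have e5 : ((x + 1) * ((3 * x + 4) * (3 * x + 3) * (3 * x + 2))) * a4 =
          (x + 1) * (a1 * ((4 * x + 4) * (4 * x + 3) * (4 * x + 2))) := by rw [← k1]; ring
      have e6 : ((x + 1) * ((3 * x + 4) * (3 * x + 3) * (3 * x + 2))) * q =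
          ((3 * x + 4) * (3 * x + 3) * (3 * x + 2)) * (a1 * (3 * x + 1)) := by rw [← k2]; ring
      rw [e5, e6]
      nlinarith [mul_nonneg k3 ht, k3]
    exact le_of_mul_le_mul_left k4 hpos
  exact_mod_cast hg

end Pool.Agent.KR4
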