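import Pool.Agent.KR4.Small

/-!
At most seven elements smaller than the total sum.
-/

namespace Pool.Agent.KR4

open Finset Pool.Agent.KR3

theorem small5 (t : ℕ) : (((4 * t + 4).choose t : ℕ) : ℝ) ≤
    (((4 * t).choose (t + 1) : ℕ) : ℝ) + 5 / 4 * (((4 * t).choose t : ℕ) : ℝ) := by
  have r0 := ch_rel (4 * t) t (by omega)
  have r1 := ch_rel (4 * t + 1) t (by omega)
  have r2 := ch_rel (4 * t + 2) t (by omega)
  have r3 := ch_rel (4 * t + 3) t (by omega)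
  have c1 := ch_col (4 * t) t (by omega)
  have ht : (0 : ℝ) ≤ t := Nat.cast_nonneg t
  have h0 : (0 : ℝ) ≤ (((4 * t).choose t : ℕ) : ℝ) := Nat.cast_nonneg _
  rw [show 4 * t + 1 + 1 = 4 * t + 2 by omega] at r1
  rw [show 4 * t + 2 + 1 = 4 * t + 3 by omega] at r2
  rw [show 4 * t + 3 + 1 = 4 * t + 4 by omega] at r3
  generalize (((4 * t + 4).choose t : ℕ) : ℝ) = a4 at *
  generalize (((4 * t + 3).choose t : ℕ) : ℝ) = a3 at *
  generalize (((4 * t + 2).choose t : ℕ) : ℝ) = a2 at *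
  generalize (((4 * t + 1).choose t : ℕ) : ℝ) = a1 at *
  generalize (((4 * t).choose t : ℕ) : ℝ) = a0 at *
  generalize (((4 * t).choose (t + 1) : ℕ) : ℝ) = q at *
  push_cast at r0 r1 r2 r3 c1
  generalize (t : ℝ) = x at *
  have k1 : a4 * ((3 * x + 4) * (3 * x + 3) * (3 * x + 2) * (3 * x + 1)) =
      a0 * ((4 * x + 4) * (4 * x + 3) * (4 * x + 2) * (4 * x + 1)) := by
    linear_combination -((3 * x + 3) * (3 * x + 2) * (3 * x + 1)) * r3 -
      ((4 * x + 4) * (3 * x + 2) * (3 * x + 1)) * r2 -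
      ((4 * x + 4) * (4 * x + 3) * (3 * x + 1)) * r1 -
      ((4 * x + 4) * (4 * x + 3) * (4 * x + 2)) * r0
  have k2 : q * (x + 1) = a0 * (3 * x) := by linear_combination c1
  have hpos : (0 : ℝ) < (x + 1) * ((3 * x + 4) * (3 * x + 3) * (3 * x + 2) * (3 * x + 1)) := by
    positivity
  have k3 : 0 ≤ a0 * (6 + 131 / 2 * x + 1085 / 4 * x ^ 2 + 1905 / 4 * x ^ 3 + 1411 / 4 * x ^ 4 +
      353 / 4 * x ^ 5) := by positivity
  apply le_of_mul_le_mul_left _ hpos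
  have e5 : ((x + 1) * ((3 * x + 4) * (3 * x + 3) * (3 * x + 2) * (3 * x + 1))) * a4 =
      (x + 1) * (a0 * ((4 * x + 4) * (4 * x + 3) * (4 * x + 2) * (4 * x + 1))) := by
    rw [← k1]; ring
  have e6 : ((x + 1) * ((3 * x + 4) * (3 * x + 3) * (3 * x + 2) * (3 * x + 1))) *
      (q + 5 / 4 * a0) = ((3 * x + 4) * (3 * x + 3) * (3 * x + 2) * (3 * x + 1)) *
        (a0 * (3 * x) + 5 / 4 * a0 * (x + 1)) := by rw [← k2]; ring
  rw [e5, e6]
  nlinarith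

theorem small6 (s : ℕ) : (((4 * s + 8).choose (s + 1) : ℕ) : ℝ) ≤
    (((4 * s + 3).choose (s + 2) : ℕ) : ℝ) + 2 * (((4 * s + 3).choose (s + 1) : ℕ) : ℝ) := by
  have r0 := ch_rel (4 * s + 3) (s + 1) (by omega)
  have r1 := ch_rel (4 * s + 4) (s + 1) (by omega)
  have r2 := ch_rel (4 * s + 5) (s + 1) (by omega)
  have r3 := ch_rel (4 * s + 6) (s + 1) (by omega)
  have r4 := ch_rel (4 * s + 7) (s + 1) (by omega)
  have c1 := ch_col (4 * s + 3) (s + 1) (by omega)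
  have ht : (0 : ℝ) ≤ s := Nat.cast_nonneg s
  have h0 : (0 : ℝ) ≤ (((4 * s + 3).choose (s + 1) : ℕ) : ℝ) := Nat.cast_nonneg _
  rw [show 4 * s + 3 + 1 = 4 * s + 4 by omega] at r0
  rw [show 4 * s + 4 + 1 = 4 * s + 5 by omega] at r1
  rw [show 4 * s + 5 + 1 = 4 * s + 6 by omega] at r2
  rw [show 4 * s + 6 + 1 = 4 * s + 7 by omega] at r3
  rw [show 4 * s + 7 + 1 = 4 * s + 8 by omega] at r4
  rw [show s + 1 + 1 = s + 2 by omega] at c1
  generalize (((4 * s + 8).choose (s + 1) : ℕ) : ℝ) = a5 at *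
  generalize (((4 * s + 7).choose (s + 1) : ℕ) : ℝ) = a4 at *
  generalize (((4 * s + 6).choose (s + 1) : ℕ) : ℝ) = a3 at *
  generalize (((4 * s + 5).choose (s + 1) : ℕ) : ℝ) = a2 at *
  generalize (((4 * s + 4).choose (s + 1) : ℕ) : ℝ) = a1 at *
  generalize (((4 * s + 3).choose (s + 1) : ℕ) : ℝ) = a0 at *
  generalize (((4 * s + 3).choose (s + 2) : ℕ) : ℝ) = q at *
  push_cast at r0 r1 r2 r3 r4 c1
  generalize (s : ℝ) = x at *
  have k1 : a5 * ((3 * x + 7) * (3 * x + 6) * (3 * x + 5) * (3 * x + 4) * (3 * x + 3)) =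
      a0 * ((4 * x + 8) * (4 * x + 7) * (4 * x + 6) * (4 * x + 5) * (4 * x + 4)) := by
    linear_combination -((3 * x + 6) * (3 * x + 5) * (3 * x + 4) * (3 * x + 3)) * r4 -
      ((4 * x + 8) * (3 * x + 5) * (3 * x + 4) * (3 * x + 3)) * r3 -
      ((4 * x + 8) * (4 * x + 7) * (3 * x + 4) * (3 * x + 3)) * r2 -
      ((4 * x + 8) * (4 * x + 7) * (4 * x + 6) * (3 * x + 3)) * r1 -
      ((4 * x + 8) * (4 * x + 7) * (4 * x + 6) * (4 * x + 5)) * r0
  have k2 : q * (x + 2) = a0 * (3 * x + 2) := by linear_combination c1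
  have hpos : (0 : ℝ) < (x + 2) *
      ((3 * x + 7) * (3 * x + 6) * (3 * x + 5) * (3 * x + 4) * (3 * x + 3)) := by positivity
  have k3 : 0 ≤ a0 * (1680 + 7900 * x + 14744 * x ^ 2 + 14005 * x ^ 3 + 7145 * x ^ 4 +
      1855 * x ^ 5 + 191 * x ^ 6) := by positivity
  apply le_of_mul_le_mul_left _ hpos
  have e5 : ((x + 2) *
      ((3 * x + 7) * (3 * x + 6) * (3 * x + 5) * (3 * x + 4) * (3 * x + 3))) * a5 =
      (x + 2) * (a0 * ((4 * x + 8) * (4 * x + 7) * (4 * x + 6) * (4 * x + 5) * (4 * x + 4))) := by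
    rw [← k1]; ring
  have e6 : ((x + 2) *
      ((3 * x + 7) * (3 * x + 6) * (3 * x + 5) * (3 * x + 4) * (3 * x + 3))) *
      (q + 2 * a0) = ((3 * x + 7) * (3 * x + 6) * (3 * x + 5) * (3 * x + 4) * (3 * x + 3)) *
        (a0 * (3 * x + 2) + 2 * a0 * (x + 2)) := by rw [← k2]; ring
  rw [e5, e6]
  nlinarith

theorem small7 (s : ℕ) : (((4 * s + 8).choose (s + 1) : ℕ) : ℝ) ≤
    (((4 * s + 2).choose (s + 2) : ℕ) : ℝ) + 7 / 2 * (((4 * s + 2).choose (s + 1) : ℕ) : ℝ) := by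
  have r0 := ch_rel (4 * s + 2) (s + 1) (by omega)
  have r1 := ch_rel (4 * s + 3) (s + 1) (by omega)
  have r2 := ch_rel (4 * s + 4) (s + 1) (by omega)
  have r3 := ch_rel (4 * s + 5) (s + 1) (by omega)
  have r4 := ch_rel (4 * s + 6) (s + 1) (by omega)
  have r5 := ch_rel (4 * s + 7) (s + 1) (by omega)
  have c1 := ch_col (4 * s + 2) (s + 1) (by omega)
  have ht : (0 : ℝ) ≤ s := Nat.cast_nonneg s
  have h0 : (0 : ℝ) ≤ (((4 * s + 2).choose (s + 1) : ℕ) : ℝ) := Nat.cast_nonneg _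
  rw [show 4 * s + 2 + 1 = 4 * s + 3 by omega] at r0
  rw [show 4 * s + 3 + 1 = 4 * s + 4 by omega] at r1
  rw [show 4 * s + 4 + 1 = 4 * s + 5 by omega] at r2
  rw [show 4 * s + 5 + 1 = 4 * s + 6 by omega] at r3
  rw [show 4 * s + 6 + 1 = 4 * s + 7 by omega] at r4
  rw [show 4 * s + 7 + 1 = 4 * s + 8 by omega] at r5
  rw [show s + 1 + 1 = s + 2 by omega] at c1
  generalize (((4 * s + 8).choose (s + 1) : ℕ) : ℝ) = a6 at *
  generalize (((4 * s + 7).choose (s + 1) : ℕ) : ℝ) = a5 at *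
  generalize (((4 * s + 6).choose (s + 1) : ℕ) : ℝ) = a4 at *
  generalize (((4 * s + 5).choose (s + 1) : ℕ) : ℝ) = a3 at *
  generalize (((4 * s + 4).choose (s + 1) : ℕ) : ℝ) = a2 at *
  generalize (((4 * s + 3).choose (s + 1) : ℕ) : ℝ) = a1 at *
  generalize (((4 * s + 2).choose (s + 1) : ℕ) : ℝ) = a0 at *
  generalize (((4 * s + 2).choose (s + 2) : ℕ) : ℝ) = q at *
  push_cast at r0 r1 r2 r3 r4 r5 c1
  generalize (s : ℝ) = x at *
  have k1 : a6 * ((3 * x + 7) * (3 * x + 6) * (3 * x + 5) * (3 * x + 4) * (3 * x + 3) *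
      (3 * x + 2)) =
      a0 * ((4 * x + 8) * (4 * x + 7) * (4 * x + 6) * (4 * x + 5) * (4 * x + 4) *
      (4 * x + 3)) := by
    linear_combination
      -((3 * x + 6) * (3 * x + 5) * (3 * x + 4) * (3 * x + 3) * (3 * x + 2)) * r5 -
      ((4 * x + 8) * (3 * x + 5) * (3 * x + 4) * (3 * x + 3) * (3 * x + 2)) * r4 -
      ((4 * x + 8) * (4 * x + 7) * (3 * x + 4) * (3 * x + 3) * (3 * x + 2)) * r3 -
      ((4 * x + 8) * (4 * x + 7) * (4 * x + 6) * (3 * x + 3) * (3 * x + 2)) * r2 -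
      ((4 * x + 8) * (4 * x + 7) * (4 * x + 6) * (4 * x + 5) * (3 * x + 2)) * r1 -
      ((4 * x + 8) * (4 * x + 7) * (4 * x + 6) * (4 * x + 5) * (4 * x + 4)) * r0
  have k2 : q * (x + 2) = a0 * (3 * x + 1) := by linear_combination c1
  have hpos : (0 : ℝ) < (x + 2) *
      ((3 * x + 7) * (3 * x + 6) * (3 * x + 5) * (3 * x + 4) * (3 * x + 3) * (3 * x + 2)) := by
    positivity
  have k3 : 0 ≤ a0 * (8856 * x + 36898 * x ^ 2 + 62480 * x ^ 3 + 109775 / 2 * x ^ 4 +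
      52603 / 2 * x ^ 5 + 12989 / 2 * x ^ 6 + 1285 / 2 * x ^ 7) := by positivity
  apply le_of_mul_le_mul_left _ hpos
  have e5 : ((x + 2) *
      ((3 * x + 7) * (3 * x + 6) * (3 * x + 5) * (3 * x + 4) * (3 * x + 3) * (3 * x + 2))) * a6 =
      (x + 2) * (a0 * ((4 * x + 8) * (4 * x + 7) * (4 * x + 6) * (4 * x + 5) * (4 * x + 4) *
      (4 * x + 3))) := by
    rw [← k1]; ring
  have e6 : ((x + 2) *
      ((3 * x + 7) * (3 * x + 6) * (3 * x + 5) * (3 * x + 4) * (3 * x + 3) * (3 * x + 2))) *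
      (q + 7 / 2 * a0) = ((3 * x + 7) * (3 * x + 6) * (3 * x + 5) * (3 * x + 4) * (3 * x + 3) *
      (3 * x + 2)) * (a0 * (3 * x + 1) + 7 / 2 * a0 * (x + 2)) := by rw [← k2]; ring
  rw [e5, e6]
  nlinarith

end Pool.Agent.KR4
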