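import Pool.Agent.KR4.Basic

/-!
Double counting over the `2 k`-subsets containing a given element, on `4 k + 1` elements.
-/

namespace Pool.Agent.KR4

open Finset

variable {ι : Type*} [DecidableEq ι]

/-- The subsets of size `2 k` containing `e`. -/
def UU (X : Finset ι) (k : ℕ) (e : ι) : Finset (Finset ι) :=
  (X.powersetCard (2 * k)).filter (fun U => e ∈ U)

theorem mem_UU {X : Finset ι} {k : ℕ} {e : ι} {U : Finset ι} :
    U ∈ UU X k e ↔ (U ⊆ X ∧ U.card = 2 * k) ∧ e ∈ U := by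
  unfold UU
  rw [mem_filter, mem_powersetCard]

theorem card_UU (X : Finset ι) (k : ℕ) (e : ι) (hk : 0 < k) (he : e ∈ X)
    (hX : X.card = 4 * k + 1) : (UU X k e).card = (4 * k).choose (2 * k - 1) := by
  have h1 := card_super X {e} (2 * k) (singleton_subset_iff.mpr he)
    (by rw [card_singleton]; omega)
  rw [card_singleton, hX] at h1
  have e1 : 4 * k + 1 - 1 = 4 * k := by omega
  rw [e1] at h1
  rw [← h1]
  unfold UU
  congr 1
  apply filter_congr
  intro U _
  rw [singleton_subset_iff]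

theorem sum_U (X : Finset ι) (y : ι → ℝ) (k : ℕ) (e : ι) (hk : 0 < k) (he : e ∈ X)
    (hX : X.card = 4 * k + 1) :
    ∑ U ∈ UU X k e, pos y k U =
      pos1 y k X e * (3 * k + 1).choose k + pos0 y k X e * (3 * k).choose (k - 1) := by
  set P := (X.powersetCard k).filter (fun S => 0 < ∑ i ∈ S, y i) with hP
  have h1 : ∑ U ∈ UU X k e, pos y k U =
      ∑ U ∈ UU X k e, (P.bipartiteAbove (fun U S => S ⊆ U) U).card := by
    apply sum_congr rfl
    intro U hU
    rw [mem_UU] at hU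
    unfold pos
    congr 1
    ext S
    simp only [bipartiteAbove, hP, mem_filter, mem_powersetCard]
    constructor
    · rintro ⟨⟨a, b⟩, c⟩
      exact ⟨⟨⟨a.trans hU.1.1, b⟩, c⟩, a⟩
    · rintro ⟨⟨⟨_, b⟩, c⟩, a⟩
      exact ⟨⟨a, b⟩, c⟩
  rw [h1, sum_card_bipartiteAbove_eq_sum_card_bipartiteBelow,
    ← sum_filter_add_sum_filter_not P (fun S => e ∈ S)]
  have e1 : ∀ S ∈ P.filter (fun S => e ∈ S),
      ((UU X k e).bipartiteBelow (fun U S => S ⊆ U) S).card = (3 * k + 1).choose k := by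
    intro S hS
    rw [mem_filter, hP, mem_filter, mem_powersetCard] at hS
    have h2 := card_super X S (2 * k) hS.1.1.1 (by rw [hS.1.1.2]; omega)
    rw [hS.1.1.2, hX] at h2
    have e2 : 4 * k + 1 - k = 3 * k + 1 := by omega
    have e3 : 2 * k - k = k := by omega
    rw [e2, e3] at h2
    rw [← h2]
    unfold UU bipartiteBelow
    rw [filter_filter]
    congr 1
    apply filter_congr
    intro U _
    constructor
    · exact fun h => h.2
    · exact fun h => ⟨h hS.2, h⟩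
  have e2 : ∀ S ∈ P.filter (fun S => ¬ e ∈ S),
      ((UU X k e).bipartiteBelow (fun U S => S ⊆ U) S).card = (3 * k).choose (k - 1) := by
    intro S hS
    rw [mem_filter, hP, mem_filter, mem_powersetCard] at hS
    have h2 := card_super X (insert e S) (2 * k) (insert_subset he hS.1.1.1)
      (by rw [card_insert_of_notMem hS.2, hS.1.1.2]; omega)
    rw [card_insert_of_notMem hS.2, hS.1.1.2, hX] at h2
    have e2 : 4 * k + 1 - (k + 1) = 3 * k := by omega
    have e3 : 2 * k - (k + 1) = k - 1 := by omega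
    rw [e2, e3] at h2
    rw [← h2]
    unfold UU bipartiteBelow
    rw [filter_filter]
    congr 1
    apply filter_congr
    intro U _
    rw [insert_subset_iff]
  rw [sum_congr rfl e1, sum_congr rfl e2, sum_const, sum_const, smul_eq_mul, smul_eq_mul,
    hP, filter_filter, filter_filter]
  rfl

theorem sum_T (X : Finset ι) (y : ι → ℝ) (k : ℕ) (e : ι) (hk : 0 < k) (he : e ∈ X)
    (hX : X.card = 4 * k + 1) :
    ∑ U ∈ UU X k e, pos y k (X \ U) = pos0 y k X e * (3 * k).choose (k + 1) := by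
  set P := (X.powersetCard k).filter (fun S => (0 < ∑ i ∈ S, y i) ∧ e ∉ S) with hP
  have h1 : ∑ U ∈ UU X k e, pos y k (X \ U) =
      ∑ U ∈ UU X k e, (P.bipartiteAbove (fun U S => Disjoint U S) U).card := by
    apply sum_congr rfl
    intro U hU
    rw [mem_UU] at hU
    unfold pos
    congr 1
    ext S
    simp only [bipartiteAbove, hP, mem_filter, mem_powersetCard]
    constructor
    · rintro ⟨⟨a, b⟩, c⟩
      have hd : Disjoint U S := by
        rw [Finset.disjoint_left]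
        intro x hx hx2
        exact (mem_sdiff.mp (a hx2)).2 hx
      exact ⟨⟨⟨a.trans sdiff_subset, b⟩, c, fun h => (Finset.disjoint_left.mp hd) hU.2 h⟩, hd⟩
    · rintro ⟨⟨⟨a, b⟩, c, _⟩, d⟩
      refine ⟨⟨?_, b⟩, c⟩
      intro x hx
      rw [mem_sdiff]
      exact ⟨a hx, fun h => (Finset.disjoint_left.mp d) h hx⟩
  rw [h1, sum_card_bipartiteAbove_eq_sum_card_bipartiteBelow]
  have e1 : ∀ S ∈ P,
      ((UU X k e).bipartiteBelow (fun U S => Disjoint U S) S).card = (3 * k).choose (k + 1) := by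
    intro S hS
    rw [hP, mem_filter, mem_powersetCard] at hS
    obtain ⟨⟨hSX, hSc⟩, _, heS⟩ := hS
    have h2 := card_super (X \ S) {e} (2 * k)
      (singleton_subset_iff.mpr (mem_sdiff.mpr ⟨he, heS⟩)) (by rw [card_singleton]; omega)
    rw [card_singleton, card_sdiff_of_subset hSX, hX, hSc] at h2
    have e2 : 4 * k + 1 - k - 1 = 3 * k := by omega
    rw [e2] at h2
    have e3 : (3 * k).choose (2 * k - 1) = (3 * k).choose (k + 1) := by
      rw [← Nat.choose_symm (by omega : 2 * k - 1 ≤ 3 * k)]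
      congr 1
      omega
    rw [← e3, ← h2]
    congr 1
    ext U
    simp only [bipartiteBelow, UU, mem_filter, mem_powersetCard, singleton_subset_iff]
    constructor
    · rintro ⟨⟨⟨a, b⟩, c⟩, d⟩
      refine ⟨⟨?_, b⟩, c⟩
      intro x hx
      rw [mem_sdiff]
      exact ⟨a hx, fun h => (Finset.disjoint_left.mp d) hx h⟩
    · rintro ⟨⟨a, b⟩, c⟩
      refine ⟨⟨⟨a.trans sdiff_subset, b⟩, c⟩, ?_⟩
      rw [Finset.disjoint_left]
      intro x hx hx2
      exact (mem_sdiff.mp (a hx)).2 hx2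
  rw [sum_congr rfl e1, sum_const, smul_eq_mul, hP]
  rfl

/-- The weight of a `2 k`-set `U` and its complement. -/
noncomputable def Gam (X : Finset ι) (y : ι → ℝ) (k : ℕ) (U : Finset ι) : ℝ :=
  2 * (2 * (k : ℝ) + 1) * (pos y k U : ℝ) + 2 * ((k : ℝ) + 1) * (pos y k (X \ U) : ℝ) -
    (2 * (k : ℝ) + 1) * ((2 * k).choose k : ℝ)

/-- If the total weight is nonnegative, there are enough positive sets. -/
theorem of_Gam (X : Finset ι) (y : ι → ℝ) (k : ℕ) (e : ι) (hk : 0 < k) (he : e ∈ X)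
    (hX : X.card = 4 * k + 1) (hG : 0 ≤ ∑ U ∈ UU X k e, Gam X y k U) :
    (4 * k).choose (k - 1) ≤ pos y k X := by
  have h1 : ∑ U ∈ UU X k e, Gam X y k U =
      2 * (2 * (k : ℝ) + 1) * ((∑ U ∈ UU X k e, pos y k U : ℕ) : ℝ) +
      2 * ((k : ℝ) + 1) * ((∑ U ∈ UU X k e, pos y k (X \ U) : ℕ) : ℝ) -
      ((UU X k e).card : ℝ) * ((2 * (k : ℝ) + 1) * ((2 * k).choose k : ℝ)) := by
    unfold Gam
    rw [sum_sub_distrib, sum_add_distrib, ← mul_sum, ← mul_sum, sum_const, nsmul_eq_mul]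
    push_cast
    ring
  rw [h1, sum_U X y k e hk he hX, sum_T X y k e hk he hX, card_UU X k e hk he hX] at hG
  obtain ⟨l, rfl⟩ : ∃ l, k = l + 1 := ⟨k - 1, by omega⟩
  have hl : l + 1 - 1 = l := by omega
  rw [hl] at hG ⊢
  -- the binomial identities
  have b1 : (((3 * (l + 1) + 1).choose (l + 1) : ℕ) : ℝ) * (2 * (l + 1) + 1) =
      (3 * (l + 1) + 1) * (((3 * (l + 1)).choose (l + 1) : ℕ) : ℝ) := by
    have := Nat.choose_mul_succ_eq (3 * (l + 1)) (l + 1)
    have e1 : 3 * (l + 1) + 1 - (l + 1) = 2 * (l + 1) + 1 := by omega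
    rw [e1] at this
    have h2 : (((3 * (l + 1)).choose (l + 1) * (3 * (l + 1) + 1) : ℕ) : ℝ) =
      (((3 * (l + 1) + 1).choose (l + 1) * (2 * (l + 1) + 1) : ℕ) : ℝ) := by rw [this]
    push_cast at h2
    linarith
  have b2 : (((3 * (l + 1)).choose l : ℕ) : ℝ) * (2 * (l + 1) + 1) =
      (l + 1) * (((3 * (l + 1)).choose (l + 1) : ℕ) : ℝ) := by
    have := Nat.choose_succ_right_eq (3 * (l + 1)) l
    have e1 : 3 * (l + 1) - l = 2 * (l + 1) + 1 := by omega
    rw [e1] at this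
    have h2 : (((3 * (l + 1)).choose (l + 1) * (l + 1) : ℕ) : ℝ) =
      (((3 * (l + 1)).choose l * (2 * (l + 1) + 1) : ℕ) : ℝ) := by rw [this]
    push_cast at h2
    linarith
  have b3 : (((3 * (l + 1)).choose (l + 1 + 1) : ℕ) : ℝ) * (l + 1 + 1) =
      2 * (l + 1) * (((3 * (l + 1)).choose (l + 1) : ℕ) : ℝ) := by
    have := Nat.choose_succ_right_eq (3 * (l + 1)) (l + 1)
    have e1 : 3 * (l + 1) - (l + 1) = 2 * (l + 1) := by omega
    rw [e1] at this
    have h2 : (((3 * (l + 1)).choose (l + 1 + 1) * (l + 1 + 1) : ℕ) : ℝ) =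
      (((3 * (l + 1)).choose (l + 1) * (2 * (l + 1)) : ℕ) : ℝ) := by rw [this]
    push_cast at h2
    linarith
  have b4 : (((2 * (l + 1) + 1).choose (l + 1) : ℕ) : ℝ) * (l + 1 + 1) =
      (2 * (l + 1) + 1) * (((2 * (l + 1)).choose (l + 1) : ℕ) : ℝ) := by
    have := Nat.choose_mul_succ_eq (2 * (l + 1)) (l + 1)
    have e1 : 2 * (l + 1) + 1 - (l + 1) = l + 1 + 1 := by omega
    rw [e1] at this
    have h2 : (((2 * (l + 1)).choose (l + 1) * (2 * (l + 1) + 1) : ℕ) : ℝ) =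
      (((2 * (l + 1) + 1).choose (l + 1) * (l + 1 + 1) : ℕ) : ℝ) := by rw [this]
    push_cast at h2
    linarith
  have b5 : (((4 * (l + 1)).choose (2 * (l + 1) - 1) : ℕ) : ℝ) *
      (((2 * (l + 1) + 1).choose (l + 1) : ℕ) : ℝ) =
      (((4 * (l + 1)).choose (l + 1) : ℕ) : ℝ) *
        (((3 * (l + 1)).choose (l + 1 + 1) : ℕ) : ℝ) := by
    have h2 := Nat.choose_mul (n := 4 * (l + 1)) (k := 2 * (l + 1) + 1) (s := l + 1)
      (by omega)
    have e1 : 4 * (l + 1) - (l + 1) = 3 * (l + 1) := by omega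
    have e2 : 2 * (l + 1) + 1 - (l + 1) = l + 1 + 1 := by omega
    rw [e1, e2] at h2
    have e3 : (4 * (l + 1)).choose (2 * (l + 1) - 1) =
        (4 * (l + 1)).choose (2 * (l + 1) + 1) := by
      rw [← Nat.choose_symm (by omega : 2 * (l + 1) - 1 ≤ 4 * (l + 1))]
      congr 1
      omega
    rw [e3]
    exact_mod_cast h2
  have b6 : (((4 * (l + 1)).choose (l + 1) : ℕ) : ℝ) * (l + 1) =
      (((4 * (l + 1)).choose l : ℕ) : ℝ) * (3 * (l + 1) + 1) := by
    have := Nat.choose_succ_right_eq (4 * (l + 1)) l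
    have e1 : 4 * (l + 1) - l = 3 * (l + 1) + 1 := by omega
    rw [e1] at this
    exact_mod_cast this
  have hc : (0 : ℝ) < (((3 * (l + 1)).choose (l + 1) : ℕ) : ℝ) := by
    exact_mod_cast Nat.choose_pos (by omega)
  have hp0 : (0 : ℝ) ≤ (pos0 y (l + 1) X e : ℝ) := Nat.cast_nonneg _
  rw [pos_split y (l + 1) X e]
  have hgoal : (((4 * (l + 1)).choose l : ℕ) : ℝ) ≤
      (pos1 y (l + 1) X e : ℝ) + (pos0 y (l + 1) X e : ℝ) := by
    push_cast at hG
    generalize (pos0 y (l + 1) X e : ℝ) = p0 at *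
    generalize (pos1 y (l + 1) X e : ℝ) = p1 at *
    generalize (((4 * (l + 1)).choose l : ℕ) : ℝ) = c4l at *
    generalize (((4 * (l + 1)).choose (l + 1) : ℕ) : ℝ) = c4 at *
    generalize (((3 * (l + 1)).choose (l + 1) : ℕ) : ℝ) = c at *
    generalize (((3 * (l + 1)).choose (l + 1 + 1) : ℕ) : ℝ) = c3 at *
    generalize (((3 * (l + 1)).choose l : ℕ) : ℝ) = c3l at *
    generalize (((3 * (l + 1) + 1).choose (l + 1) : ℕ) : ℝ) = c31 at *
    generalize (((2 * (l + 1) + 1).choose (l + 1) : ℕ) : ℝ) = d1 at *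
    generalize (((2 * (l + 1)).choose (l + 1) : ℕ) : ℝ) = d at *
    generalize (((4 * (l + 1)).choose (2 * (l + 1) - 1) : ℕ) : ℝ) = q at *
    have hl0 : (0 : ℝ) ≤ l := Nat.cast_nonneg l
    generalize (l : ℝ) = t at *
    have k1 : 2 * (2 * (t + 1) + 1) * (p1 * c31 + p0 * c3l) =
        2 * (p1 * ((3 * (t + 1) + 1) * c) + p0 * ((t + 1) * c)) := by
      rw [← b1, ← b2]; ring
    have k2 : 2 * (t + 1 + 1) * (p0 * c3) = 2 * (p0 * (2 * (t + 1) * c)) := by
      rw [← b3]; ring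
    have k3 : q * ((2 * (t + 1) + 1) * d) = 2 * (t + 1) * c * c4 := by
      rw [← b4]
      calc q * (d1 * (t + 1 + 1)) = (q * d1) * (t + 1 + 1) := by ring
        _ = c4 * (c3 * (t + 1 + 1)) := by rw [b5]; ring
        _ = _ := by rw [b3]; ring
    rw [k1, k2, k3] at hG
    have k4 : 0 ≤ 2 * c * ((3 * (t + 1) + 1) * p1 + 3 * (t + 1) * p0 - (t + 1) * c4) := by
      nlinarith [hG]
    have k5 : 0 ≤ (3 * (t + 1) + 1) * p1 + 3 * (t + 1) * p0 - (t + 1) * c4 := by
      by_contra hcon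
      push_neg at hcon
      have : 2 * c * ((3 * (t + 1) + 1) * p1 + 3 * (t + 1) * p0 - (t + 1) * c4) < 0 :=
        mul_neg_of_pos_of_neg (by linarith) hcon
      linarith
    have k6 : (3 * (t + 1) + 1) * c4l ≤ (3 * (t + 1) + 1) * (p1 + p0) := by nlinarith
    exact le_of_mul_le_mul_left k6 (by linarith)
  exact_mod_cast hgoal

end Pool.Agent.KR4
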